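import Mathlib
import Pool.Graph.R_seed8.H805R2.Final

/-!
Basic definitions and lemmas for the non-solvability of `(dd^c u)² = λ ⊗ δ₀` in `𝓕(𝔻²)`.
-/

set_option autoImplicit false
set_option maxHeartbeats 1000000

open MeasureTheory Metric Set Filter Topology Matrix
open scoped ContDiff ComplexOrder

namespace Pool.Agent.H220.F4

open Pool.Agent.H805R2 Pool.Agent.H805R2.Gram

/-- the unit bidisc in `ℂ²` -/
def Om : Set (Cn 2) := {z | ‖z 0‖ < 1 ∧ ‖z 1‖ < 1}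

/-- the point `(ζ, w)` of `ℂ²` -/
noncomputable def vec (ζ w : ℂ) : Cn 2 := !₂[ζ, w]

/-- determinant of the complex Hessian -/
noncomputable def dt (v : Cn 2 → ℝ) (z : Cn 2) : ℝ := (hess v z).det.re

/-- smooth version of `t ↦ max t (-k)`; it is `t` for `t ≥ -k + 1` -/
noncomputable def chi (k t : ℝ) : ℝ := -k + sm (t + k) + c0

/-- smooth truncation of a function -/
noncomputable def trc (k : ℝ) (v : Cn 2 → ℝ) (z : Cn 2) : ℝ := chi k (v z)

lemma trc_eq_glue (k : ℝ) (v : Cn 2 → ℝ) : trc k v = fun z => glue 1 (fun _ => -k) v z + c0 := by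
  funext z
  unfold trc chi glue
  rw [one_mul, div_one, sub_neg_eq_add]

lemma trc_smooth (k : ℝ) {v : Cn 2 → ℝ} (hv : ContDiff ℝ ∞ v) : ContDiff ℝ ∞ (trc k v) := by
  rw [trc_eq_glue]
  exact (glue_smooth 1 contDiff_const hv).add contDiff_const

lemma trc_psd (k : ℝ) {v : Cn 2 → ℝ} (hv : ContDiff ℝ ∞ v) {z : Cn 2} (h : (hess v z).PosSemidef) :
    (hess (trc k v) z).PosSemidef := by
  rw [trc_eq_glue, hess_add_const _ (glue_smooth 1 contDiff_const hv)]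
  apply glue_psd one_pos contDiff_const hv z _ h
  rw [hess_const_zero]
  exact Matrix.PosSemidef.zero

lemma chi_of_ge {k t : ℝ} (h : -k + 1 ≤ t) : chi k t = t := by
  unfold chi
  rw [sm_of_one_le (by linarith)]
  ring

lemma neg_le_chi (k t : ℝ) : -k ≤ chi k t := by
  unfold chi
  have := sm_nonneg (t + k)
  have := c0_nonneg
  linarith

lemma le_chi (k t : ℝ) : t ≤ chi k t := by
  unfold chi
  have := le_sm (t + k)
  linarith

lemma chi_mono (k : ℝ) : Monotone (chi k) := by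
  intro a b hab
  unfold chi
  have := sm_mono (by linarith : a + k ≤ b + k)
  linarith

lemma chi_le_max (k t : ℝ) : chi k t ≤ max t (-k + 1) := by
  rcases le_total (-k + 1) t with h | h
  · rw [chi_of_ge h]; exact le_max_left _ _
  · refine (chi_mono k h).trans ?_
    rw [chi_of_ge le_rfl]
    exact le_max_right _ _

lemma trc_of_ge {k : ℝ} {v : Cn 2 → ℝ} {z : Cn 2} (h : -k + 1 ≤ v z) : trc k v z = v z := chi_of_ge h

lemma dt_trc_of_gt {k : ℝ} {v : Cn 2 → ℝ} (hv : Continuous v) {z : Cn 2} (h : -k + 1 < v z) :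
    dt (trc k v) z = dt v z := by
  unfold dt
  rw [hess_congr]
  filter_upwards [hv.continuousAt.eventually (lt_mem_nhds h)] with y hy
  exact trc_of_ge hy.le

lemma maDensity_eq (v : Cn 2 → ℝ) (z : Cn 2) : maDensity v z = 8 / Real.pi ^ 2 * dt v z := by
  unfold maDensity dt
  norm_num [Nat.factorial]
  left
  ring

lemma isOpen_Om : IsOpen Om := by
  unfold Om
  have h1 : Continuous fun z : Cn 2 => ‖z 0‖ := by fun_prop
  have h2 : Continuous fun z : Cn 2 => ‖z 1‖ := by fun_prop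
  exact (isOpen_lt h1 continuous_const).inter (isOpen_lt h2 continuous_const)

lemma Om_bounded : Bornology.IsBounded Om := by
  rw [Metric.isBounded_iff_subset_closedBall 0]
  refine ⟨2, fun z hz => ?_⟩
  rw [mem_closedBall_zero_iff, EuclideanSpace.norm_eq, Real.sqrt_le_left (by norm_num), Fin.sum_univ_two]
  have h1 := hz.1
  have h2 := hz.2
  have h3 := norm_nonneg (z 0)
  have h4 := norm_nonneg (z 1)
  nlinarith

lemma dt_smul (c : ℝ) {v : Cn 2 → ℝ} (hv : ContDiff ℝ ∞ v) (z : Cn 2) :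
    dt (fun y => c * v y) z = c ^ 2 * dt v z := by
  unfold dt
  rw [hess_const_mul _ hv, Matrix.det_smul, Fintype.card_fin, ← Complex.ofReal_pow, Complex.re_ofReal_mul]

lemma dt_add_const (c : ℝ) {v : Cn 2 → ℝ} (hv : ContDiff ℝ ∞ v) (z : Cn 2) :
    dt (fun y => v y + c) z = dt v z := by
  unfold dt
  rw [hess_add_const _ hv]

lemma dt_nonneg {v : Cn 2 → ℝ} {z : Cn 2} (h : (hess v z).PosSemidef) : 0 ≤ dt v z := det_hess_nonneg h

lemma dt_continuous {v : Cn 2 → ℝ} (hv : ContDiff ℝ ∞ v) : Continuous (dt v) := det_hess_continuous hv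

/-- **Comparison lemma.** -/
theorem compG (a b h : Cn 2 → ℝ) (ha : ContDiff ℝ ∞ a) (hb : ContDiff ℝ ∞ b) (hh : ContDiff ℝ ∞ h)
    (C : Set (Cn 2)) (hC : IsCompact C) (hpa : ∀ z ∈ C, (hess a z).PosSemidef)
    (hpb : ∀ z ∈ C, (hess b z).PosSemidef) (hph : ∀ z ∈ C, (hess h z).PosSemidef)
    (hneg : ∀ z ∈ C, h z ≤ 0) (hout : ∀ z, z ∉ C → a z ≤ b z) (η : ℝ) (hη : 0 < η)
    (S : Set (Cn 2)) (hS : MeasurableSet S) (hSC : S ⊆ C) (hSab : ∀ z ∈ S, b z + η < a z) :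
    ∫ z in S, (-h z) * dt a z ≤ ∫ z in C, (-h z) * dt b z := by
  set ψ : Cn 2 → ℝ := glue η b a with hψ
  have hψs : ContDiff ℝ ∞ ψ := glue_smooth η hb ha
  have hpψ : ∀ z ∈ C, (hess ψ z).PosSemidef := fun z hz => glue_psd hη hb ha z (hpb z hz) (hpa z hz)
  have hcomp := compare_on b ψ h hb hψs hh C hC (fun z hz => glue_of_le hη (hout z hz))
    (fun z => le_glue_left hη b a z) hpb hpψ hph
  refine le_trans ?_ hcomp
  have e1 : ∫ z in S, (-h z) * dt a z = ∫ z in S, (-h z) * (hess ψ z).det.re := by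
    apply setIntegral_congr_fun hS
    intro z hz
    simp only [dt]
    have h4 : hess ψ z = hess a z := by
      have h5 : ψ =ᶠ[𝓝 z] fun y => a y + (- c0 * η) := by
        have h6 : ∀ᶠ y in 𝓝 z, b y + η < a y :=
          (hb.continuous.add continuous_const).continuousAt.eventually_lt
            ha.continuous.continuousAt (hSab z hz)
        filter_upwards [h6] with y hy
        rw [hψ, glue_of_ge hη hy.le]
        ring
      rw [hess_congr h5, hess_add_const _ ha]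
    rw [h4]
  rw [e1]
  apply setIntegral_mono_set
  · exact (hh.continuous.neg.mul (det_hess_continuous hψs)).continuousOn.integrableOn_compact hC
  · refine (ae_restrict_iff' hC.measurableSet).2 (Eventually.of_forall fun z hz => ?_)
    exact mul_nonneg (by have := hneg z hz; linarith) (det_hess_nonneg (hpψ z hz))
  · exact Eventually.of_forall hSC

/-- the smooth function `∫₀^y sm`: zero for `y ≤ 0`, with second derivative `Real.smoothTransition` -/
noncomputable def bl (y : ℝ) : ℝ := ∫ t in (0 : ℝ)..y, sm t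

/-- the weights `∫_𝔻 |ζ|^{2a} e^{β(1-|ζ|²)}` -/
noncomputable def wt (β : ℝ) (a : ℕ) : ℝ :=
  ∫ ζ in ball (0 : ℂ) 1, ‖ζ‖ ^ (2 * a) * Real.exp (β * (1 - ‖ζ‖ ^ 2))

/-- the weighted norm of polynomials of one variable: `qf (nd M β) p = ∫_𝔻 |Σ p_a ζ^a|² e^{β(1-|ζ|²)}` -/
noncomputable def nd (M : ℕ) (β : ℝ) : Matrix (Fin M) (Fin M) ℂ :=
  diagonal fun a => ((wt β a : ℝ) : ℂ)

/-- the weighted norm of polynomials `Σ c_{(b,a)} z^a w^b`: sum over `b` of the norms of the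
coefficients of `w^b` -/
noncomputable def ND (L M : ℕ) (β : ℝ) : Matrix (Fin L × Fin M) (Fin L × Fin M) ℂ :=
  diagonal fun x => ((wt β x.2 : ℝ) : ℂ)

/-- the monomials `z^a w^b`, indexed by `(b, a)` -/
noncomputable def mon (L M : ℕ) (z : Cn 2) (x : Fin L × Fin M) : ℂ := z 0 ^ (x.2 : ℕ) * z 1 ^ (x.1 : ℕ)

/-- the Gram matrix of the monomials for the weight `e^{-2σΨ}` on `W` -/
noncomputable def GS (L M : ℕ) (W : Set (Cn 2)) (Ψ : Cn 2 → ℝ) (σ : ℝ) :
    Matrix (Fin L × Fin M) (Fin L × Fin M) ℂ :=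
  gram (volume.restrict W) (mon L M) (fun z => Real.exp (-2 * σ * Ψ z))

/-- the psh function `(1/2s) log (|w|² + e^{2s(|z|²-1)})` -/
noncomputable def ps (s : ℝ) (z : Cn 2) : ℝ :=
  1 / (2 * s) * Real.log (‖z 1‖ ^ 2 + Real.exp (2 * s * (‖z 0‖ ^ 2 - 1)))

/-- the function `|z|² - 1` -/
noncomputable def hh (z : Cn 2) : ℝ := ‖z 0‖ ^ 2 - 1

/-- global smooth approximants `v k` of `u` (as produced by `H805R2.extract`) -/
structure Appr (u : Cn 2 → ℝ) (ν : Measure (Cn 2)) (U : Set (Cn 2)) (v : ℕ → Cn 2 → ℝ) : Prop where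
  isOpen : IsOpen U
  sub : U ⊆ Om
  smooth : ∀ k, ContDiff ℝ ∞ (v k)
  cs : ∀ k, HasCompactSupport (v k)
  psd : ∀ k, ∀ z ∈ U, (hess (v k) z).PosSemidef
  out : ∀ k z, z ∉ Om → v k z = 0
  ge : ∀ k, ∀ z ∈ Om, u z ≤ v k z
  lt : ∀ η > 0, ∃ k0, ∀ k ≥ k0, ∀ z, v k z < η
  anti : ∀ z ∈ U, Antitone fun k => v k z
  lim : ∀ z ∈ U, Tendsto (fun k => v k z) atTop (𝓝 (u z))
  conv : ∀ χ : Cn 2 → ℝ, Continuous χ → HasCompactSupport χ → tsupport χ ⊆ U →
    Tendsto (fun k => ∫ z, χ z * maDensity (v k) z) atTop (𝓝 (∫ z, χ z ∂ν))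

/-- the situation of a function of `𝓕(Om)` with Monge-Ampère measure `μ`: a sequence in `𝓔₀` -/
structure Setting (u : ℕ → Cn 2 → ℝ) (ν : ℕ → Measure (Cn 2)) (μ : Measure (Cn 2)) : Prop where
  e0 : ∀ j, IsE0 Om (u j) (ν j)
  anti : ∀ z ∈ Om, Antitone fun j => u j z
  mass : ∃ M : ℝ, ∀ j, ν j Om ≤ ENNReal.ofReal M
  fin : μ Om < ⊤
  conv : ∀ χ : Cn 2 → ℝ, Continuous χ → HasCompactSupport χ → tsupport χ ⊆ Om →
    Tendsto (fun j => ∫ z, χ z ∂(ν j)) atTop (𝓝 (∫ z, χ z ∂μ))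
  neg : ∀ j, ∀ z ∈ Om, u j z < 0

/-- existence of approximants -/
theorem exists_appr {u : Cn 2 → ℝ} {ν : Measure (Cn 2)} (h : IsE0 Om u ν) {K : Set (Cn 2)}
    (hK : IsCompact K) (hKO : K ⊆ Om) : ∃ U v, Appr u ν U v ∧ K ⊆ U := by
  obtain ⟨U, v, h1, h2, h3, h4, h5, h6, h7, h8, h9, h10, h11, h12⟩ :=
    extract isOpen_Om h.2.2.2.2.1 h.2.2.1 hK hKO
  exact ⟨U, v, ⟨h1, h3, h4, h5, h6, h7, h8, h9, h10, h11, h12⟩, h2⟩

/-- total masses are bounded by `μ(Om)` -/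
theorem mass_le {u : ℕ → Cn 2 → ℝ} {ν : ℕ → Measure (Cn 2)} {μ : Measure (Cn 2)} (H : Setting u ν μ)
    (j : ℕ) (χ0 : Cn 2 → ℝ) (h1 : Continuous χ0) (h2 : HasCompactSupport χ0) (h3 : tsupport χ0 ⊆ Om)
    (h4 : ∀ z, χ0 z ∈ Icc (0 : ℝ) 1) : ∫ z, χ0 z ∂(ν j) ≤ (μ Om).toReal := by
  obtain ⟨M, hM⟩ := H.mass
  exact mass_bound isOpen_Om Om_bounded H.e0 H.anti M hM H.fin H.conv j (H.neg j) χ0 h1 h2 h3 h4

end Pool.Agent.H220.F4
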