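import Mathlib
import Pool.Agent.H220.F4.Base

/-!
Interface: the statements `S_X : Prop` of the lemmas used in the non-solvability proof, each with a
complete paper proof in its doc comment. `dt v = (hess v).det.re`, `maDensity v = (8/π²) dt v` in `ℂ²`.
-/

set_option autoImplicit false

open MeasureTheory Metric Set Filter Topology Matrix
open scoped ContDiff ComplexOrder

namespace Pool.Agent.H220.F4

open Pool.Agent.H805R2 Pool.Agent.H805R2.Gram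

/-- **S_flag** (linear algebra; block LDL decomposition of a positive definite matrix).
Index set `Fin L × Fin M`, first component is the block number. `qf G c = star c ⬝ᵥ (G *ᵥ c)`.
Proof by induction on `L`. `L = 0`: empty product. Step: reindex `Fin (L+1) × Fin M ≃ Fin M ⊕ (Fin L × Fin M)`
(block `0` and the blocks `b+1`), `G = fromBlocks A B Bᴴ D` with `D` positive definite; `nn 0 := A - B D⁻¹ Bᴴ`
(Schur complement, positive definite: `Matrix.PosDef.fromBlocks₂₂`/`Matrix.schur_complement_eq₂₂`), take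
`P = (p, - D⁻¹ Bᴴ p)` for `l = 0`: `qf G P = qf (nn 0) p` by `Matrix.schur_complement_eq₂₂`;
`det G = det D * det (A - B D⁻¹ Bᴴ)` by `Matrix.det_fromBlocks₂₂`. For `l + 1` apply the induction hypothesis to
`D` (extend the vector by zero on block `0`; the form of `G` restricted to such vectors is that of `D`). -/
def S_flag : Prop := ∀ (L M : ℕ) (G : Matrix (Fin L × Fin M) (Fin L × Fin M) ℂ), G.PosDef →
  ∃ nn : Fin L → Matrix (Fin M) (Fin M) ℂ, (∀ l, (nn l).PosDef) ∧ G.det = ∏ l, (nn l).det ∧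
    ∀ (l : Fin L) (p : Fin M → ℂ), ∃ P : Fin L × Fin M → ℂ,
      (∀ b a, b < l → P (b, a) = 0) ∧ (∀ a, P (l, a) = p a) ∧ qf G P = qf (nn l) p

/-- **S_wt** (one variable weights; polar coordinates).
(1) positivity, (2) a lower bound: `wt β a ≥ ∫_𝔻 |ζ|^{2a} = π/(a+1)`; the crude bound stated is enough
(e.g. restrict to the annulus `1 - 1/(a+1) ≤ |ζ| < 1`, or use polar coordinates),
(3) upper bound: `wt β a ≤ e^β ∫_ℂ |ζ|^{2a} e^{-β|ζ|²} = π e^β a! / β^{a+1}`, from Mathlib's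
`Complex.integral_rpow_mul_exp_neg_mul_rpow` with `p = 2`, `q = 2a`, `b = β`,
(4) the norm `nd`: `∫_𝔻 |Σ p_a ζ^a|² e^{β(1-|ζ|²)} = Σ wt β a |p_a|²`: the mixed integrals
`∫_𝔻 conj(ζ)^a ζ^b e^{β(1-|ζ|²)}`, `a ≠ b`, vanish (the measure is invariant under `ζ ↦ cζ`, `|c| = 1`; take
`c = exp(iπ/(b-a))`), and `qf (nd M β) p = Σ wt β a |p_a|²` for the diagonal matrix. -/
def S_wt : Prop :=
  (∀ (β : ℝ) (a : ℕ), 0 < wt β a) ∧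
  (∀ (β : ℝ) (a : ℕ), 0 ≤ β → 1 / (4 * ((a : ℝ) + 1)) ≤ wt β a) ∧
  (∀ (β : ℝ) (a : ℕ), 0 < β → wt β a ≤ Real.pi * Real.exp β * (a.factorial : ℝ) / β ^ (a + 1)) ∧
  (∀ (M : ℕ) (β : ℝ) (p : Fin M → ℂ), qf (nd M β) p =
    ((∫ ζ in ball (0 : ℂ) 1, ‖∑ a, p a * ζ ^ (a : ℕ)‖ ^ 2 * Real.exp (β * (1 - ‖ζ‖ ^ 2)) : ℝ) : ℂ))

/-- **S_axis** (lower bound for the logarithm of a Bergman type kernel; uses `S_wt`).
Let `n ≥ nd M β` be positive definite on polynomials of degree `< M` in one variable and let `g > 0` be continuous with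
`|p(ζ)|² ≤ g(ζ) n(p)`. Then `∫_𝔻 log g ≥ -βπ/2 - (2π/β) (log det n - log det nd)`.
Proof. `Gram.simul_diag (nd M β) n` gives `C`, `x` with `Cᴴ nd C = 1`, `Cᴴ n C = diag x`; put
`e_i(ζ) = Σ_a C a i ζ^a`: `nd`-orthonormal, `n(e_i) = x_i ≥ 1`, and `Σ_i log x_i = log det n - log det nd`
(`Gram.det_rel`). Put `S(ζ) = Σ_i |e_i(ζ)|²`.
(a) With `p = Σ_i conj(e_i(ζ)) x_i⁻¹ e_i` one gets `p(ζ) = g'(ζ) := Σ_i |e_i(ζ)|²/x_i` and `n(p) = g'(ζ)`, so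
`g(ζ) ≥ g'(ζ)` (if `g' > 0`).
(b) `S(ζ) ≥ (β/2π) e^{-β(1-|ζ|²)}` on `𝔻`: Cauchy-Schwarz in the orthonormal basis gives `|q(ζ)|² ≤ S(ζ) nd(q)` for all `q`;
take `q(ξ) = Σ_a conj(ζ)^a ξ^a / wt β a`: `S(ζ) ≥ Σ_{a<M} |ζ|^{2a}/wt β a ≥ (β/π) e^{-β} Σ_{a<M} (β|ζ|²)^a/a!`, and
`Σ_{a<M} x^a/a! ≥ e^x/2` for `0 ≤ x ≤ 2N`, `M ≥ 4N`, `N ≥ 1` (the tail is at most `2^{-M} e^{2x}`, as
`x^a/a! ≤ 2^{-M} (2x)^a/a!` for `a ≥ M`, and `2^{-M} e^{2x} ≤ e^x/2` since `x ≤ 2N ≤ (4N-1) log 2`).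
(c) Jensen (concavity of `log`, weights `|e_i|²/S` of sum `1`): `log g' ≥ log S - Σ_i (|e_i|²/S) log x_i`. Integrate over `𝔻`,
with `log S ≥ log(β/2π) - β(1-|ζ|²) ≥ -β(1-|ζ|²)`, `∫_𝔻 (1-|ζ|²) = π/2`, `log x_i ≥ 0` and
`∫_𝔻 |e_i|²/S ≤ (2π/β) ∫_𝔻 |e_i|² e^{β(1-|ζ|²)} = 2π/β`. -/
def S_axis : Prop := ∀ (N M : ℕ) (β : ℝ), 1 ≤ N → 4 * N ≤ M → 2 * Real.pi ≤ β → β ≤ 2 * N →
  ∀ n : Matrix (Fin M) (Fin M) ℂ, n.PosDef → (∀ p, (qf (nd M β) p).re ≤ (qf n p).re) →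
  ∀ g : ℂ → ℝ, Continuous g → (∀ ζ, 0 < g ζ) →
  (∀ (ζ : ℂ) (p : Fin M → ℂ), ‖∑ a, p a * ζ ^ (a : ℕ)‖ ^ 2 ≤ g ζ * (qf n p).re) →
  -(β * Real.pi / 2) - 2 * Real.pi / β * (Real.log n.det.re - Real.log (nd M β).det.re) ≤
    ∫ ζ in ball (0 : ℂ) 1, Real.log (g ζ)

/-- **S_grow** (growth of Gram determinants; uses `S_wt` (1), (2)).
Let `G_σ = ND L M β + GS L M Om Ψ σ`. Bound `log det G_N - log det ND`.
Proof. (i) Model: `sharp_step`, `crude_step`, `total_growth` in `Pool/Graph/R_seed8/H805R2/Upper2.lean` (library), which treat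
the matrix without the constant part `ND`. The library lemma `Gram.step` applies verbatim to `G_σ` as follows: on
`X = Cn 2 ⊕ (Fin L × Fin M)` take the measure `μ' = map inl (volume.restrict Om) + Σ_x ofReal (wt β x.2) • dirac (inr x)`,
the functions `m' (inl z) = mon L M z`, `m' (inr x) = Pi.single x 1`, and `v' (inl z) = Ψ z`, `v' (inr x) = 0`; then
`gram μ' m' (exp(-2σ v')) = G_σ`. All functions are bounded by `1` a.e. (`|z^a w^b| ≤ 1` on `Om`). (Or redo the proof of `step`.)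
(ii) `local_bergman` (library, `Local2`) with `U = Om` gives `σ0` such that for `σ ≥ σ0`, `z ∈ C` and polynomials `F = Σ c_x mon_x`:
`|F z|² e^{-2σΨ z} ≤ σ² ((2/π)² dt Ψ z + κ') ∫_Om |F|² e^{-2σΨ} ≤ K(z) (qf G_σ c).re`. So `step` with `A = inl '' C` gives
`log det G_σ - log det G_{σ-1} ≤ 2t σ² ((2/π)² ∫_C dt Ψ + κ' vol C) + 2τ L M` for `σ ≥ σ0`; take `κ' = κ/(1+vol C)`.
(iii) for `σ < σ0`, `step` with `A = ∅` gives `≤ 2 max(t,τ) L M`; there are at most `⌈σ0⌉` such integers `σ`.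
(iv) `Σ_{σ=1}^N σ² ≤ (N+1)³/3`.
(v) `log det G_0 ≤ log det ND + L M log(1 + 100 L M²)`: for `|z|,|w| < 1`, `|Σ c_x mon_x|² ≤ (Σ |c_x|)² ≤
(Σ_x 1/wt β x.2)(Σ_x wt β x.2 |c_x|²) ≤ 4 L M² (qf ND c).re`, and `vol Om = π² ≤ 10`, so `G_0 ≤ (1 + 40 L M²) ND` as forms; use
`Gram.det_mono` and `det (c • ND) = c^{LM} det ND`. The `N`-independent constant is `S0 = 2 ⌈σ0⌉ max(t,τ)`. -/
def S_grow : Prop := ∀ (Ψ : Cn 2 → ℝ), ContDiff ℝ ∞ Ψ → ∀ V : ℝ, (∀ z, |Ψ z| ≤ V) →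
  ∀ C : Set (Cn 2), IsCompact C → C ⊆ Om → (∀ z ∈ C, (hess Ψ z).PosSemidef) →
  ∀ t τ : ℝ, 0 ≤ t → 0 ≤ τ → (∀ z ∈ C, -t ≤ Ψ z) → (∀ z ∈ Om, z ∉ C → -τ ≤ Ψ z) →
  ∀ κ : ℝ, 0 < κ → ∃ S0 : ℝ, ∀ (L M N : ℕ) (β : ℝ), 1 ≤ L → 1 ≤ M → 0 ≤ β →
    Real.log (ND L M β + GS L M Om Ψ N).det.re - Real.log (ND L M β).det.re ≤
      2 * t * ((2 / Real.pi) ^ 2 * (∫ z in C, dt Ψ z) + κ) * (((N : ℝ) + 1) ^ 3 / 3) +
        2 * τ * N * (L * M) + (L * M) * (S0 + Real.log (1 + 100 * (L * (M : ℝ) ^ 2)))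

/-- **S_kern** (Bergman type kernels; no other lemma needed).
For a positive definite `G` on the polynomials `Σ c_{(b,a)} z^a w^b` and `l : Fin L` let
`Q_c(z, w) = Σ_{x=(b,a)} c_x z^a w^{b-l}` for `c` supported in the blocks `b ≥ l`.
Proof. Restrict `G` to the index set `{x // l ≤ x.1}`: positive definite, so there is an invertible `D` with
`Dᴴ G' D = 1` (e.g. `Gram.simul_diag G' G'`). Put `e_i(z,w) = Σ_x D x i z^a w^{b-l}`, `B = Σ_i |e_i|²`.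
First inequality: `c = D y`, `Q_c = Σ y_i e_i`, `qf G c = Σ |y_i|²`, Cauchy-Schwarz. Positivity: apply it to `c` = the
unit vector at `(l, 0)`, `Q_c = 1`. Equality: `y_i = conj (e_i z)`, `Q_c(z) = B z`, `qf G c = B z > 0`.
Plurisubharmonicity of `log Σ|e_i|²` for holomorphic `e_i` without common zeros: by `psd_iff` and `levi_comp` (library `Glue`)
for `Φ = log`, `f = B` (to have `Φ` smooth on all of `ℝ` one can first replace `log` near `B z` by `x ↦ log` composed with a smooth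
cutoff, or redo the chain rule for `ContDiffAt`), `levi (log f) ζ = levi f ζ / f - ((f' ζ)² + (f' (iζ))²)/(4 f²)`, where with
`d_i = ∂_ζ e_i` (complex derivative): `levi f ζ = Σ |d_i|²`, `f' ζ = 2 Re Σ conj(e_i) d_i`, `f'(iζ) = -2 Im Σ conj(e_i) d_i`, so that
`(f' ζ)² + (f'(iζ))² = 4 |Σ conj(e_i) d_i|² ≤ 4 f Σ |d_i|²`. -/
def S_kern : Prop := ∀ (L M : ℕ) (G : Matrix (Fin L × Fin M) (Fin L × Fin M) ℂ), 1 ≤ M → G.PosDef →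
  ∀ l : Fin L, ∃ B : Cn 2 → ℝ, ContDiff ℝ ∞ B ∧ (∀ z, 0 < B z) ∧
    ContDiff ℝ ∞ (fun z => Real.log (B z)) ∧ (∀ z, (hess (fun z => Real.log (B z)) z).PosSemidef) ∧
    (∀ (z : Cn 2) (c : Fin L × Fin M → ℂ), (∀ x, x.1 < l → c x = 0) →
      ‖∑ x, c x * (z 0 ^ (x.2 : ℕ) * z 1 ^ ((x.1 : ℕ) - l))‖ ^ 2 ≤ B z * (qf G c).re) ∧
    (∀ z : Cn 2, ∃ c : Fin L × Fin M → ℂ, (∀ x, x.1 < l → c x = 0) ∧ 0 < (qf G c).re ∧
      ‖∑ x, c x * (z 0 ^ (x.2 : ℕ) * z 1 ^ ((x.1 : ℕ) - l))‖ ^ 2 = B z * (qf G c).re)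

/-- **S_P4** (the capacity estimate; proved from `S_flag`, `S_wt`, `S_axis`, `S_grow`, `S_kern`).
Proof. Let `J = (2/π)² ∫_C dt Ψ`. For `L ∈ ℕ` large put `N = 8 s L`, `M = 4 N`, `β = 2 N δ` (`2π ≤ β ≤ 2N` for `L` large),
`A = {z ∈ Om | e^{-2s} < |z 1|}`, `G = ND L M β + GS L M A Ψ N` (positive definite: `ND` is, by `S_wt` (1), and `GS` is positive
semidefinite; `(qf (GS ..) c).re = ∫_A |Σ c_x mon_x|² e^{-2NΨ}` by `Gram.qf_gram`).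
Take `nn l` from `S_flag`, `B_l` from `S_kern`, and `v = (1/L) Σ_l (1/(2N)) log B_l - ε_N`, `ε_N = (1/(2N)) log (4 L M²)`.
(a) `v` is smooth with positive semidefinite hessian everywhere (sums, nonnegative multiples, constants).
(b) `v ≤ 0` on `Om`: at `z ∈ Om` take the extremal `c` of `S_kern`; `|Q_c(z)|² ≤ (Σ|c_x|)² ≤ (Σ_x 1/wt β x.2)(qf ND c).re ≤ 4 L M² (qf G c).re`.
So `B_l z ≤ 4 L M²`.
(c) `v ≤ -1/4` on `E` for `L` large: at `x ∈ E` with the extremal `c`, `Q_c` is a polynomial, so by `mean_ball` (library `Upper`)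
`vol(closedBall 0 ρ) |Q_c x|² ≤ ∫_{closedBall x ρ} |Q_c|²`. On this ball, which is contained in `A`, `w^l Q_c = Σ c_x mon_x`,
`|w|^{-2l} ≤ e^{4 s l} ≤ e^{4sL} = e^{N/2}` and `e^{-2NΨ} ≥ e^{3N/2}`, so `|Q_c|² ≤ e^{N/2 - 3N/2} |Σ c_x mon_x|² e^{-2NΨ}`;
the integral is at most `e^{-N} (qf G c).re`. So `(1/(2N)) log B_l x ≤ -1/2 - log vol(closedBall 0 ρ)/(2N)`.
(d) For `l : Fin L`, `g_l ζ := B_l (vec ζ 0)` and `p : Fin M → ℂ`, with `P` from `S_flag` for `(l, p)`: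
`Q_P(ζ, 0) = Σ_a p_a ζ^a` (`0^0 = 1`), so `|p(ζ)|² ≤ g_l(ζ) (qf (nn l) p).re`; and
`qf (nn l) p = qf G P ≥ qf ND P ≥ Σ_a wt β a |P(l,a)|² = qf (nd M β) p`. So `S_axis` applies:
`- ∫_𝔻 log g_l ≤ βπ/2 + (2π/β)(log det (nn l) - log det nd)`.
(e) Sum over `l`: `Σ_l (log det nn l - log det nd) = log det G - log det ND =: T` (`det ND = (det nd)^L`), and by `Gram.det_mono`
(`GS` on `A` is at most `GS` on `Om`) and `S_grow`: `T ≤ 2t(J+κ)(N+1)³/3 + 2τ N L M + L M (S0 + log(1+100 L M²))`. With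
`LM = N²/(2s)`: `limsup T/N³ ≤ 2t(J+κ)/3 + τ/s`.
(f) `∫_𝔻 -v(ζ,0) = (1/L) Σ_l (1/2N)(-∫ log g_l) + π ε_N ≤ πβ/(4N) + (π/(L N β)) T + π ε_N = πδ/2 + (4πs/δ)(T/N³) + π ε_N`.
Choose `κ` small, then `L` large. -/
def S_P4 : Prop := ∀ (s : ℕ), 1 ≤ s → ∀ δ : ℝ, 0 < δ → δ ≤ 1 →
  ∀ (Ψ : Cn 2 → ℝ), ContDiff ℝ ∞ Ψ → ∀ V : ℝ, (∀ z, |Ψ z| ≤ V) →
  ∀ C : Set (Cn 2), IsCompact C → C ⊆ Om → (∀ z ∈ C, (hess Ψ z).PosSemidef) →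
  ∀ t τ : ℝ, 0 ≤ t → 0 ≤ τ → (∀ z ∈ C, -t ≤ Ψ z) → (∀ z ∈ Om, z ∉ C → -τ ≤ Ψ z) →
  ∀ (E : Set (Cn 2)) (ρ : ℝ), 0 < ρ → (∀ x ∈ E, closedBall x ρ ⊆ Om ∧
    ∀ y ∈ closedBall x ρ, Real.exp (-2 * s) < ‖y 1‖ ∧ Ψ y ≤ -(3 / 4)) →
  ∀ ε : ℝ, 0 < ε → ∃ v : Cn 2 → ℝ, ContDiff ℝ ∞ v ∧ (∀ z, (hess v z).PosSemidef) ∧
    (∀ z ∈ Om, v z ≤ 0) ∧ (∀ z ∈ E, v z ≤ -(1 / 4)) ∧
    ∫ ζ in ball (0 : ℂ) 1, -v (vec ζ 0) ≤ Real.pi * δ / 2 +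
      4 * Real.pi * s / δ * (2 * t / 3 * ((2 / Real.pi) ^ 2 * ∫ z in C, dt Ψ z) + τ / s) + ε

/-- **S_BI** (upper bound by the limit measure, uniform in the test function).
Model: `mass_step`, `mass_bound` in the library (`R_seed8/H805R2/PartM.lean`, `Final.lean`). Tools: `compG`, `mass_le`,
`exists_appr` (`F4/Base`), `dini_lt`, `bdry_compact`, `cutoff`, `glue_*`, `setInt_le_cut` (library).
Proof. Fix `j`, `K`, `ε`. There are `α, κ > 0`, `Mj` with `u j < -α` on `K` (`u j < 0` is usc; see the start of the proof of `mass_bound`),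
`-Mj ≤ u j` on `Om`, and `|z|² - 1 ≤ -κ`, `|w|² - 1 ≤ -κ` on `K`. Let `0 < e ≤ 1` with `e (3+ε) < ε α`, `η = e/8`,
`Λ = (Mj + 2)/κ`, `ρ = glue η₀ (|z|²-1) (|w|²-1)` with `0 < η₀`, `Λ η₀ ≤ e/8` (smooth and psh on `ℂ²`, `ρ ≤ max(..) < 0` on `Om`,
`ρ ≥ max(|z|²-1, |w|²-1) - η₀`), `q = Λ ρ - e/4`. Let
`K' = K ∪ {z | Λ (|z|²-1) ≤ -e/4 ∧ Λ (|w|²-1) ≤ -e/4}`, compact in `Om`.
Given approximants `v` of `u j` on `U ⊇ K'`, choose `i0` with `v i < e/8` everywhere and `v i < -α` on `K` for `i ≥ i0` (`dini_lt`). Fix `i`, `ψ`.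
Put `a = glue η q (v i - e)`. On `U` it is psh (`glue_psd`); on `Om \ K'` we have `q ≥ -5e/8 > v i - e`, so `a = q` there (`glue_of_le`):
`a` has psd hessian on `Om`. On `K`: `q + η < v i - e` (as `v i ≥ u j ≥ -Mj`), so near `K` `a = v i - e - c0 η` and `dt a = dt (v i)` on `K`.
On `Om`: `a ≤ max q (v i - e) ≤ -e/4`.
For `j' ≥ j` let `Cw ⊆ Om` be compact with `u j' > -e/(8(1+ε))` on `Om \ Cw` (`bdry_compact`), `C2 = Cw ∪ K'`, and approximants `v'` of `u j'`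
on some `U' ⊇ C2`. Let `χ3` be a cutoff, `1` on a neighbourhood of `C2`, with compact support in `Om`, and
`a' = χ3 (a + e/4) - e/4`: smooth on `ℂ²`, equal to `a` near `C2`, `a' ≤ -e/4` everywhere. Let `b = (1+ε) v' i'`, psh on `C2`; off `C2`:
`b ≥ -e/8 ≥ a'` (and `b = 0` off `Om`). For `i'` large `v' i' < v i + e` on `K` (`dini_lt`; `u j' ≤ u j ≤ v i`), so on `K`
`b + η ≤ (1+ε)(v i + e) + η < v i - e - η ≤ a'` as `v i < -α`. `compG` with `S = K`, `C = C2`, `h = ψ` gives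
`∫_K (-ψ) dt (v i) ≤ (1+ε)² ∫_{C2} (-ψ) dt (v' i')`; multiply by `8/π²` (`maDensity_eq`).
With a cutoff `χ2 = 1` on `C2`, support in `U'`, let `i' → ∞`: `∫_K (-ψ) maDensity (v i) ≤ (1+ε)² ∫ χ2 (-ψ) dν_{j'}`.
Finally let `B ≥ |ψ|` on `closure Om` (compact) and `γ > 0`; take a compact `K0 ⊆ Om` with `μ (Om \ K0) < γ` and a cutoff `χ0`, `1` on `K0`,
supported in `Om`. `∫ χ2 (-ψ) dν_{j'} ≤ ∫ χ0 (-ψ) dν_{j'} + B ∫ max(χ2 - χ0, 0) dν_{j'}` and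
`∫ max(χ2-χ0,0) dν_{j'} ≤ ∫ max(χ2,χ0) dν_{j'} - ∫ χ0 dν_{j'} ≤ μ(Om) - ∫ χ0 dν_{j'} → μ(Om) - ∫ χ0 dμ ≤ γ` by `mass_le` (`max(χ2, χ0)` is
continuous with values in `[0,1]` and compact support in `Om`). Let `j' → ∞`, then `γ → 0`:
`∫_K (-ψ) maDensity (v i) ≤ (1+ε)² (∫ χ0 (-ψ) dμ + Bγ) ≤ (1+ε)² (∫_Om (-ψ) dμ + Bγ)`. -/
def S_BI : Prop := ∀ (u : ℕ → Cn 2 → ℝ) (ν : ℕ → Measure (Cn 2)) (μ : Measure (Cn 2)), Setting u ν μ →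
  ∀ (j : ℕ) (K : Set (Cn 2)), IsCompact K → K ⊆ Om → ∀ ε : ℝ, 0 < ε →
  ∃ K' : Set (Cn 2), IsCompact K' ∧ K' ⊆ Om ∧ K ⊆ K' ∧
    ∀ (U : Set (Cn 2)) (v : ℕ → Cn 2 → ℝ), Appr (u j) (ν j) U v → K' ⊆ U →
      ∃ i0 : ℕ, ∀ i ≥ i0, ∀ ψ : Cn 2 → ℝ, ContDiff ℝ ∞ ψ → (∀ z ∈ Om, (hess ψ z).PosSemidef) →
        (∀ z ∈ Om, ψ z ≤ 0) →
        ∫ z in K, (-ψ z) * maDensity (v i) z ≤ (1 + ε) ^ 2 * ∫ z in Om, -ψ z ∂μ

/-- **S_L4** (lower bound for truncations).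
Model and tools as for `S_BI`. Proof. Fix `ψ`, `ε`; `|ψ| ≤ B` on `closure Om`.
1. There is a smooth cutoff `χ'`, `0 ≤ χ' ≤ 1`, compact support `S ⊆ Om`, with `∫ χ' (-ψ) dμ ≥ ∫_Om (-ψ) dμ - ε/4` (`μ(Om) < ∞`).
2. By `Setting.conv` there is `j0` with `∫ χ' (-ψ) dν_{j0} ≥ ∫ χ' (-ψ) dμ - ε/4`.
3. `α > 0` with `u j0 < -α` on `S` (see `mass_bound`), `-M1 ≤ u j0` on `Om`, `ε1 > 0` small (below), `0 < e ≤ 1/2` with
`e (3 + ε1) < ε1 α`, `R0 = M1 + 4`.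
4. Let `j ≥ j0`, `R ≥ R0`. `C0 = S ∪ Cj`, `Cj ⊆ Om` compact with `u j > -e/(4(1+ε1))` on `Om \ Cj` (`bdry_compact`). Let `v` be approximants of `u j` on
`U ⊇ C0`. Extract approximants `w` of `u j0` on `U0 ⊇ C0` and fix `m` with `w m < e/2` everywhere, `w m < -α` on `S`,
`∫ χ' (-ψ) maDensity (w m) ≥ ∫ χ' (-ψ) dν_{j0} - ε/4` (a limit). Put `a = w m - e`, `b = (1+ε1) trc R (v i)`. Both are psh on `C0`.
Off `C0`: `a ≤ -e/2`, and `b ≥ (1+ε1) v i ≥ -e/4` on `Om`, `b = 0` off `Om` (`trc_of_ge`), so `a ≤ b`.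
5. For `i ≥ i0`: `v i < w m + e` on `S` (`dini_lt`; `u j ≤ u j0 ≤ w m`). On `S`: `trc R (v i) ≤ max (v i) (-R+1)` (`chi_le_max`),
`(1+ε1)(w m + e) + e/8 < w m - e` as `w m < -α`, and `(1+ε1)(-R+1) + e/8 ≤ -R + 2 ≤ -M1 - 2 < w m - e`. So `b + e/8 < a` on `S`.
`compG` (`S`, `C = C0`, `η = e/8`, `h = ψ`): `∫_S (-ψ) dt (w m) ≤ (1+ε1)² ∫_{C0} (-ψ) dt (trc R (v i))`.
6. So `∫_Om (-ψ) dμ - 3ε/4 ≤ ∫ χ' (-ψ) maDensity (w m) ≤ ∫_S (-ψ) maDensity (w m) ≤ (1+ε1)² ∫_{C0} (-ψ) maDensity (trc R (v i))`, and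
with `ε1` chosen at the start such that `X - 3ε/4 ≤ (1+ε1)² Y` implies `X - ε ≤ Y` for `X = ∫_Om (-ψ) dμ ≥ 0`, `Y ≥ 0`, i.e.
`((1+ε1)² - 1) X ≤ ε/4`. Finally `∫_{C0} ≤ ∫_C` for compact `C0 ⊆ C ⊆ U` since the integrand is `≥ 0` on `U`. -/
def S_L4 : Prop := ∀ (u : ℕ → Cn 2 → ℝ) (ν : ℕ → Measure (Cn 2)) (μ : Measure (Cn 2)), Setting u ν μ →
  ∀ ψ : Cn 2 → ℝ, ContDiff ℝ ∞ ψ → (∀ z ∈ Om, (hess ψ z).PosSemidef) → (∀ z ∈ Om, ψ z ≤ 0) →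
  ∀ ε : ℝ, 0 < ε → ∃ (j0 : ℕ) (R0 : ℝ), ∀ j ≥ j0, ∀ R ≥ R0, ∃ C0 : Set (Cn 2), IsCompact C0 ∧ C0 ⊆ Om ∧
    ∀ (U : Set (Cn 2)) (v : ℕ → Cn 2 → ℝ), Appr (u j) (ν j) U v → C0 ⊆ U →
      ∃ i0 : ℕ, ∀ i ≥ i0, ∀ C : Set (Cn 2), IsCompact C → C0 ⊆ C → C ⊆ U →
        ∫ z in Om, -ψ z ∂μ - ε ≤ ∫ z in C, (-ψ z) * maDensity (trc R (v i)) z

/-- **S_J1** (Dirichlet energy in the `w` direction of `c = trc R v - v`).
Proof. `c` is smooth, `c ≥ 0` (`le_chi`), and `c = 0` off `C` (`trc_of_ge`), so it has compact support in `C`. The function `hh = |z|² - 1` is smooth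
with `hess hh = diag(1, 0)` (`hh` does not depend on `w`), so `trace (adjugate X * hess hh) = X 1 1` for a `2 × 2` matrix `X`
(`Matrix.adjugate_fin_two`). `path_formula` (library `Path.lean`) with `b = v`, `c`, `g = hh` gives
`∫ hh (dt (v + c) - dt v) = ∫₀¹ ∫ c Re(hess v z + τ hess c z)_{11} dz dτ = ∫ c Re((hess v)_{11} + ½ (hess c)_{11})`
`= ∫ c Re((hess (v+c))_{11} - ½ (hess c)_{11}) ≥ -½ ∫ c Re (hess c)_{11}` (`(hess (trc R v))_{11} ≥ 0` on `C`, `c = 0` off `C`). Integration by parts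
(`int_wd_zero`/`intS_Dh` of library `IBP.lean` for the function `c · wdb 1 c`, `(hess c)_{11} = wd 1 (wdb 1 c)`):
`-∫ c (hess c)_{11} = ∫ (wd 1 c)(wdb 1 c) = ∫ |wdb 1 c|²` as `wd 1 c = conj (wdb 1 c)` for real `c`. Finally `∫ hh (dt(trc R v) - dt v)` is the
integral over `C` since `trc R v = v` near every point off `C` (`C` closed), compare the proof of `compare_on` in library `Compare.lean`. -/
def S_J1 : Prop := ∀ v : Cn 2 → ℝ, ContDiff ℝ ∞ v → ∀ (R : ℝ) (C : Set (Cn 2)), IsCompact C →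
  (∀ z ∈ C, (hess v z).PosSemidef) → (∀ z, z ∉ C → -R + 1 ≤ v z) →
  ContDiff ℝ ∞ (fun z => trc R v z - v z) ∧ HasCompactSupport (fun z => trc R v z - v z) ∧
  tsupport (fun z => trc R v z - v z) ⊆ C ∧
  1 / 2 * ∫ z, ‖wdb 1 (fun y => ((trc R v y - v y : ℝ) : ℂ)) z‖ ^ 2 ≤
    (∫ z in C, (-hh z) * dt v z) - ∫ z in C, (-hh z) * dt (trc R v) z

/-- **S_ps1** (the function `ps s = (1/2s) log f`, `f = |w|² + E`, `E = e^{Q}`, `Q = 2s(|z|²-1)`).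
`f > 0` is smooth, so `ps s` is smooth. Hessian of `log f` (coordinates `0 = z`, `1 = w`; `Q_{zz̄} = 2s`, `Q_z = 2s z̄`, `E_z = Q_z E`,
`E_{zz̄} = (2s + |Q_z|²) E`): `(log f)_{zz̄} = (2s E f + |Q_z|² E |w|²)/f²`, `(log f)_{ww̄} = E/f²`,
`(log f)_{zw̄} = -E Q_z w/f²`, `(log f)_{wz̄} = conj`, hence `det = 2s E²/f³ > 0` and the hessian is psd; multiply by `1/(2s)`. -/
def S_ps1 : Prop := ∀ s : ℝ, 0 < s → ContDiff ℝ ∞ (ps s) ∧ (∀ z, (hess (ps s) z).PosSemidef) ∧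
  ∀ z, dt (ps s) z = 1 / (2 * s) * Real.exp (2 * s * (‖z 0‖ ^ 2 - 1)) ^ 2 /
    (‖z 1‖ ^ 2 + Real.exp (2 * s * (‖z 0‖ ^ 2 - 1))) ^ 3

/-- **S_ps2** (two integrals; uses the formula of `S_ps1`).
With `E`, `f` as in `S_ps1` and `x = |w|²`.
(1) `∫_{|w|<1} E²/(|w|²+E)³ dλ(w) ≤ π ∫_0^∞ E²/(x+E)³ dx = π/2`, so `∫_Om dt (ps s) ≤ (1/2s)(π/2)π ≤ 3/s`.
(2) `W = ½ w̄ (x + 2E)/(x+E)²` satisfies `∂W/∂w̄ = E²/(x+E)³` (as `W = w̄ φ(x)`, `∂W/∂w̄ = (xφ)'`, `xφ = ½(1 - E²/(x+E)²)`), it is smooth on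
`ℂ²`, and `|W| ≤ |w|/(x+E)`. Integration by parts (`int_wd_zero`-type lemmas of library `IBP.lean` for `c W`):
`∫ c dt(ps s) = (1/2s) ∫ c ∂_{w̄} W = -(1/2s) ∫ (wdb 1 c) W ≤ (1/2s) (∫|wdb 1 c|²)^{1/2} (∫_Om |W|²)^{1/2}`
(`c` is supported in `Om`; Cauchy-Schwarz), and `∫_{|w|<1} |W|² ≤ π ∫_0^1 x/(x+E)² dx ≤ π ∫_0^1 dx/(x+E) = π log((1+E)/E) ≤ π (1 + 2s)` since
`E ≤ 1` and `-log E = 2s(1-|z|²) ≤ 2s`. So `∫_Om |W|² ≤ π²(1+2s) ≤ 3π² s`, and `(1/2s) π √(3s) ≤ 3/√s`.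
(Integrals over `Cn 2`: use `EuclideanSpace.volume_preserving_symm_measurableEquiv_toLp` / `volume_preserving_finTwoArrow` and Fubini, and polar
coordinates in `w`; instead of exact values any bounds giving the stated inequalities will do.) -/
def S_ps2 : Prop := (∀ s : ℝ, 1 ≤ s → ∫ z in Om, dt (ps s) z ≤ 3 / s) ∧
  ∀ s : ℝ, 1 ≤ s → ∀ c : Cn 2 → ℝ, ContDiff ℝ ∞ c → HasCompactSupport c → tsupport c ⊆ Om →
    ∫ z, c z * dt (ps s) z ≤ 3 / Real.sqrt s * Real.sqrt (∫ z, ‖wdb 1 (fun y => ((c y : ℝ) : ℂ)) z‖ ^ 2)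

/-- **S_Bl** (an inequality of Blocki type). `bl y = ∫₀^y sm`, so `F(x) := bl(-x-θ)` is smooth, `F ≥ 0`, `F' = -sm(-x-θ) ≤ 0`,
`F'' = smoothTransition(-x-θ) ∈ [0,1]`, third derivative `≤ 0`, and `F = 0` for `x ≥ -θ`.
Proof. Write `⟨A,B⟩ = Re trace(adjugate A * B)`, symmetric for `2 × 2` matrices, `⟨A,A⟩ = 2 det A`, and `⟨A,B⟩ ≥ 0` for psd `A`, `B`
(`trace_adj_nonneg`). `F∘p` and `-F'∘p` are smooth and vanish off `C` (where `p ≥ -θ`), so they have compact support in `C`.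
`ibp` (library `IBP.lean`): `∫ g ⟨hess b, hess c⟩ = ∫ c ⟨hess b, hess g⟩` for smooth functions, `c` (or `g`) of compact support. Then
`2 ∫ F(p) dt φ = ∫ F(p) ⟨hess φ, hess φ⟩ = ∫ φ ⟨hess φ, hess (F∘p)⟩ ≤ ∫ φ F'(p) ⟨hess φ, hess p⟩` because `φ ≤ 0` on `C` and
`hess (F∘p) z - F'(p z) hess p z` is psd (its quadratic form is `F''(p)·(..)/4 ≥ 0` by `levi_comp`: it is the hessian at `z` of
`y ↦ F(p y) - F'(p z) p y`; use `psd_iff`, `levi_sub`, `levi_const_mul`, `levi_comp`). Next `φ F'(p) = (-φ)(-F'(p)) ≤ k (-F'(p))`, so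
`2 ∫ F(p) dt φ ≤ k ∫ (-F'(p)) ⟨hess p, hess φ⟩ = k ∫ φ ⟨hess p, hess(-F'∘p)⟩ ≤ k ∫ φ (-F''(p)) ⟨hess p, hess p⟩ =
2k ∫ (-φ) F''(p) dt p ≤ 2k ∫_C (-φ) dt p`, using that `hess(-F'∘p) + F''(p) hess p` is psd (minus the third derivative of `F` is `≥ 0`) and
`φ ≤ 0` on `C`. (`0 ≤ k` may be assumed since otherwise `C` is empty.) Note `bl(-p-θ) = 0` off `C`, so all integrals are over `C`. -/
def S_Bl : Prop := ∀ p φ : Cn 2 → ℝ, ContDiff ℝ ∞ p → ContDiff ℝ ∞ φ → ∀ (θ k : ℝ) (C : Set (Cn 2)), IsCompact C →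
  (∀ z, z ∉ C → -θ ≤ p z) → (∀ z ∈ C, (hess p z).PosSemidef) → (∀ z ∈ C, (hess φ z).PosSemidef) →
  (∀ z ∈ C, -k ≤ φ z) → (∀ z ∈ C, φ z ≤ 0) →
  ∫ z in C, bl (-p z - θ) * dt φ z ≤ k * ∫ z in C, (-φ z) * dt p z

/-- the measure `λ|_𝔻 ⊗ δ₀` on `ℂ²` -/
noncomputable def mu0 : Measure (Cn 2) := Measure.map (fun ζ : ℂ => vec ζ 0) (volume.restrict (ball (0 : ℂ) 1))

end Pool.Agent.H220.F4
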