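import Mathlib
import Pool.Agent.H220.F4.Stm

set_option autoImplicit false
set_option maxHeartbeats 1000000

open MeasureTheory Metric Set Filter Topology
open scoped ContDiff ComplexOrder

namespace Pool.Agent.H220.F4.PBI

open Pool.Agent.H805R2 Pool.Agent.H220.F4

/-- the function `|z_k|² - 1` -/
noncomputable def cq (k : Fin 2) (z : Cn 2) : ℝ := ‖z k‖ ^ 2 - 1

/-- coordinate as a real-linear map -/
noncomputable def prL (k : Fin 2) : Cn 2 →L[ℝ] ℂ := (EuclideanSpace.proj k : Cn 2 →L[ℂ] ℂ).restrictScalars ℝ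

lemma prL_apply (k : Fin 2) (z : Cn 2) : prL k z = z k := rfl

lemma cq_smooth (k : Fin 2) : ContDiff ℝ ∞ (cq k) := by
  have h : ContDiff ℝ ∞ fun z : Cn 2 => ‖prL k z‖ ^ 2 - 1 :=
    ((prL k).contDiff.norm_sq ℝ).sub contDiff_const
  exact h

lemma cq_D2 (k : Fin 2) (z ξ ζ : Cn 2) : D2 (cq k) z ξ ζ = 2 * inner ℝ (ξ k) (ζ k) := by
  set B : Cn 2 →L[ℝ] Cn 2 →L[ℝ] ℝ := (2 : ℝ) • ((innerSL ℝ).bilinearComp (prL k) (prL k)) with hB
  have h1 : fderiv ℝ (cq k) = fun y => B y := by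
    funext y
    have h2 : HasFDerivAt (fun z : Cn 2 => ‖prL k z‖ ^ 2)
        (2 • (innerSL ℝ (prL k y)).comp (prL k)) y := (prL k).hasFDerivAt.norm_sq
    have h3 : HasFDerivAt (cq k) (2 • (innerSL ℝ (prL k y)).comp (prL k)) y := h2.sub_const 1
    rw [h3.fderiv]
    ext w
    simp [hB, two_smul]
  unfold D2
  rw [h1]
  have h4 : fderiv ℝ (fun y => B y) z = B := B.fderiv
  rw [h4]
  simp [hB, prL_apply]

lemma cq_psd (k : Fin 2) (z : Cn 2) : (hess (cq k) z).PosSemidef := by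
  rw [psd_iff (cq_smooth k)]
  intro ζ
  unfold levi
  rw [cq_D2, cq_D2]
  have h1 : 0 ≤ inner ℝ (ζ k) (ζ k) := real_inner_self_nonneg
  have h2 : 0 ≤ inner ℝ ((Complex.I • ζ) k) ((Complex.I • ζ) k) := real_inner_self_nonneg
  positivity

/-- the negativity constant -/
lemma alpha {u : Cn 2 → ℝ} {ν : Measure (Cn 2)} (h : IsE0 Om u ν) (hneg : ∀ z ∈ Om, u z < 0)
    {K : Set (Cn 2)} (hK : IsCompact K) (hKO : K ⊆ Om) : ∃ α > 0, ∀ z ∈ K, u z < -α := by
  obtain ⟨U, v, hv, hKU⟩ := exists_appr h hK hKO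
  obtain ⟨k, hk⟩ := dini_lt v u (fun _ => 0) hK
    (fun k => (hv.smooth k).continuous.continuousOn) (fun z hz => hv.anti z (hKU hz))
    (fun z hz => hv.lim z (hKU hz)) continuousOn_const (fun z hz => hneg z (hKO hz))
  rcases K.eq_empty_or_nonempty with he | hne
  · exact ⟨1, one_pos, fun z hz => by rw [he] at hz; exact absurd hz (notMem_empty z)⟩
  · obtain ⟨x, hx, hmax⟩ := hK.exists_isMaxOn hne (hv.smooth k).continuous.continuousOn
    have hx0 := hk k le_rfl x hx
    refine ⟨-v k x / 2, by linarith, fun z hz => ?_⟩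
    have h1 : v k z ≤ v k x := hmax hz
    have h2 := hv.ge k z (hKO hz)
    linarith

lemma kappa {K : Set (Cn 2)} (hK : IsCompact K) (hKO : K ⊆ Om) (k : Fin 2) :
    ∃ κ > 0, ∀ z ∈ K, cq k z ≤ -κ := by
  rcases K.eq_empty_or_nonempty with he | hne
  · exact ⟨1, one_pos, fun z hz => by rw [he] at hz; exact absurd hz (notMem_empty z)⟩
  · obtain ⟨x, hx, hmax⟩ := hK.exists_isMaxOn hne (cq_smooth k).continuous.continuousOn
    refine ⟨-cq k x, ?_, fun z hz => ?_⟩
    · have h1 := hKO hx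
      have h2 : ‖x k‖ < 1 := by
        fin_cases k
        · exact h1.1
        · exact h1.2
      unfold cq
      nlinarith [norm_nonneg (x k)]
    · have h1 : cq k z ≤ cq k x := hmax hz
      linarith

lemma cq_neg (k : Fin 2) {z : Cn 2} (hz : z ∈ Om) : cq k z < 0 := by
  have h2 : ‖z k‖ < 1 := by
    fin_cases k
    · exact hz.1
    · exact hz.2
  unfold cq
  nlinarith [norm_nonneg (z k)]

/-- the barrier -/
noncomputable def bar (Λ η e : ℝ) (z : Cn 2) : ℝ := Λ * glue η (cq 0) (cq 1) z + (-(e / 4))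

lemma bar_smooth (Λ η e : ℝ) : ContDiff ℝ ∞ (bar Λ η e) :=
  (contDiff_const.mul (glue_smooth η (cq_smooth 0) (cq_smooth 1))).add contDiff_const

lemma bar_psd {Λ η : ℝ} (hΛ : 0 ≤ Λ) (hη : 0 < η) (e : ℝ) (z : Cn 2) : (hess (bar Λ η e) z).PosSemidef := by
  have hs := glue_smooth η (cq_smooth 0) (cq_smooth 1)
  have h1 : bar Λ η e = fun z => (fun y => Λ * glue η (cq 0) (cq 1) y) z + (-(e / 4)) := rfl
  rw [h1, hess_add_const _ (contDiff_const.mul hs), hess_const_mul _ hs]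
  exact (glue_psd hη (cq_smooth 0) (cq_smooth 1) z (cq_psd 0 z) (cq_psd 1 z)).smul (by exact_mod_cast hΛ)

lemma bar_le {Λ η : ℝ} (hΛ : 0 ≤ Λ) (hη : 0 < η) (e : ℝ) {z : Cn 2} {κ : ℝ} (h0 : cq 0 z ≤ -κ)
    (h1 : cq 1 z ≤ -κ) : bar Λ η e z ≤ -(Λ * κ) - e / 4 := by
  have h2 := glue_le hη (cq 0) (cq 1) z
  have h3 : glue η (cq 0) (cq 1) z ≤ -κ := h2.trans (max_le h0 h1)
  have h4 := mul_le_mul_of_nonneg_left h3 hΛ
  unfold bar
  linarith

lemma le_bar {Λ η : ℝ} (hΛ : 0 ≤ Λ) (hη : 0 < η) (e : ℝ) (hΛη : Λ * η ≤ e / 8) {z : Cn 2}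
    (h : ¬ (Λ * cq 0 z ≤ -(e / 4) ∧ Λ * cq 1 z ≤ -(e / 4))) : -(5 * e / 8) < bar Λ η e z := by
  have h0 := mul_le_mul_of_nonneg_left (le_glue_left hη (cq 0) (cq 1) z) hΛ
  have h1 := mul_le_mul_of_nonneg_left (le_glue_right hη (cq 0) (cq 1) z) hΛ
  have h2 : Λ * (c0 * η) ≤ e / 8 := by
    have : c0 * η ≤ 1 * η := mul_le_mul_of_nonneg_right c0_le_one hη.le
    rw [one_mul] at this
    exact (mul_le_mul_of_nonneg_left this hΛ).trans hΛη
  rw [mul_sub] at h1
  have h2' : 0 ≤ Λ * η := mul_nonneg hΛ hη.le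
  unfold bar
  by_contra hcon
  apply h
  constructor <;> linarith

/-- one step: comparison with approximants of a later function -/
lemma step {U K K' : Set (Cn 2)} (hK : IsCompact K) (hKK' : K ⊆ K') (hK'c : IsCompact K') (hK'O : K' ⊆ Om)
    (hK'U : K' ⊆ U) {e ε Λ κ Mj η0 α : ℝ} (he : 0 < e) (he1 : e ≤ 1) (hε : 0 < ε) (hα : e * (3 + ε) < ε * α)
    (hΛ : 0 ≤ Λ) (hΛκ : Λ * κ = Mj + 2) (hη0 : 0 < η0) (hΛη : Λ * η0 ≤ e / 8)
    (hκ : ∀ z ∈ K, cq 0 z ≤ -κ ∧ cq 1 z ≤ -κ)
    (hK' : ∀ z ∈ Om, (Λ * cq 0 z ≤ -(e / 4) ∧ Λ * cq 1 z ≤ -(e / 4)) → z ∈ K')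
    {V : Cn 2 → ℝ} (hVs : ContDiff ℝ ∞ V) (hVp : ∀ z ∈ U, (hess V z).PosSemidef)
    (hVe : ∀ z, V z < e / 8) (hVM : ∀ z ∈ K, -Mj ≤ V z) (hVα : ∀ z ∈ K, V z < -α)
    {Cw : Set (Cn 2)} (hCw : IsCompact Cw) (hCwO : Cw ⊆ Om) {W : Cn 2 → ℝ} (hWs : ContDiff ℝ ∞ W)
    (hWp : ∀ z ∈ Cw ∪ K', (hess W z).PosSemidef) (hW0 : ∀ z, z ∉ Om → W z = 0)
    (hWC : ∀ z ∈ Om, z ∉ Cw → -(e / (8 * (1 + ε))) ≤ W z) (hWV : ∀ z ∈ K, W z < V z + e)
    {ψ : Cn 2 → ℝ} (hψs : ContDiff ℝ ∞ ψ) (hψp : ∀ z ∈ Om, (hess ψ z).PosSemidef)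
    (hψ0 : ∀ z ∈ Om, ψ z ≤ 0) :
    ∫ z in K, (-ψ z) * maDensity V z ≤ (1 + ε) ^ 2 * ∫ z in Cw ∪ K', (-ψ z) * maDensity W z := by
  have hpi := Real.pi_pos
  have h1ε : 0 < 1 + ε := by linarith
  have he8 : 0 < e / 8 := by positivity
  set C2 : Set (Cn 2) := Cw ∪ K' with hC2d
  have hC2 : IsCompact C2 := hCw.union hK'c
  have hC2O : C2 ⊆ Om := union_subset hCwO hK'O
  have hKC2 : K ⊆ C2 := hKK'.trans subset_union_right
  set q : Cn 2 → ℝ := bar Λ η0 e with hq
  have hqs : ContDiff ℝ ∞ q := bar_smooth _ _ _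
  have hqp : ∀ z, (hess q z).PosSemidef := bar_psd hΛ hη0 e
  set V1 : Cn 2 → ℝ := fun z => V z + (-e) with hV1
  have hV1s : ContDiff ℝ ∞ V1 := hVs.add contDiff_const
  have hV1p : ∀ z ∈ U, (hess V1 z).PosSemidef := by
    intro z hz
    rw [hV1, hess_add_const _ hVs]
    exact hVp z hz
  set a : Cn 2 → ℝ := glue (e / 8) q V1 with ha
  have has : ContDiff ℝ ∞ a := glue_smooth _ hqs hV1s
  have hqO : ∀ z ∈ Om, q z ≤ -(e / 4) := by
    intro z hz
    have := bar_le hΛ hη0 e (κ := 0) (by rw [neg_zero]; exact (cq_neg 0 hz).le)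
      (by rw [neg_zero]; exact (cq_neg 1 hz).le)
    simp only [mul_zero, neg_zero, zero_sub] at this
    exact this
  have haO : ∀ z ∈ Om, a z ≤ -(e / 4) := by
    intro z hz
    refine (glue_le he8 q V1 z).trans (max_le (hqO z hz) ?_)
    simp only [hV1]
    linarith [hVe z]
  -- `a = q` off `K'`
  have haq : ∀ z ∈ Om, z ∉ K' → a z = q z := by
    intro z hz hzK
    apply glue_of_le he8
    have h1 := le_bar hΛ hη0 e hΛη (z := z) (fun h => hzK (hK' z hz h))
    simp only [hV1]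
    have h2 := hVe z
    have h3 : -(5 * e / 8) < q z := h1
    linarith
  have hap : ∀ z ∈ Om, (hess a z).PosSemidef := by
    intro z hz
    by_cases hzK : z ∈ K'
    · exact glue_psd he8 hqs hV1s z (hqp z) (hV1p z (hK'U hzK))
    · have h1 : a =ᶠ[𝓝 z] q := by
        filter_upwards [isOpen_Om.mem_nhds hz, hK'c.isClosed.isOpen_compl.mem_nhds hzK] with y hy hy2
        exact haq y hy hy2
      rw [hess_congr h1]
      exact hqp z
  -- `a = V - e - c0 e / 8` near `K`
  have hqV : ∀ z ∈ K, q z + e / 8 < V1 z := by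
    intro z hz
    have h1 := bar_le hΛ hη0 e (hκ z hz).1 (hκ z hz).2
    have h2 := hVM z hz
    have h3 : q z ≤ -(Λ * κ) - e / 4 := h1
    simp only [hV1]
    rw [hΛκ] at h3
    linarith
  have haK : ∀ z ∈ K, a z = V z + (-e) - c0 * (e / 8) := fun z hz => glue_of_ge he8 (hqV z hz).le
  have hdtK : ∀ z ∈ K, hess a z = hess V z := by
    intro z hz
    have h5 : a =ᶠ[𝓝 z] fun y => V y + (-e - c0 * (e / 8)) := by
      have h6 : ∀ᶠ y in 𝓝 z, q y + e / 8 < V1 y :=
        (hqs.continuous.add continuous_const).continuousAt.eventually_lt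
          hV1s.continuous.continuousAt (hqV z hz)
      filter_upwards [h6] with y hy
      rw [ha, glue_of_ge he8 hy.le]
      simp only [hV1]
      ring
    rw [hess_congr h5, hess_add_const _ hVs]
  -- cut off
  obtain ⟨C3, hC3, hC23, hC3O⟩ := exists_compact_between hC2 isOpen_Om hC2O
  obtain ⟨χ3, hχ3s, hχ3c, hχ3O, hχ31, hχ301⟩ := cutoff hC3 isOpen_Om hC3O
  set a' : Cn 2 → ℝ := fun z => χ3 z * (a z + e / 4) + (-(e / 4)) with ha'
  have ha's : ContDiff ℝ ∞ a' := (hχ3s.mul (has.add contDiff_const)).add contDiff_const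
  have ha'a : ∀ z ∈ C3, a' z = a z := by
    intro z hz
    simp only [ha']
    rw [hχ31 z hz]
    ring
  have ha'C2 : ∀ z ∈ C2, hess a' z = hess a z := by
    intro z hz
    apply hess_congr
    filter_upwards [isOpen_interior.mem_nhds (hC23 hz)] with y hy
    exact ha'a y (interior_subset hy)
  have ha'le : ∀ z, a' z ≤ -(e / 4) := by
    intro z
    simp only [ha']
    by_cases hz : z ∈ Om
    · have h1 := haO z hz
      have h2 : χ3 z * (a z + e / 4) ≤ 0 := mul_nonpos_of_nonneg_of_nonpos (hχ301 z).1 (by linarith)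
      linarith
    · have h1 : χ3 z = 0 := image_eq_zero_of_notMem_tsupport fun h => hz (hχ3O h)
      rw [h1]
      linarith
  -- the second function
  set b : Cn 2 → ℝ := fun z => (1 + ε) * W z with hb
  have hbs : ContDiff ℝ ∞ b := contDiff_const.mul hWs
  have hbp : ∀ z ∈ C2, (hess b z).PosSemidef := by
    intro z hz
    rw [hb, hess_const_mul _ hWs]
    exact (hWp z hz).smul (by exact_mod_cast h1ε.le)
  have hout : ∀ z, z ∉ C2 → a' z ≤ b z := by
    intro z hz
    refine (ha'le z).trans ?_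
    simp only [hb]
    by_cases hzO : z ∈ Om
    · have h5 := hWC z hzO fun h => hz (Or.inl h)
      have h6 := mul_le_mul_of_nonneg_left h5 h1ε.le
      have h7 : (1 + ε) * -(e / (8 * (1 + ε))) = -(e / 8) := by field_simp
      linarith
    · rw [hW0 z hzO]
      linarith
  have hSab : ∀ z ∈ K, b z + e / 8 < a' z := by
    intro z hz
    rw [ha'a z (interior_subset (hC23 (hKC2 hz))), haK z hz]
    simp only [hb]
    have h1 := mul_lt_mul_of_pos_left (hWV z hz) h1ε
    have h2 := mul_lt_mul_of_pos_left (hVα z hz) hε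
    have h3 : c0 * (e / 8) ≤ e / 8 := by nlinarith [c0_le_one]
    nlinarith
  have hcomp := compG a' b ψ ha's hbs hψs C2 hC2 (fun z hz => by rw [ha'C2 z hz]; exact hap z (hC2O hz)) hbp
    (fun z hz => hψp z (hC2O hz)) (fun z hz => hψ0 z (hC2O hz)) hout (e / 8) he8 K hK.measurableSet hKC2 hSab
  have e1 : ∫ z in K, (-ψ z) * maDensity V z = 8 / Real.pi ^ 2 * ∫ z in K, (-ψ z) * dt a' z := by
    rw [← integral_const_mul]
    apply setIntegral_congr_fun hK.measurableSet
    intro z hz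
    simp only
    rw [maDensity_eq]
    have : dt a' z = dt V z := by
      unfold dt
      rw [ha'C2 z (hKC2 hz), hdtK z hz]
    rw [this]
    ring
  have e2 : (1 + ε) ^ 2 * ∫ z in C2, (-ψ z) * maDensity W z = 8 / Real.pi ^ 2 * ∫ z in C2, (-ψ z) * dt b z := by
    rw [← integral_const_mul, ← integral_const_mul]
    congr 1
    funext z
    rw [maDensity_eq, hb, dt_smul _ hWs]
    ring
  rw [e1, e2]
  exact mul_le_mul_of_nonneg_left hcomp (by positivity)

lemma integrable_nu {ν : Measure (Cn 2)} (hν : ν Om < ⊤) {f : Cn 2 → ℝ} (hf : Continuous f)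
    (hc : HasCompactSupport f) (hO : tsupport f ⊆ Om) : Integrable f ν := by
  have : IsFiniteMeasure (ν.restrict Om) := ⟨by rw [Measure.restrict_apply_univ]; exact hν⟩
  have h1 : Integrable f (ν.restrict Om) := by
    obtain ⟨C, hC⟩ := hc.exists_bound_of_continuous hf
    exact Integrable.mono' (integrable_const C) hf.aestronglyMeasurable (Eventually.of_forall hC)
  have h2 : IntegrableOn f Om ν := h1
  rwa [integrableOn_iff_integrable_of_support_subset ((subset_tsupport f).trans hO)] at h2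

/-- **S_BI** -/
theorem s_BI : S_BI := by
  intro u ν μ H j K hK hKO ε hε
  have h1ε : 0 < 1 + ε := by linarith
  obtain ⟨α, hα, huα⟩ := alpha (H.e0 j) (H.neg j) hK hKO
  obtain ⟨κ0, hκ0, hK0⟩ := kappa hK hKO 0
  obtain ⟨κ1, hκ1, hK1⟩ := kappa hK hKO 1
  obtain ⟨M0, hM0⟩ := (H.e0 j).2.1
  set κ := min κ0 κ1 with hκd
  have hκ : 0 < κ := lt_min hκ0 hκ1
  have hκK : ∀ z ∈ K, cq 0 z ≤ -κ ∧ cq 1 z ≤ -κ := fun z hz =>
    ⟨(hK0 z hz).trans (neg_le_neg (min_le_left _ _)), (hK1 z hz).trans (neg_le_neg (min_le_right _ _))⟩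
  set Mj := max M0 0 with hMjd
  have hMj0 : 0 ≤ Mj := le_max_right _ _
  have hMj : ∀ z ∈ Om, -Mj ≤ u j z := fun z hz => (neg_le_neg (le_max_left _ _)).trans (hM0 z hz)
  -- the number `e`
  set e : ℝ := min 1 (ε * α / (2 * (3 + ε))) with hed
  have he : 0 < e := lt_min one_pos (by positivity)
  have he1 : e ≤ 1 := min_le_left _ _
  have heα : e * (3 + ε) < ε * α := by
    have h1 : e ≤ ε * α / (2 * (3 + ε)) := min_le_right _ _
    have h2 : e * (3 + ε) ≤ ε * α / (2 * (3 + ε)) * (3 + ε) :=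
      mul_le_mul_of_nonneg_right h1 (by positivity)
    have h3 : ε * α / (2 * (3 + ε)) * (3 + ε) = ε * α / 2 := by field_simp
    have h4 : 0 < ε * α := by positivity
    linarith
  set Λ : ℝ := (Mj + 2) / κ with hΛd
  have hΛ : 0 < Λ := by positivity
  have hΛκ : Λ * κ = Mj + 2 := by rw [hΛd]; field_simp
  set η0 : ℝ := e / (8 * Λ) with hη0d
  have hη0 : 0 < η0 := by positivity
  have hΛη : Λ * η0 ≤ e / 8 := by
    rw [hη0d]
    apply le_of_eq
    field_simp
  set K' : Set (Cn 2) := K ∪ {z | Λ * cq 0 z ≤ -(e / 4) ∧ Λ * cq 1 z ≤ -(e / 4)} with hK'd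
  have hcl : IsClosed {z : Cn 2 | Λ * cq 0 z ≤ -(e / 4) ∧ Λ * cq 1 z ≤ -(e / 4)} :=
    (isClosed_le (continuous_const.mul (cq_smooth 0).continuous) continuous_const).inter
      (isClosed_le (continuous_const.mul (cq_smooth 1).continuous) continuous_const)
  have hsub : {z : Cn 2 | Λ * cq 0 z ≤ -(e / 4) ∧ Λ * cq 1 z ≤ -(e / 4)} ⊆ Om := by
    intro z hz
    have key : ∀ k : Fin 2, Λ * cq k z ≤ -(e / 4) → ‖z k‖ < 1 := by
      intro k hk
      have h1 : cq k z < 0 := by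
        by_contra hcon
        have := mul_nonneg hΛ.le (not_lt.1 hcon)
        linarith
      unfold cq at h1
      nlinarith [norm_nonneg (z k)]
    exact ⟨key 0 hz.1, key 1 hz.2⟩
  have hK'c : IsCompact K' :=
    hK.union (Metric.isCompact_of_isClosed_isBounded hcl (Om_bounded.subset hsub))
  have hK'O : K' ⊆ Om := union_subset hKO hsub
  refine ⟨K', hK'c, hK'O, subset_union_left, ?_⟩
  intro U v hv hK'U
  obtain ⟨i1, hi1⟩ := hv.lt (e / 8) (by positivity)
  obtain ⟨i2, hi2⟩ := dini_lt v (u j) (fun _ => -α) hK (fun k => (hv.smooth k).continuous.continuousOn)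
    (fun z hz => hv.anti z (hK'U (Or.inl hz))) (fun z hz => hv.lim z (hK'U (Or.inl hz)))
    continuousOn_const huα
  refine ⟨max i1 i2, ?_⟩
  intro i hi ψ hψs hψp hψ0
  have hVe := hi1 i ((le_max_left _ _).trans hi)
  have hVα := hi2 i ((le_max_right _ _).trans hi)
  have hVM : ∀ z ∈ K, -Mj ≤ v i z := fun z hz => (hMj z (hKO hz)).trans (hv.ge i z (hKO hz))
  set I : ℝ := ∫ z in K, (-ψ z) * maDensity (v i) z with hI
  -- comparison with `ν j'`
  have hj' : ∀ j' ≥ j, ∃ χ2 : Cn 2 → ℝ, Continuous χ2 ∧ HasCompactSupport χ2 ∧ tsupport χ2 ⊆ Om ∧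
      (∀ z, χ2 z ∈ Icc (0 : ℝ) 1) ∧ I ≤ (1 + ε) ^ 2 * ∫ z, χ2 z * (-ψ z) ∂(ν j') := by
    intro j' hjj'
    obtain ⟨Cw, hCw, hCwO, hCwθ⟩ := bdry_compact isOpen_Om Om_bounded (H.e0 j').2.2.2.1
      (e / (8 * (1 + ε))) (by positivity)
    have hC2 : IsCompact (Cw ∪ K') := hCw.union hK'c
    have hC2O : Cw ∪ K' ⊆ Om := union_subset hCwO hK'O
    obtain ⟨U', v', hv', hC2U'⟩ := exists_appr (H.e0 j') hC2 hC2O
    obtain ⟨χ2, hχ2s, hχ2c, hχ2U, hχ21, hχ201⟩ := cutoff hC2 hv'.isOpen hC2U'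
    have hχ2O : tsupport χ2 ⊆ Om := hχ2U.trans hv'.sub
    refine ⟨χ2, hχ2s.continuous, hχ2c, hχ2O, hχ201, ?_⟩
    obtain ⟨l0, hl0⟩ := dini_lt v' (u j') (fun z => v i z + e) hK
      (fun l => (hv'.smooth l).continuous.continuousOn)
      (fun z hz => hv'.anti z (hC2U' (Or.inr (Or.inl hz)))) (fun z hz => hv'.lim z (hC2U' (Or.inr (Or.inl hz))))
      ((hv.smooth i).continuous.add continuous_const).continuousOn
      (fun z hz => by
        have h1 : u j' z ≤ u j z := H.anti z (hKO hz) hjj'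
        have h2 := hv.ge i z (hKO hz)
        linarith)
    have hfc : Continuous (fun z => χ2 z * (-ψ z)) := hχ2s.continuous.mul hψs.continuous.neg
    have hfcs : HasCompactSupport (fun z => χ2 z * (-ψ z)) := hχ2c.mul_right
    have hfU : tsupport (fun z => χ2 z * (-ψ z)) ⊆ U' := (tsupport_mul_subset_left).trans hχ2U
    have hf0 : ∀ z, 0 ≤ (fun z => χ2 z * (-ψ z)) z := by
      intro z
      simp only
      by_cases hz : z ∈ Om
      · exact mul_nonneg (hχ201 z).1 (by linarith [hψ0 z hz])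
      · rw [image_eq_zero_of_notMem_tsupport fun h => hz (hχ2O h), zero_mul]
    have hlim := (hv'.conv (fun z => χ2 z * (-ψ z)) hfc hfcs hfU).const_mul ((1 + ε) ^ 2)
    refine ge_of_tendsto hlim ?_
    filter_upwards [eventually_ge_atTop l0] with l hl
    have h1 := step hK (subset_union_left : K ⊆ K') hK'c hK'O hK'U he he1 hε heα hΛ.le hΛκ hη0 hΛη hκK
      (fun z _ h => Or.inr h) (hv.smooth i) (hv.psd i) hVe hVM hVα hCw hCwO (hv'.smooth l)
      (fun z hz => hv'.psd l z (hC2U' hz)) (hv'.out l)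
      (fun z hz hzC => (hCwθ z hz hzC).le.trans (hv'.ge l z hz)) (hl0 l hl) hψs hψp hψ0
    refine h1.trans (mul_le_mul_of_nonneg_left ?_ (by positivity))
    refine setInt_le_cut (hv'.smooth l) hfc hfcs hC2 hfU (hv'.psd l) hf0 (fun z => -ψ z) ?_
      hψs.continuous.neg hC2U'
    intro z hz
    rw [hχ21 z hz, one_mul]
  -- a bound for `ψ`
  have hcOm : IsCompact (closure Om) :=
    Metric.isCompact_of_isClosed_isBounded isClosed_closure Om_bounded.closure
  obtain ⟨B, hB⟩ := hcOm.exists_bound_of_continuousOn hψs.continuous.continuousOn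
  set B' := max B 0 with hB'd
  have hB'0 : 0 ≤ B' := le_max_right _ _
  have hB' : ∀ z ∈ Om, -ψ z ≤ B' := by
    intro z hz
    have h1 := hB z (subset_closure hz)
    rw [Real.norm_eq_abs] at h1
    exact (neg_le_abs _).trans (h1.trans (le_max_left _ _))
  have hfin : IsFiniteMeasure (μ.restrict Om) := ⟨by rw [Measure.restrict_apply_univ]; exact H.fin⟩
  have hψi : Integrable (fun z => -ψ z) (μ.restrict Om) := by
    refine Integrable.mono' (integrable_const B') hψs.continuous.neg.aestronglyMeasurable ?_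
    refine (ae_restrict_iff' isOpen_Om.measurableSet).2 (Eventually.of_forall fun z hz => ?_)
    rw [Real.norm_eq_abs, abs_of_nonneg (by linarith [hψ0 z hz])]
    exact hB' z hz
  -- estimate with `γ`
  have key : ∀ γ > 0, I ≤ (1 + ε) ^ 2 * (∫ z in Om, -ψ z ∂μ + B' * γ) := by
    intro γ hγ
    obtain ⟨K0, hK0O, hK0c, hK0m⟩ := isOpen_Om.measurableSet.exists_isCompact_sdiff_lt
      (μ := μ.restrict Om) (measure_ne_top _ _) (ε := ENNReal.ofReal γ) (by simpa using hγ)
    obtain ⟨χ0, hχ0s, hχ0c, hχ0O, hχ01, hχ001⟩ := cutoff hK0c isOpen_Om hK0O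
    have hχ0ψc : Continuous fun z => χ0 z * (-ψ z) := hχ0s.continuous.mul hψs.continuous.neg
    have hχ0ψs : HasCompactSupport fun z => χ0 z * (-ψ z) := hχ0c.mul_right
    have hχ0ψO : tsupport (fun z => χ0 z * (-ψ z)) ⊆ Om := (tsupport_mul_subset_left).trans hχ0O
    have hstep : ∀ j' ≥ j, I ≤ (1 + ε) ^ 2 * (∫ z, χ0 z * (-ψ z) ∂(ν j') +
        B' * ((μ Om).toReal - ∫ z, χ0 z ∂(ν j'))) := by
      intro j' hjj'
      obtain ⟨χ2, hχ2c', hχ2c, hχ2O, hχ201, hI2⟩ := hj' j' hjj'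
      refine hI2.trans (mul_le_mul_of_nonneg_left ?_ (by positivity))
      have hνfin := (H.e0 j').2.2.2.2.2
      have hmc : Continuous fun z => max (χ2 z) (χ0 z) := hχ2c'.max hχ0s.continuous
      have hmts : tsupport (fun z => max (χ2 z) (χ0 z)) ⊆ tsupport χ2 ∪ tsupport χ0 := by
        apply closure_minimal _ ((isClosed_tsupport _).union (isClosed_tsupport _))
        intro z hz
        by_contra hcon
        rw [mem_union, not_or] at hcon
        apply hz
        simp only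
        rw [image_eq_zero_of_notMem_tsupport hcon.1, image_eq_zero_of_notMem_tsupport hcon.2, max_self]
      have hmcs : HasCompactSupport fun z => max (χ2 z) (χ0 z) :=
        (hχ2c.isCompact.union hχ0c.isCompact).of_isClosed_subset (isClosed_tsupport _) hmts
      have hmO : tsupport (fun z => max (χ2 z) (χ0 z)) ⊆ Om := hmts.trans (union_subset hχ2O hχ0O)
      have hm01 : ∀ z, max (χ2 z) (χ0 z) ∈ Icc (0 : ℝ) 1 := fun z =>
        ⟨(hχ201 z).1.trans (le_max_left _ _), max_le (hχ201 z).2 (hχ001 z).2⟩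
      have hmass := mass_le H j' _ hmc hmcs hmO hm01
      have hi1 : Integrable (fun z => χ2 z * (-ψ z)) (ν j') := integrable_nu hνfin
        (hχ2c'.mul hψs.continuous.neg) hχ2c.mul_right ((tsupport_mul_subset_left).trans hχ2O)
      have hi2 : Integrable (fun z => χ0 z * (-ψ z)) (ν j') := integrable_nu hνfin hχ0ψc hχ0ψs hχ0ψO
      have hi3 : Integrable (fun z => max (χ2 z) (χ0 z)) (ν j') := integrable_nu hνfin hmc hmcs hmO
      have hi4 : Integrable χ0 (ν j') := integrable_nu hνfin hχ0s.continuous hχ0c hχ0O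
      have hi5 : Integrable (fun z => B' * (max (χ2 z) (χ0 z) - χ0 z)) (ν j') :=
        (hi3.sub hi4).const_mul B'
      have hi6 : Integrable (fun z => χ0 z * (-ψ z) + B' * (max (χ2 z) (χ0 z) - χ0 z)) (ν j') :=
        hi2.add hi5
      have h1 : ∫ z, χ2 z * (-ψ z) ∂(ν j') ≤
          ∫ z, (χ0 z * (-ψ z) + B' * (max (χ2 z) (χ0 z) - χ0 z)) ∂(ν j') := by
        apply integral_mono hi1 hi6
        intro z
        simp only
        by_cases hz : z ∈ Om
        · have h2 := hψ0 z hz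
          have h3 := hB' z hz
          have h4 : 0 ≤ max (χ2 z) (χ0 z) - χ0 z := by linarith [le_max_right (χ2 z) (χ0 z)]
          have h5 : χ2 z - χ0 z ≤ max (χ2 z) (χ0 z) - χ0 z := by linarith [le_max_left (χ2 z) (χ0 z)]
          have h6 : (χ2 z - χ0 z) * (-ψ z) ≤ (max (χ2 z) (χ0 z) - χ0 z) * (-ψ z) :=
            mul_le_mul_of_nonneg_right h5 (by linarith)
          have h7 : (max (χ2 z) (χ0 z) - χ0 z) * (-ψ z) ≤ (max (χ2 z) (χ0 z) - χ0 z) * B' :=
            mul_le_mul_of_nonneg_left h3 h4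
          linarith
        · rw [image_eq_zero_of_notMem_tsupport fun h => hz (hχ2O h),
            image_eq_zero_of_notMem_tsupport fun h => hz (hχ0O h)]
          simp
      rw [integral_add hi2 hi5, integral_const_mul, integral_sub hi3 hi4] at h1
      have h2 := mul_le_mul_of_nonneg_left hmass hB'0
      linarith
    have hlim := ((H.conv _ hχ0ψc hχ0ψs hχ0ψO).add
      (((H.conv χ0 hχ0s.continuous hχ0c hχ0O).const_sub (μ Om).toReal).const_mul B')).const_mul ((1 + ε) ^ 2)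
    have h1 := ge_of_tendsto hlim (by filter_upwards [eventually_ge_atTop j] with j' h using hstep j' h)
    refine h1.trans (mul_le_mul_of_nonneg_left (add_le_add ?_ (mul_le_mul_of_nonneg_left ?_ hB'0))
      (by positivity))
    · rw [int_supp (Ω := Om) (f := fun z => χ0 z * (-ψ z)) fun z hz => by
        rw [image_eq_zero_of_notMem_tsupport fun h => hz (hχ0O h), zero_mul]]
      refine setIntegral_mono_on ?_ hψi isOpen_Om.measurableSet ?_
      · exact (integrable_nu H.fin hχ0ψc hχ0ψs hχ0ψO).integrableOn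
      · intro z hz
        exact mul_le_of_le_one_left (by linarith [hψ0 z hz]) (hχ001 z).2
    · have h2 : (μ.restrict Om).real Om = (μ Om).toReal := by
        rw [measureReal_def, Measure.restrict_apply_self]
      have h3 : (μ.restrict Om).real K0 ≤ ∫ z, χ0 z ∂μ := by
        rw [int_supp (Ω := Om) (f := χ0) fun z hz => image_eq_zero_of_notMem_tsupport fun h => hz (hχ0O h)]
        have h4 : (μ.restrict Om).real K0 = ∫ z, K0.indicator (fun _ => (1 : ℝ)) z ∂(μ.restrict Om) := by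
          rw [integral_indicator hK0c.measurableSet, setIntegral_const, smul_eq_mul, mul_one]
        rw [h4]
        apply integral_mono
        · exact (integrable_const (1 : ℝ)).indicator hK0c.measurableSet
        · exact (integrable_nu H.fin hχ0s.continuous hχ0c hχ0O).integrableOn
        · intro z
          simp only
          by_cases hz : z ∈ K0
          · rw [indicator_of_mem hz, hχ01 z hz]
          · rw [indicator_of_notMem hz]
            exact (hχ001 z).1
      have h5 : (μ.restrict Om).real (Om \ K0) ≤ γ := by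
        rw [measureReal_def]
        exact ENNReal.toReal_le_of_le_ofReal hγ.le hK0m.le
      have h6 : (μ.restrict Om).real (Om \ K0) = (μ.restrict Om).real Om - (μ.restrict Om).real K0 :=
        measureReal_sdiff hK0O hK0c.measurableSet
      linarith
  -- `γ → 0`
  have hlim : Tendsto (fun γ : ℝ => (1 + ε) ^ 2 * (∫ z in Om, -ψ z ∂μ + B' * γ)) (𝓝[>] 0)
      (𝓝 ((1 + ε) ^ 2 * (∫ z in Om, -ψ z ∂μ + B' * 0))) := by
    apply Tendsto.mono_left _ nhdsWithin_le_nhds
    apply Continuous.tendsto (by fun_prop)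
  have h1 := ge_of_tendsto hlim (by
    filter_upwards [self_mem_nhdsWithin] with γ hγ using key γ hγ)
  rwa [mul_zero, add_zero] at h1

end Pool.Agent.H220.F4.PBI
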