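import Mathlib
import Pool.Agent.H220.F4.Stm

/-!
An inequality of Blocki type (MP_4eb3f9, lemma `S_Bl` of helper220).
-/

set_option autoImplicit false

open MeasureTheory Metric Set Filter Topology Matrix
open scoped ContDiff ComplexOrder

namespace Pool.Agent.H220.F4.PBl

open Pool.Agent.H805R2 Pool.Agent.H805R2.Gram Pool.Agent.H220.F4

/-- the mixed determinant -/
noncomputable def tA (X Y : Matrix (Fin 2) (Fin 2) ℂ) : ℝ := ((X.adjugate * Y).trace).re

lemma tA_comm (X Y : Matrix (Fin 2) (Fin 2) ℂ) : tA X Y = tA Y X := by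
  unfold tA
  congr 1
  rw [Matrix.adjugate_fin_two, Matrix.adjugate_fin_two, Matrix.trace_fin_two, Matrix.trace_fin_two]
  simp only [Matrix.mul_apply, Fin.sum_univ_two, Matrix.of_apply, Matrix.cons_val', Matrix.cons_val_zero,
    Matrix.cons_val_one, Matrix.cons_val_fin_one]
  ring

lemma tA_self (X : Matrix (Fin 2) (Fin 2) ℂ) : tA X X = 2 * X.det.re := by
  unfold tA
  rw [Matrix.adjugate_mul, Matrix.trace_smul, Matrix.trace_one, Fintype.card_fin, smul_eq_mul]
  simp
  ring

lemma tA_add (X Y Z : Matrix (Fin 2) (Fin 2) ℂ) : tA X (Y + Z) = tA X Y + tA X Z := by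
  unfold tA
  rw [Matrix.mul_add, Matrix.trace_add, Complex.add_re]

lemma tA_smul (c : ℝ) (X Y : Matrix (Fin 2) (Fin 2) ℂ) : tA X ((c : ℂ) • Y) = c * tA X Y := by
  unfold tA
  rw [Matrix.mul_smul, Matrix.trace_smul, smul_eq_mul, Complex.re_ofReal_mul]

lemma tA_cont {f g : Cn 2 → ℝ} (hf : ContDiff ℝ ∞ f) (hg : ContDiff ℝ ∞ g) :
    Continuous fun z => tA (hess f z) (hess g z) := by
  unfold tA
  exact Complex.continuous_re.comp (((hess_continuous (hf.of_le ss_le)).matrix_adjugate.matrix_mul
    (hess_continuous (hg.of_le ss_le))).matrix_trace)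

lemma hess_zero_off {f : Cn 2 → ℝ} {C : Set (Cn 2)} (hC : IsClosed C) (h : ∀ z, z ∉ C → f z = 0)
    {z : Cn 2} (hz : z ∉ C) : hess f z = 0 := by
  rw [← hess_const_zero 0 z]
  apply hess_congr
  filter_upwards [hC.isOpen_compl.mem_nhds hz] with y hy
  exact h y hy

/-- real form of the integration by parts -/
lemma ibp_re (b c g : Cn 2 → ℝ) (hb : ContDiff ℝ ∞ b) (hc : ContDiff ℝ ∞ c) (hg : ContDiff ℝ ∞ g)
    (hcs : HasCompactSupport c) :
    ∫ z, g z * tA (hess b z) (hess c z) = ∫ z, c z * tA (hess b z) (hess g z) := by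
  have h := ibp b c g hb hc hg hcs
  have hbc := hess_continuous (hb.of_le ss_le)
  have hcc := hess_continuous (hc.of_le ss_le)
  have hgc := hess_continuous (hg.of_le ss_le)
  have hh : ∀ z, z ∉ tsupport c → hess c z = 0 := fun z hz =>
    hess_zero_off (isClosed_tsupport c) (fun y hy => image_eq_zero_of_notMem_tsupport hy) hz
  have i1 : Integrable fun z => (g z : ℂ) * ((hess b z).adjugate * hess c z).trace := by
    apply Continuous.integrable_of_hasCompactSupport
    · exact (Complex.continuous_ofReal.comp hg.continuous).mul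
        ((hbc.matrix_adjugate.matrix_mul hcc).matrix_trace)
    · apply HasCompactSupport.intro hcs
      intro z hz
      rw [hh z hz, Matrix.mul_zero, Matrix.trace_zero, mul_zero]
  have i2 : Integrable fun z => (c z : ℂ) * ((hess b z).adjugate * hess g z).trace := by
    apply Continuous.integrable_of_hasCompactSupport
    · exact (Complex.continuous_ofReal.comp hc.continuous).mul
        ((hbc.matrix_adjugate.matrix_mul hgc).matrix_trace)
    · apply HasCompactSupport.intro hcs
      intro z hz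
      rw [image_eq_zero_of_notMem_tsupport hz, Complex.ofReal_zero, zero_mul]
  have e1 := integral_re i1
  have e2 := integral_re i2
  simp only [RCLike.re_eq_complex_re, Complex.re_ofReal_mul] at e1 e2
  unfold tA
  rw [e1, e2, h]

/-! ### the one variable functions -/

lemma bl_hasDeriv (x : ℝ) : HasDerivAt bl (sm x) x :=
  (sm_smooth.continuous).integral_hasStrictDerivAt 0 x |>.hasDerivAt

lemma bl_deriv : deriv bl = sm := funext fun x => (bl_hasDeriv x).deriv

lemma bl_smooth : ContDiff ℝ ∞ bl := by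
  rw [contDiff_infty_iff_deriv]
  refine ⟨fun x => (bl_hasDeriv x).differentiableAt, ?_⟩
  rw [bl_deriv]
  exact sm_smooth

lemma bl_of_nonpos {x : ℝ} (hx : x ≤ 0) : bl x = 0 := by
  unfold bl
  rw [intervalIntegral.integral_congr (g := fun _ => (0:ℝ))]
  · simp
  · intro t ht
    rw [uIcc_of_ge hx] at ht
    exact sm_of_nonpos ht.2

lemma bl_nonneg (x : ℝ) : 0 ≤ bl x := by
  rcases le_total 0 x with h | h
  · unfold bl
    exact intervalIntegral.integral_nonneg h fun t _ => sm_nonneg t
  · rw [bl_of_nonpos h]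

lemma st_smooth : ContDiff ℝ ∞ Real.smoothTransition := Real.smoothTransition.contDiff

/-- composition with a reflected function -/
lemma comp_hasDeriv {f f' : ℝ → ℝ} (hf : ∀ x, HasDerivAt f (f' x) x) (θ x : ℝ) :
    HasDerivAt (fun x => f (-x - θ)) (-f' (-x - θ)) x := by
  have h1 : HasDerivAt (fun x : ℝ => -x - θ) (-1) x := by
    simpa using (hasDerivAt_id x).neg.sub_const θ
  exact ((hf (-x - θ)).comp x h1).congr_deriv (by ring)

/-- `hess (bl (-p-θ)) + sm (-p-θ) hess p` is positive semidefinite -/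
lemma psd_A {p : Cn 2 → ℝ} (hp : ContDiff ℝ ∞ p) (θ : ℝ) (z : Cn 2) :
    (hess (fun y => bl (-p y - θ)) z + ((sm (-p z - θ) : ℝ) : ℂ) • hess p z).PosSemidef := by
  have hp2 := hp.of_le ss_le
  have hbs : ContDiff ℝ ∞ (fun x : ℝ => bl (-x - θ)) :=
    bl_smooth.comp (by fun_prop : ContDiff ℝ ∞ fun x : ℝ => -x - θ)
  have hcs : ContDiff ℝ ∞ (fun y => bl (-p y - θ)) := hbs.comp hp
  rw [← hess_add_smul _ _ hcs hp, psd_iff (hcs.add (contDiff_const.mul hp))]
  intro ζ
  have hd1 : deriv (fun x : ℝ => bl (-x - θ)) = fun x => -sm (-x - θ) :=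
    funext fun x => (comp_hasDeriv bl_hasDeriv θ x).deriv
  have hd2 : deriv (fun x : ℝ => -sm (-x - θ)) = fun x => Real.smoothTransition (-x - θ) := by
    funext x
    rw [(comp_hasDeriv sm_hasDeriv θ x).fun_neg.deriv, neg_neg]
  rw [levi_add (hcs.of_le ss_le) ((contDiff_const.mul hp).of_le ss_le), levi_const_mul _ hp2,
    levi_comp (Φ := fun x : ℝ => bl (-x - θ)) (hbs.of_le ss_le) hp2, hd1, hd2]
  simp only
  have h5 := Real.smoothTransition.nonneg (-p z - θ)
  have : 0 ≤ Real.smoothTransition (-p z - θ) *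
      ((fderiv ℝ p z ζ) ^ 2 + (fderiv ℝ p z (Complex.I • ζ)) ^ 2) / 4 := by positivity
  linarith

/-- `hess (sm (-p-θ)) + smoothTransition (-p-θ) hess p` is positive semidefinite -/
lemma psd_B {p : Cn 2 → ℝ} (hp : ContDiff ℝ ∞ p) (θ : ℝ) (z : Cn 2) :
    (hess (fun y => sm (-p y - θ)) z +
      ((Real.smoothTransition (-p z - θ) : ℝ) : ℂ) • hess p z).PosSemidef := by
  have hp2 := hp.of_le ss_le
  have hbs : ContDiff ℝ ∞ (fun x : ℝ => sm (-x - θ)) :=
    sm_smooth.comp (by fun_prop : ContDiff ℝ ∞ fun x : ℝ => -x - θ)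
  have hcs : ContDiff ℝ ∞ (fun y => sm (-p y - θ)) := hbs.comp hp
  rw [← hess_add_smul _ _ hcs hp, psd_iff (hcs.add (contDiff_const.mul hp))]
  intro ζ
  have hst : ∀ x, HasDerivAt Real.smoothTransition (deriv Real.smoothTransition x) x := fun x =>
    ((st_smooth.differentiable (by simp)).differentiableAt).hasDerivAt
  have hd1 : deriv (fun x : ℝ => sm (-x - θ)) = fun x => -Real.smoothTransition (-x - θ) :=
    funext fun x => (comp_hasDeriv sm_hasDeriv θ x).deriv
  have hd2 : deriv (fun x : ℝ => -Real.smoothTransition (-x - θ)) =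
      fun x => deriv Real.smoothTransition (-x - θ) := by
    funext x
    rw [(comp_hasDeriv hst θ x).fun_neg.deriv, neg_neg]
  rw [levi_add (hcs.of_le ss_le) ((contDiff_const.mul hp).of_le ss_le), levi_const_mul _ hp2,
    levi_comp (Φ := fun x : ℝ => sm (-x - θ)) (hbs.of_le ss_le) hp2, hd1, hd2]
  simp only
  have h5 : 0 ≤ deriv Real.smoothTransition (-p z - θ) := Real.smoothTransition.monotone.deriv_nonneg
  have : 0 ≤ deriv Real.smoothTransition (-p z - θ) *
      ((fderiv ℝ p z ζ) ^ 2 + (fderiv ℝ p z (Complex.I • ζ)) ^ 2) / 4 := by positivity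
  linarith

/-- **S_Bl** -/
theorem s_Bl : S_Bl := by
  intro p φ hp hφ θ k C hC hout hpp hpφ hk hneg
  rcases C.eq_empty_or_nonempty with hCe | ⟨z0, hz0⟩
  · rw [hCe]; simp
  have hk0 : 0 ≤ k := by
    have := hk z0 hz0
    have := hneg z0 hz0
    linarith
  set a : Cn 2 → ℝ := fun z => bl (-p z - θ) with ha
  set b : Cn 2 → ℝ := fun z => sm (-p z - θ) with hb
  set s : Cn 2 → ℝ := fun z => Real.smoothTransition (-p z - θ) with hs
  have hlin : ContDiff ℝ ∞ (fun z => -p z - θ) := hp.neg.sub contDiff_const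
  have has : ContDiff ℝ ∞ a := bl_smooth.comp hlin
  have hbs : ContDiff ℝ ∞ b := sm_smooth.comp hlin
  have ha0 : ∀ z, z ∉ C → a z = 0 := fun z hz => bl_of_nonpos (by have := hout z hz; linarith)
  have hb0 : ∀ z, z ∉ C → b z = 0 := fun z hz => sm_of_nonpos (by have := hout z hz; linarith)
  have hacs : HasCompactSupport a := HasCompactSupport.intro hC ha0
  have hbcs : HasCompactSupport b := HasCompactSupport.intro hC hb0
  have hCc := hC.isClosed
  have hha : ∀ z, z ∉ C → hess a z = 0 := fun z hz => hess_zero_off hCc ha0 hz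
  have hhb : ∀ z, z ∉ C → hess b z = 0 := fun z hz => hess_zero_off hCc hb0 hz
  have hbnn : ∀ z, 0 ≤ b z := fun z => sm_nonneg _
  have hsnn : ∀ z, 0 ≤ s z := fun z => Real.smoothTransition.nonneg _
  have hs1 : ∀ z, s z ≤ 1 := fun z => Real.smoothTransition.le_one _
  have tz : ∀ X : Matrix (Fin 2) (Fin 2) ℂ, tA X 0 = 0 := fun X => by unfold tA; simp
  -- first step
  have s1 : 2 * ∫ z in C, a z * dt φ z ≤ k * ∫ z, b z * tA (hess p z) (hess φ z) := by
    have e1 : 2 * ∫ z in C, a z * dt φ z = ∫ z, φ z * tA (hess φ z) (hess a z) := by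
      rw [ibp_re φ a φ hφ has hφ hacs,
        setIntegral_eq_integral_of_forall_compl_eq_zero (fun z hz => by rw [ha0 z hz, zero_mul]),
        ← integral_const_mul]
      refine integral_congr_ae (Eventually.of_forall fun z => ?_)
      simp only
      rw [tA_self]
      unfold dt
      ring
    rw [e1, ← integral_const_mul]
    refine integral_mono ?_ ?_ fun z => ?_
    · apply Continuous.integrable_of_hasCompactSupport
      · exact hφ.continuous.mul (tA_cont hφ has)
      · exact HasCompactSupport.intro hC fun z hz => by rw [hha z hz, tz, mul_zero]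
    · apply Continuous.integrable_of_hasCompactSupport
      · exact continuous_const.mul (hbs.continuous.mul (tA_cont hp hφ))
      · exact HasCompactSupport.intro hC fun z hz => by rw [hb0 z hz, zero_mul, mul_zero]
    · simp only
      by_cases hz : z ∈ C
      · have h1 := trace_adj_nonneg _ _ (hpφ z hz) (psd_A hp θ z)
        change 0 ≤ tA (hess φ z) (hess a z + ((b z : ℝ) : ℂ) • hess p z) at h1
        rw [tA_add, tA_smul] at h1
        have h2 : 0 ≤ tA (hess p z) (hess φ z) := trace_adj_nonneg _ _ (hpp z hz) (hpφ z hz)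
        have h3 : tA (hess φ z) (hess p z) = tA (hess p z) (hess φ z) := tA_comm _ _
        rw [h3] at h1
        have h4 := hneg z hz
        have h5 := hk z hz
        have h6 := mul_nonneg (hbnn z) h2
        nlinarith [mul_nonneg (neg_nonneg.mpr h4) h1, mul_nonneg (by linarith : 0 ≤ k + φ z) h6]
      · rw [hha z hz, tz, mul_zero, hb0 z hz, zero_mul, mul_zero]
  -- second step
  have s2 : ∫ z, b z * tA (hess p z) (hess φ z) ≤ 2 * ∫ z in C, (-φ z) * dt p z := by
    rw [← ibp_re p b φ hp hbs hφ hbcs]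
    have e1 : ∫ z, φ z * tA (hess p z) (hess b z) = ∫ z in C, φ z * tA (hess p z) (hess b z) :=
      (setIntegral_eq_integral_of_forall_compl_eq_zero (fun z hz => by
        rw [hhb z hz, tz, mul_zero])).symm
    rw [e1, ← integral_const_mul]
    refine setIntegral_mono_on ?_ ?_ hC.measurableSet fun z hz => ?_
    · exact (hφ.continuous.mul (tA_cont hp hbs)).continuousOn.integrableOn_compact hC
    · exact (continuous_const.mul (hφ.continuous.neg.mul
        (dt_continuous hp))).continuousOn.integrableOn_compact hC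
    · have h1 := trace_adj_nonneg _ _ (hpp z hz) (psd_B hp θ z)
      change 0 ≤ tA (hess p z) (hess b z + ((s z : ℝ) : ℂ) • hess p z) at h1
      rw [tA_add, tA_smul, tA_self] at h1
      have h2 : 0 ≤ dt p z := dt_nonneg (hpp z hz)
      change 0 ≤ tA (hess p z) (hess b z) + s z * (2 * dt p z) at h1
      have h4 := hneg z hz
      have h5 : s z * (2 * dt p z) ≤ 2 * dt p z := by nlinarith [hs1 z]
      nlinarith [mul_nonneg (neg_nonneg.mpr h4) h1, mul_le_mul_of_nonneg_left h5 (neg_nonneg.mpr h4)]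
  have s3 := mul_le_mul_of_nonneg_left s2 hk0
  have : ∫ z in C, bl (-p z - θ) * dt φ z = ∫ z in C, a z * dt φ z := rfl
  rw [this]
  linarith

end Pool.Agent.H220.F4.PBl
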