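import Mathlib
import Pool.Agent.H220.F4.Stm

set_option autoImplicit false
set_option maxHeartbeats 1000000

open MeasureTheory Metric Set Filter Topology Matrix
open scoped ContDiff ComplexOrder

namespace Pool.Agent.H220.F4

open Pool.Agent.H805R2 Pool.Agent.H805R2.Gram

@[simp] lemma vec_zero (ζ w : ℂ) : vec ζ w 0 = ζ := rfl
@[simp] lemma vec_one (ζ w : ℂ) : vec ζ w 1 = w := rfl

lemma vec_continuous : Continuous fun ζ : ℂ => vec ζ 0 := by
  unfold vec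
  apply (PiLp.continuous_toLp 2 _).comp
  apply continuous_pi
  intro i
  fin_cases i
  · exact continuous_id
  · exact continuous_const

lemma vec_mem {ζ : ℂ} (h : ζ ∈ ball (0 : ℂ) 1) : vec ζ 0 ∈ Om := by
  refine ⟨?_, ?_⟩
  · simpa using h
  · simp

lemma mu0_compl {S : Set (Cn 2)} (hS : MeasurableSet S) (h : ∀ ζ ∈ ball (0 : ℂ) 1, vec ζ 0 ∉ S) : mu0 S = 0 := by
  unfold mu0
  rw [Measure.map_apply vec_continuous.measurable hS, Measure.restrict_apply (vec_continuous.measurable hS)]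
  convert measure_empty (μ := (volume : Measure ℂ))
  rw [eq_empty_iff_forall_notMem]
  rintro ζ ⟨h1, h2⟩
  exact h ζ h2 h1

lemma mu0_compl_Om : mu0 Omᶜ = 0 :=
  mu0_compl isOpen_Om.measurableSet.compl fun _ hζ h => h (vec_mem hζ)

lemma mu0_Om : mu0 Om = ENNReal.ofReal Real.pi := by
  unfold mu0
  rw [Measure.map_apply vec_continuous.measurable isOpen_Om.measurableSet,
    Measure.restrict_apply (vec_continuous.measurable isOpen_Om.measurableSet)]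
  have : (fun ζ : ℂ => vec ζ 0) ⁻¹' Om ∩ ball 0 1 = ball 0 1 := inter_eq_right.2 fun ζ hζ => vec_mem hζ
  rw [this, Complex.volume_ball]
  simp [ENNReal.ofReal, Real.toNNReal_of_nonneg Real.pi_pos.le]
  rfl

lemma integral_Om {c : ℝ} (hc : 0 < c) {f : Cn 2 → ℝ} (hf : Continuous f) :
    ∫ z in Om, f z ∂(ENNReal.ofReal c • mu0) = c * ∫ ζ in ball (0 : ℂ) 1, f (vec ζ 0) := by
  have h1 : ∫ z in Om, f z ∂(ENNReal.ofReal c • mu0) = ∫ z, f z ∂(ENNReal.ofReal c • mu0) := by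
    rw [Measure.restrict_eq_self_of_ae_mem]
    rw [ae_iff, Measure.smul_apply]
    change ENNReal.ofReal c • mu0 Omᶜ = 0
    rw [mu0_compl_Om, smul_zero]
  rw [h1, integral_smul_measure, ENNReal.toReal_ofReal hc.le, smul_eq_mul]
  congr 1
  unfold mu0
  rw [integral_map vec_continuous.measurable.aemeasurable hf.aestronglyMeasurable]

lemma integral_all {c : ℝ} (hc : 0 < c) {f : Cn 2 → ℝ} (hf : Continuous f) :
    ∫ z, f z ∂(ENNReal.ofReal c • mu0) = c * ∫ ζ in ball (0 : ℂ) 1, f (vec ζ 0) := by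
  rw [integral_smul_measure, ENNReal.toReal_ofReal hc.le, smul_eq_mul]
  congr 1
  unfold mu0
  rw [integral_map vec_continuous.measurable.aemeasurable hf.aestronglyMeasurable]

lemma mass_mu {c : ℝ} (hc : 0 < c) : ((ENNReal.ofReal c • mu0) Om).toReal = c * Real.pi := by
  rw [Measure.smul_apply, mu0_Om, smul_eq_mul, ENNReal.toReal_mul, ENNReal.toReal_ofReal hc.le,
    ENNReal.toReal_ofReal Real.pi_pos.le]

/-- the function `‖z i‖²` -/
lemma nsq_smooth' (i : Fin 2) : ContDiff ℝ ∞ (fun z : Cn 2 => ‖z i‖ ^ 2 - 1) := by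
  have h1 : ContDiff ℝ ∞ (fun z : Cn 2 => z i) := ((EuclideanSpace.proj i : Cn 2 →L[ℂ] ℂ).restrictScalars ℝ).contDiff
  exact (h1.norm_sq ℝ).sub contDiff_const

lemma nsq_fderiv' (i : Fin 2) (z h : Cn 2) :
    fderiv ℝ (fun z : Cn 2 => ‖z i‖ ^ 2 - 1) z h = 2 * inner ℝ (z i) (h i) := by
  set L : Cn 2 →L[ℝ] ℂ := (EuclideanSpace.proj i : Cn 2 →L[ℂ] ℂ).restrictScalars ℝ with hL
  have h3 : HasFDerivAt (fun z : Cn 2 => ‖L z‖ ^ 2 - 1) _ z := (L.hasFDerivAt (x := z)).norm_sq.sub_const 1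
  have h4 : fderiv ℝ (fun z : Cn 2 => ‖z i‖ ^ 2 - 1) z = _ := h3.fderiv
  rw [h4]
  simp [hL]
  ring

lemma nsq_levi (i : Fin 2) (z ζ : Cn 2) : levi (fun z : Cn 2 => ‖z i‖ ^ 2 - 1) z ζ = ‖ζ i‖ ^ 2 := by
  have hs := nsq_smooth' i
  have h2 : ∀ ξ y : Cn 2, D2 (fun z : Cn 2 => ‖z i‖ ^ 2 - 1) z ξ y = 2 * inner ℝ (ξ i) (y i) := by
    intro ξ y
    unfold D2
    have hd : DifferentiableAt ℝ (fderiv ℝ (fun z : Cn 2 => ‖z i‖ ^ 2 - 1)) z :=
      (((hs.of_le ss_le).fderiv_right (m := 1) (by norm_num)).differentiable (by norm_num)).differentiableAt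
    have h5 : fderiv ℝ (fun x => fderiv ℝ (fun z : Cn 2 => ‖z i‖ ^ 2 - 1) x y) z ξ =
        fderiv ℝ (fderiv ℝ (fun z : Cn 2 => ‖z i‖ ^ 2 - 1)) z ξ y := by
      rw [fderiv_clm_apply hd (differentiableAt_const _)]
      simp
    rw [← h5]
    have h6 : (fun x => fderiv ℝ (fun z : Cn 2 => ‖z i‖ ^ 2 - 1) x y) =
        fun x => ((2 : ℝ) • ((innerSL ℝ (y i)).comp ((EuclideanSpace.proj i : Cn 2 →L[ℂ] ℂ).restrictScalars ℝ))) x := by
      funext x
      rw [nsq_fderiv']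
      simp [real_inner_comm]
    rw [h6, ContinuousLinearMap.fderiv]
    simp [real_inner_comm]
  unfold levi
  rw [h2, h2]
  simp only [real_inner_self_eq_norm_sq, PiLp.smul_apply, smul_eq_mul, norm_mul, Complex.norm_I, one_mul]
  ring

lemma nsq_psd (i : Fin 2) (z : Cn 2) : (hess (fun z : Cn 2 => ‖z i‖ ^ 2 - 1) z).PosSemidef := by
  rw [psd_iff (nsq_smooth' i)]
  intro ζ
  rw [nsq_levi]
  positivity

lemma hh_smooth : ContDiff ℝ ∞ hh := nsq_smooth' 0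
lemma hh_psd (z : Cn 2) : (hess hh z).PosSemidef := nsq_psd 0 z
lemma hh_nonpos {z : Cn 2} (hz : z ∈ Om) : hh z ≤ 0 := by
  unfold hh
  have h1 := hz.1
  have h2 := norm_nonneg (z 0)
  nlinarith

/-- smooth version of `max (|z|²-1) (|w|²-1)` -/
noncomputable def rh (η : ℝ) : Cn 2 → ℝ := glue η (fun z => ‖z 0‖ ^ 2 - 1) (fun z => ‖z 1‖ ^ 2 - 1)

lemma rh_smooth (η : ℝ) : ContDiff ℝ ∞ (rh η) := glue_smooth η (nsq_smooth' 0) (nsq_smooth' 1)
lemma rh_psd {η : ℝ} (hη : 0 < η) (z : Cn 2) : (hess (rh η) z).PosSemidef :=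
  glue_psd hη (nsq_smooth' 0) (nsq_smooth' 1) z (nsq_psd 0 z) (nsq_psd 1 z)
lemma rh_nonpos {η : ℝ} (hη : 0 < η) {z : Cn 2} (hz : z ∈ Om) : rh η z ≤ 0 := by
  refine (glue_le hη _ _ z).trans (max_le ?_ ?_)
  · have h1 := hz.1
    have h2 := norm_nonneg (z 0)
    nlinarith
  · have h1 := hz.2
    have h2 := norm_nonneg (z 1)
    nlinarith
lemma rh_ge0 {η : ℝ} (hη : 0 < η) (z : Cn 2) : ‖z 0‖ ^ 2 - 1 ≤ rh η z :=
  le_glue_left hη (fun z : Cn 2 => ‖z 0‖ ^ 2 - 1) (fun z : Cn 2 => ‖z 1‖ ^ 2 - 1) z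
lemma rh_ge1 {η : ℝ} (hη : 0 < η) (z : Cn 2) : ‖z 1‖ ^ 2 - 1 - η ≤ rh η z := by
  have h1 := le_glue_right hη (fun z : Cn 2 => ‖z 0‖ ^ 2 - 1) (fun z : Cn 2 => ‖z 1‖ ^ 2 - 1) z
  have h2 : c0 * η ≤ η := by nlinarith [c0_le_one]
  unfold rh
  linarith
lemma rh_ge {η : ℝ} (hη : 0 < η) (z : Cn 2) : -1 ≤ rh η z := by
  have := rh_ge0 hη z
  have : 0 ≤ ‖z 0‖ ^ 2 := by positivity
  linarith
lemma rh_axis {η : ℝ} (hη : 0 < η) (ζ : ℂ) : rh η (vec ζ 0) = ‖ζ‖ ^ 2 - 1 := by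
  unfold rh
  rw [glue_of_le hη]
  · simp
  · simp

lemma int_axis_pos : 0 < ∫ ζ in ball (0 : ℂ) 1, (1 - ‖ζ‖ ^ 2) := by
  have hc : Continuous fun ζ : ℂ => 1 - ‖ζ‖ ^ 2 := by fun_prop
  rw [setIntegral_pos_iff_support_of_nonneg_ae]
  · have hsub : ball (0 : ℂ) 1 ⊆ Function.support (fun ζ : ℂ => 1 - ‖ζ‖ ^ 2) ∩ ball 0 1 := by
      intro ζ hζ
      refine ⟨?_, hζ⟩
      rw [Function.mem_support]
      have h1 : ‖ζ‖ < 1 := by simpa using hζ
      have h2 := norm_nonneg ζ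
      nlinarith
    exact (measure_ball_pos volume 0 one_pos).trans_le (measure_mono hsub)
  · refine (ae_restrict_iff' measurableSet_ball).2 (Eventually.of_forall fun ζ hζ => ?_)
    have h1 : ‖ζ‖ < 1 := by simpa using hζ
    have h2 := norm_nonneg ζ
    simp only [Pi.zero_apply]
    nlinarith
  · exact (hc.continuousOn.integrableOn_compact (isCompact_closedBall 0 1)).mono_set ball_subset_closedBall

end Pool.Agent.H220.F4
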