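import Mathlib
import Pool.Agent.H220.F4.Mu

set_option autoImplicit false
set_option maxHeartbeats 1000000

open MeasureTheory Metric Set Filter Topology Matrix
open scoped ContDiff ComplexOrder

namespace Pool.Agent.H220.F4

open Pool.Agent.H805R2 Pool.Agent.H805R2.Gram

lemma bl_nonneg (y : ℝ) : 0 ≤ bl y := by
  unfold bl
  rcases le_total 0 y with h | h
  · exact intervalIntegral.integral_nonneg h fun t _ => sm_nonneg t
  · rw [intervalIntegral.integral_symm]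
    have : ∫ t in y..(0 : ℝ), sm t = ∫ t in y..(0 : ℝ), (0 : ℝ) := by
      apply intervalIntegral.integral_congr
      intro t ht
      rw [uIcc_of_le h] at ht
      exact sm_of_nonpos ht.2
    rw [this]
    simp

lemma bl_continuous : Continuous bl := by
  unfold bl
  exact intervalIntegral.continuous_primitive (fun a b => sm_smooth.continuous.intervalIntegrable a b) 0

lemma bl_mono : Monotone bl := by
  intro a b hab
  unfold bl
  rw [← intervalIntegral.integral_add_adjacent_intervals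
    (sm_smooth.continuous.intervalIntegrable (μ := volume) 0 a)
    (sm_smooth.continuous.intervalIntegrable (μ := volume) a b)]
  have := intervalIntegral.integral_nonneg (μ := volume) hab fun t _ => sm_nonneg t
  linarith

lemma sm_pos {x : ℝ} (hx : 0 < x) : 0 < sm x := by
  unfold sm
  apply intervalIntegral.intervalIntegral_pos_of_pos_on
    (Real.smoothTransition.continuous.intervalIntegrable _ _) _ hx
  intro t ht
  exact Real.smoothTransition.pos_of_pos ht.1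

lemma bl_pos {y : ℝ} (hy : 0 < y) : 0 < bl y := by
  unfold bl
  apply intervalIntegral.intervalIntegral_pos_of_pos_on
    (sm_smooth.continuous.intervalIntegrable _ _) _ hy
  intro t ht
  exact sm_pos ht.1

lemma bl_of_nonpos {y : ℝ} (hy : y ≤ 0) : bl y = 0 := by
  apply le_antisymm _ (bl_nonneg y)
  have := bl_mono hy
  refine this.trans ?_
  simp [bl]

/-- lower bounds for `ps` -/
lemma ps_ge0 {s : ℝ} (hs : 0 < s) (z : Cn 2) : ‖z 0‖ ^ 2 - 1 ≤ ps s z := by
  unfold ps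
  have h1 : 2 * s * (‖z 0‖ ^ 2 - 1) ≤ Real.log (‖z 1‖ ^ 2 + Real.exp (2 * s * (‖z 0‖ ^ 2 - 1))) := by
    rw [Real.le_log_iff_exp_le (by positivity)]
    have : 0 ≤ ‖z 1‖ ^ 2 := by positivity
    linarith
  calc ‖z 0‖ ^ 2 - 1 = 1 / (2 * s) * (2 * s * (‖z 0‖ ^ 2 - 1)) := by field_simp
    _ ≤ _ := mul_le_mul_of_nonneg_left h1 (by positivity)

lemma ps_ge1 {s : ℝ} (hs : 0 < s) {z : Cn 2} {t : ℝ} (h : Real.exp (-(s * t)) ≤ ‖z 1‖) : -t ≤ ps s z := by
  unfold ps
  have h1 : -(2 * (s * t)) ≤ Real.log (‖z 1‖ ^ 2 + Real.exp (2 * s * (‖z 0‖ ^ 2 - 1))) := by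
    rw [Real.le_log_iff_exp_le (by positivity)]
    have h2 : Real.exp (-(2 * (s * t))) = Real.exp (-(s * t)) ^ 2 := by
      rw [← Real.exp_nat_mul]; congr 1; push_cast; ring
    have h3 : Real.exp (-(s * t)) ^ 2 ≤ ‖z 1‖ ^ 2 := by gcongr
    have h4 := Real.exp_pos (2 * s * (‖z 0‖ ^ 2 - 1))
    linarith
  calc -t = 1 / (2 * s) * (-(2 * (s * t))) := by field_simp
    _ ≤ _ := mul_le_mul_of_nonneg_left h1 (by positivity)

/-- upper bound for `ps` in the tube -/
lemma ps_le {s η : ℝ} (hs : 1 ≤ s) (hη : 0 < η) (hη1 : η < 1) (hsη : 2 ≤ s * η) {z : Cn 2}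
    (h0 : ‖z 0‖ ^ 2 ≤ 1 - η) (h1 : ‖z 1‖ ≤ Real.exp (-s)) : ps s z ≤ -(η / 2) := by
  unfold ps
  have hlog : Real.log (‖z 1‖ ^ 2 + Real.exp (2 * s * (‖z 0‖ ^ 2 - 1))) ≤ Real.log 2 - 2 * s * η := by
    have h2 : ‖z 1‖ ^ 2 ≤ Real.exp (-(2 * s * η)) := by
      calc ‖z 1‖ ^ 2 ≤ Real.exp (-s) ^ 2 := by gcongr
        _ = Real.exp (-(2 * s)) := by rw [← Real.exp_nat_mul]; congr 1; push_cast; ring
        _ ≤ _ := Real.exp_le_exp.2 (by nlinarith)
    have h3 : Real.exp (2 * s * (‖z 0‖ ^ 2 - 1)) ≤ Real.exp (-(2 * s * η)) :=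
      Real.exp_le_exp.2 (by nlinarith)
    have h4 : Real.log 2 - 2 * s * η = Real.log (2 * Real.exp (-(2 * s * η))) := by
      rw [Real.log_mul (by norm_num) (Real.exp_pos _).ne', Real.log_exp]; ring
    rw [h4]
    apply Real.log_le_log
    · have := Real.exp_pos (2 * s * (‖z 0‖ ^ 2 - 1))
      positivity
    · linarith
  have h5 : Real.log 2 ≤ 1 := by
    have := Real.log_two_lt_d9
    linarith
  calc 1 / (2 * s) * Real.log (‖z 1‖ ^ 2 + Real.exp (2 * s * (‖z 0‖ ^ 2 - 1)))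
      ≤ 1 / (2 * s) * (Real.log 2 - 2 * s * η) := mul_le_mul_of_nonneg_left hlog (by positivity)
    _ ≤ 1 / (2 * s) * (1 - 2 * s * η) := mul_le_mul_of_nonneg_left (by linarith) (by positivity)
    _ ≤ -(η / 2) := by
        rw [one_div, inv_mul_le_iff₀ (by positivity)]
        nlinarith

/-- the compact set `{|z|² ≤ a, |w| ≤ b}` -/
lemma compact_box {a b : ℝ} (ha : a < 1) (hb : b < 1) :
    IsCompact {z : Cn 2 | ‖z 0‖ ^ 2 ≤ a ∧ ‖z 1‖ ≤ b} ∧ {z : Cn 2 | ‖z 0‖ ^ 2 ≤ a ∧ ‖z 1‖ ≤ b} ⊆ Om := by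
  have hsub : {z : Cn 2 | ‖z 0‖ ^ 2 ≤ a ∧ ‖z 1‖ ≤ b} ⊆ Om := by
    rintro z ⟨h1, h2⟩
    refine ⟨?_, by linarith⟩
    have := norm_nonneg (z 0)
    by_contra h
    nlinarith [not_lt.1 h]
  refine ⟨?_, hsub⟩
  apply Metric.isCompact_of_isClosed_isBounded
  · have h1 : Continuous fun z : Cn 2 => ‖z 0‖ ^ 2 := by fun_prop
    have h2 : Continuous fun z : Cn 2 => ‖z 1‖ := by fun_prop
    exact (isClosed_le h1 continuous_const).inter (isClosed_le h2 continuous_const)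
  · exact Om_bounded.subset hsub

end Pool.Agent.H220.F4
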