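import Mathlib
import Pool.Agent.H220.F4.Tube

set_option autoImplicit false
set_option maxHeartbeats 1000000

open MeasureTheory Metric Set Filter Topology Matrix
open scoped ContDiff ComplexOrder

namespace Pool.Agent.H220.F4

open Pool.Agent.H805R2 Pool.Agent.H805R2.Gram

lemma int_ma (C : Set (Cn 2)) (f v : Cn 2 → ℝ) :
    ∫ z in C, f z * maDensity v z = 8 / Real.pi ^ 2 * ∫ z in C, f z * dt v z := by
  rw [← integral_const_mul]
  congr 1
  funext z
  rw [maDensity_eq]
  ring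

lemma int_ma1 (C : Set (Cn 2)) (v : Cn 2 → ℝ) :
    ∫ z in C, maDensity v z = 8 / Real.pi ^ 2 * ∫ z in C, dt v z := by
  rw [← integral_const_mul]
  congr 1
  funext z
  rw [maDensity_eq]

lemma mul_dt_int {f v : Cn 2 → ℝ} (hf : Continuous f) (hv : ContDiff ℝ ∞ v) {C : Set (Cn 2)}
    (hC : IsCompact C) : IntegrableOn (fun z => f z * dt v z) C :=
  (hf.mul (dt_continuous hv)).continuousOn.integrableOn_compact hC

lemma dt_int {v : Cn 2 → ℝ} (hv : ContDiff ℝ ∞ v) {C : Set (Cn 2)}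
    (hC : IsCompact C) : IntegrableOn (fun z => dt v z) C :=
  (dt_continuous hv).continuousOn.integrableOn_compact hC

/-- the mass of truncations in the tube `|w| ≤ e^{-s}` -/
theorem tube (hBI : S_BI) (hL4 : S_L4) (hJ1 : S_J1) (hps1 : S_ps1) (hps2 : S_ps2) (hBl : S_Bl)
    {u : ℕ → Cn 2 → ℝ} {ν : ℕ → Measure (Cn 2)} {μ : Measure (Cn 2)} (H : Setting u ν μ)
    (K : ℝ) (hK : 1 ≤ K) (η1 : ℝ) (hη1 : 0 < η1) (hη1' : η1 < 1) (e : ℝ) (he : 0 < e) :
    ∃ s0 : ℕ, ∀ s : ℕ, s0 ≤ s → ∃ j0 : ℕ, ∀ j ≥ j0, ∃ C0 : Set (Cn 2), IsCompact C0 ∧ C0 ⊆ Om ∧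
      ∀ (U : Set (Cn 2)) (v : ℕ → Cn 2 → ℝ), Appr (u j) (ν j) U v → C0 ⊆ U → ∃ i0 : ℕ, ∀ i ≥ i0,
        ∫ z in {z : Cn 2 | ‖z 0‖ ^ 2 ≤ 1 - η1 ∧ ‖z 1‖ ≤ Real.exp (-(s : ℝ))},
          maDensity (trc (K * Real.sqrt s) (v i)) z ≤ e := by
  have hpi := Real.pi_pos
  set X : ℝ := ∫ z in Om, -hh z ∂μ with hX
  have hX0 : 0 ≤ X := setIntegral_nonneg isOpen_Om.measurableSet fun z hz => by
    have := hh_nonpos hz
    linarith
  set b1 : ℝ := bl (η1 / 4) with hb1
  have hb1p : 0 < b1 := bl_pos (by positivity)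
  set q : ℝ := 8 / Real.pi ^ 2 with hq
  have hqp : 0 < q := by positivity
  set A : ℝ := q / b1 * (6 * K) with hA
  have hKp : 0 < K := by linarith
  have hAp : 0 < A := by positivity
  set D : ℝ := 2 * (q⁻¹ * (3 * X + 1)) with hD
  have hDp : 0 < D := by positivity
  set ε : ℝ := min 1 ((e / (2 * A)) ^ 2 / D) with hε
  have hεp : 0 < ε := lt_min one_pos (by positivity)
  have hε1 : ε ≤ 1 := min_le_left _ _
  have hεD : Real.sqrt (D * ε) ≤ e / (2 * A) := by
    rw [Real.sqrt_le_left (by positivity)]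
    have := min_le_right (1 : ℝ) ((e / (2 * A)) ^ 2 / D)
    calc D * ε ≤ D * ((e / (2 * A)) ^ 2 / D) := mul_le_mul_of_nonneg_left this hDp.le
      _ = _ := by field_simp
  obtain ⟨j0, R0, hj0⟩ := hL4 u ν μ H hh hh_smooth (fun z _ => hh_psd z) (fun z hz => hh_nonpos hz) ε hεp
  set R : ℝ := max R0 2 with hR
  have hR2 : 2 ≤ R := le_max_right _ _
  refine ⟨⌈max (2 / η1) ((2 * A * (R + 1) / e) ^ 2)⌉₊ + 1, fun s hs => ⟨j0, fun j hj => ?_⟩⟩
  have hs' : max (2 / η1) ((2 * A * (R + 1) / e) ^ 2) + 1 ≤ (s : ℝ) := by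
    have h1 := Nat.le_ceil (max (2 / η1) ((2 * A * (R + 1) / e) ^ 2))
    have h2 : ((⌈max (2 / η1) ((2 * A * (R + 1) / e) ^ 2)⌉₊ + 1 : ℕ) : ℝ) ≤ s := by exact_mod_cast hs
    push_cast at h2
    linarith
  have hm1 := le_max_left (2 / η1) ((2 * A * (R + 1) / e) ^ 2)
  have hm2 := le_max_right (2 / η1) ((2 * A * (R + 1) / e) ^ 2)
  have hs1 : (1 : ℝ) ≤ s := by
    have : 0 < 2 / η1 := by positivity
    linarith
  have hsp : (0 : ℝ) < s := by linarith
  have hsη : 2 ≤ (s : ℝ) * η1 := by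
    have h1 : 2 / η1 ≤ s := by linarith
    rwa [div_le_iff₀ hη1] at h1
  have hsqs : 2 * A * (R + 1) / e ≤ Real.sqrt s := by
    apply Real.le_sqrt_of_sq_le
    linarith
  have hsq1 : 1 ≤ Real.sqrt s := Real.one_le_sqrt.2 hs1
  have hsqp : 0 < Real.sqrt s := by linarith
  set k : ℝ := K * Real.sqrt s with hk
  have hk1 : 1 ≤ k := by rw [hk]; nlinarith
  obtain ⟨C0a, hC0a, hC0aΩ, hL⟩ := hj0 j hj R (le_max_left _ _)
  obtain ⟨Cb, hCb, hCbΩ, hCbθ⟩ := bdry_compact isOpen_Om Om_bounded (H.e0 j).2.2.2.1 1 one_pos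
  set θ : ℝ := η1 / 4 with hθ
  have hθp : 0 < θ := by positivity
  set CB : Set (Cn 2) := {z : Cn 2 | ‖z 0‖ ^ 2 ≤ 1 - θ ∧ ‖z 1‖ ≤ Real.exp (-(s * θ))} with hCB
  obtain ⟨hCBc, hCBΩ⟩ : IsCompact CB ∧ CB ⊆ Om := compact_box (by linarith)
    (by rw [Real.exp_lt_one_iff]; have := mul_pos hsp hθp; linarith)
  set C : Set (Cn 2) := (C0a ∪ Cb) ∪ CB with hC
  have hCc : IsCompact C := (hC0a.union hCb).union hCBc
  have hCΩ : C ⊆ Om := union_subset (union_subset hC0aΩ hCbΩ) hCBΩ
  obtain ⟨K', hK', hK'Ω, hCK', hB⟩ := hBI u ν μ H j C hCc hCΩ ε hεp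
  refine ⟨K', hK', hK'Ω, fun U v hAp' hK'U => ?_⟩
  have hCU : C ⊆ U := hCK'.trans hK'U
  obtain ⟨i0, hi0⟩ := hB U v hAp' hK'U
  obtain ⟨i1, hi1⟩ := hL U v hAp' ((subset_union_left.trans subset_union_left).trans hCU)
  obtain ⟨i2, hi2⟩ := hAp'.lt 1 one_pos
  refine ⟨max i0 (max i1 i2), fun i hi => ?_⟩
  have hii0 : i0 ≤ i := le_trans (le_max_left _ _) hi
  have hii1 : i1 ≤ i := le_trans (le_trans (le_max_left _ _) (le_max_right _ _)) hi
  have hii2 : i2 ≤ i := le_trans (le_trans (le_max_right _ _) (le_max_right _ _)) hi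
  set V : Cn 2 → ℝ := v i with hV
  have hVs : ContDiff ℝ ∞ V := hAp'.smooth i
  have hVp : ∀ z ∈ C, (hess V z).PosSemidef := fun z hz => hAp'.psd i z (hCU hz)
  have hV1 : ∀ z, V z < 1 := hi2 i hii2
  have hVoff : ∀ z, z ∉ C → -1 ≤ V z := by
    intro z hz
    by_cases hzΩ : z ∈ Om
    · have h1 := hCbθ z hzΩ (fun h => hz (Or.inl (Or.inr h)))
      have h2 := hAp'.ge i z hzΩ
      change u j z ≤ V z at h2
      linarith
    · have : V z = 0 := hAp'.out i z hzΩ
      rw [this]; norm_num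
  -- energy
  have hBI' := hi0 i hii0 hh hh_smooth (fun z _ => hh_psd z) (fun z hz => hh_nonpos hz)
  have hL4' := hi1 i hii1 C hCc (subset_union_left.trans subset_union_left) hCU
  rw [int_ma] at hBI' hL4'
  obtain ⟨hcs, hccs, hcts, hen⟩ := hJ1 V hVs R C hCc hVp (fun z hz => by
    have := hVoff z hz
    linarith)
  set cR : Cn 2 → ℝ := fun z => trc R V z - V z with hcR
  set W2 : ℝ := ∫ z, ‖wdb 1 (fun y => ((trc R V y - V y : ℝ) : ℂ)) z‖ ^ 2 with hW2
  have hW2D : W2 ≤ D * ε := by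
    have h1 : q * ∫ z in C, (-hh z) * dt V z ≤ (1 + ε) ^ 2 * X := hBI'
    have h2 : X - ε ≤ q * ∫ z in C, (-hh z) * dt (trc R V) z := hL4'
    have h3 : q * ((∫ z in C, (-hh z) * dt V z) - ∫ z in C, (-hh z) * dt (trc R V) z) ≤ (3 * X + 1) * ε := by
      have h4 : (1 + ε) ^ 2 * X - (X - ε) ≤ (3 * X + 1) * ε := by
        have : ε ^ 2 ≤ ε := by nlinarith
        nlinarith [mul_le_mul_of_nonneg_right this hX0]
      linarith
    have h5 : q * (1 / 2 * W2) ≤ (3 * X + 1) * ε := (mul_le_mul_of_nonneg_left hen hqp.le).trans h3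
    have h6 : W2 = 2 * (q⁻¹ * (q * (1 / 2 * W2))) := by field_simp
    rw [h6, hD]
    have := mul_le_mul_of_nonneg_left h5 (by positivity : 0 ≤ 2 * q⁻¹)
    linarith
  obtain ⟨hpss, hpsp, -⟩ := hps1 s hsp
  have hps2a := hps2.1 s hs1
  have hps2b := hps2.2 s hs1 cR hcs hccs (hcts.trans hCΩ)
  have hcdt : ∫ z, cR z * dt (ps s) z ≤ 3 / Real.sqrt s * (e / (2 * A)) := by
    refine hps2b.trans (mul_le_mul_of_nonneg_left ?_ (by positivity))
    exact (Real.sqrt_le_sqrt hW2D).trans hεD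
  have hc0 : ∀ z, 0 ≤ cR z := fun z => by
    have := le_chi R (V z)
    change 0 ≤ chi R (V z) - V z
    linarith
  have hdps : ∀ z, 0 ≤ dt (ps s) z := fun z => dt_nonneg (hpsp z)
  -- Blocki
  set φ : Cn 2 → ℝ := fun z => trc k V z + (-1) with hφ
  have htk : ContDiff ℝ ∞ (trc k V) := trc_smooth k hVs
  have hφs : ContDiff ℝ ∞ φ := htk.add contDiff_const
  have hdφ : ∀ z, dt φ z = dt (trc k V) z := fun z => dt_add_const _ htk z
  have hCBC : CB ⊆ C := subset_union_right
  have hφp : ∀ z ∈ CB, (hess φ z).PosSemidef := by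
    intro z hz
    rw [hφ, hess_add_const _ htk]
    exact trc_psd k hVs (hVp z (hCBC hz))
  have hBl' := hBl (ps s) φ hpss hφs θ (k + 1) CB hCBc
    (by
      intro z hz
      by_cases h0 : ‖z 0‖ ^ 2 ≤ 1 - θ
      · have h1 : Real.exp (-(s * θ)) ≤ ‖z 1‖ := by
          by_contra h
          exact hz ⟨h0, (not_le.1 h).le⟩
        exact ps_ge1 hsp h1
      · have := ps_ge0 hsp z
        linarith [not_le.1 h0])
    (fun z _ => hpsp z) hφp
    (fun z _ => by
      have := neg_le_chi k (V z)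
      change -(k + 1) ≤ chi k (V z) + (-1)
      linarith)
    (fun z _ => by
      have h1 := chi_le_max k (V z)
      have h2 : max (V z) (-k + 1) ≤ 1 := max_le (hV1 z).le (by linarith)
      change chi k (V z) + (-1) ≤ 0
      linarith)
  -- the right-hand side
  have hrhs : ∫ z in CB, (-φ z) * dt (ps s) z ≤ (1 + R) * (3 / s) + 3 / Real.sqrt s * (e / (2 * A)) := by
    have hcRc : Continuous cR := hcs.continuous
    have h1 : ∫ z in CB, (-φ z) * dt (ps s) z ≤ ∫ z in CB, ((1 + R) * dt (ps s) z + cR z * dt (ps s) z) := by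
      apply setIntegral_mono_on (mul_dt_int hφs.continuous.neg hpss hCBc)
        (((dt_int hpss hCBc).const_mul _).add (mul_dt_int hcRc hpss hCBc)) hCBc.measurableSet
      intro z _
      change (-φ z) * dt (ps s) z ≤ (1 + R) * dt (ps s) z + cR z * dt (ps s) z
      rw [← add_mul]
      apply mul_le_mul_of_nonneg_right _ (hdps z)
      have h2 := le_chi k (V z)
      have h3 := neg_le_chi R (V z)
      change -(chi k (V z) + (-1)) ≤ 1 + R + (chi R (V z) - V z)
      linarith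
    rw [integral_add ((dt_int hpss hCBc).const_mul _) (mul_dt_int hcRc hpss hCBc), integral_const_mul] at h1
    refine h1.trans (add_le_add ?_ ?_)
    · apply mul_le_mul_of_nonneg_left _ (by linarith)
      refine le_trans ?_ hps2a
      apply setIntegral_mono_set
      · exact (dt_int hpss (Om_bounded.isCompact_closure)).mono_set subset_closure
      · exact Eventually.of_forall hdps
      · exact Eventually.of_forall hCBΩ
    · refine le_trans ?_ hcdt
      apply setIntegral_le_integral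
      · exact (hcRc.mul (dt_continuous hpss)).integrable_of_hasCompactSupport hccs.mul_right
      · exact Eventually.of_forall fun z => mul_nonneg (hc0 z) (hdps z)
  -- the left-hand side
  set T : Set (Cn 2) := {z : Cn 2 | ‖z 0‖ ^ 2 ≤ 1 - η1 ∧ ‖z 1‖ ≤ Real.exp (-(s : ℝ))} with hT
  have hTc : IsCompact T := (compact_box (by linarith) (by rw [Real.exp_lt_one_iff]; linarith)).1
  have hTCB : T ⊆ CB := by
    rintro z ⟨h1, h2⟩
    refine ⟨by linarith, h2.trans (Real.exp_le_exp.2 ?_)⟩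
    nlinarith
  have hblc : Continuous fun z => bl (-ps s z - θ) := by
    have := bl_continuous
    have := hpss.continuous
    fun_prop
  have hlhs : b1 * ∫ z in T, dt (trc k V) z ≤ ∫ z in CB, bl (-ps s z - θ) * dt φ z := by
    simp_rw [hdφ]
    rw [← integral_const_mul]
    calc ∫ z in T, b1 * dt (trc k V) z ≤ ∫ z in T, bl (-ps s z - θ) * dt (trc k V) z := by
          apply setIntegral_mono_on ((dt_int htk hTc).const_mul _) (mul_dt_int hblc htk hTc) hTc.measurableSet
          intro z hz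
          apply mul_le_mul_of_nonneg_right _ (dt_nonneg (trc_psd k hVs (hVp z (hCBC (hTCB hz)))))
          apply bl_mono
          have := ps_le hs1 hη1 hη1' hsη hz.1 hz.2
          linarith
      _ ≤ _ := by
          apply setIntegral_mono_set (mul_dt_int hblc htk hCBc)
          · refine (ae_restrict_iff' hCBc.measurableSet).2 (Eventually.of_forall fun z hz => ?_)
            exact mul_nonneg (bl_nonneg _) (dt_nonneg (trc_psd k hVs (hVp z (hCBC hz))))
          · exact Eventually.of_forall hTCB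
  rw [int_ma1]
  change q * ∫ z in T, dt (trc k V) z ≤ e
  have hfin : b1 * ∫ z in T, dt (trc k V) z ≤
      (k + 1) * ((1 + R) * (3 / s) + 3 / Real.sqrt s * (e / (2 * A))) :=
    hlhs.trans (hBl'.trans (mul_le_mul_of_nonneg_left hrhs (by linarith)))
  have hss : Real.sqrt s * Real.sqrt s = s := Real.mul_self_sqrt hsp.le
  have hfin2 : (k + 1) * ((1 + R) * (3 / s) + 3 / Real.sqrt s * (e / (2 * A))) ≤
      6 * K * ((1 + R) / Real.sqrt s + e / (2 * A)) := by
    have h1 : k + 1 ≤ 2 * (K * Real.sqrt s) := by linarith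
    calc (k + 1) * ((1 + R) * (3 / s) + 3 / Real.sqrt s * (e / (2 * A)))
        ≤ (2 * (K * Real.sqrt s)) * ((1 + R) * (3 / s) + 3 / Real.sqrt s * (e / (2 * A))) :=
          mul_le_mul_of_nonneg_right h1 (by positivity)
      _ = 6 * K * ((1 + R) * (Real.sqrt s / s) + (Real.sqrt s / Real.sqrt s) * (e / (2 * A))) := by ring
      _ = _ := by
          rw [div_self hsqp.ne', one_mul]
          have : Real.sqrt s / s = 1 / Real.sqrt s := by
            rw [div_eq_div_iff hsp.ne' hsqp.ne', hss, one_mul]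
          rw [this]
          ring
  have hfin3 : (1 + R) / Real.sqrt s ≤ e / (2 * A) := by
    rw [div_le_div_iff₀ hsqp (by positivity)]
    rw [div_le_iff₀ he] at hsqs
    linarith
  calc q * ∫ z in T, dt (trc k V) z = q / b1 * (b1 * ∫ z in T, dt (trc k V) z) := by field_simp
    _ ≤ q / b1 * (6 * K * (e / (2 * A) + e / (2 * A))) := by
        apply mul_le_mul_of_nonneg_left _ (by positivity)
        refine hfin.trans (hfin2.trans ?_)
        apply mul_le_mul_of_nonneg_left _ (by positivity)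
        linarith
    _ = e := by
        have : q / b1 * (6 * K * (e / (2 * A) + e / (2 * A))) = A * (e / A) := by rw [hA]; field_simp; ring
        rw [this]
        field_simp

end Pool.Agent.H220.F4
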