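import Mathlib
import Pool.Agent.H220.F4.Tube2

set_option autoImplicit false
set_option maxHeartbeats 1000000

open MeasureTheory Metric Set Filter Topology Matrix
open scoped ContDiff ComplexOrder

namespace Pool.Agent.H220.F4

open Pool.Agent.H805R2 Pool.Agent.H805R2.Gram

/-- the mass of truncations on the truncation set outside the tube -/
theorem cap (hBI : S_BI) (hP4 : S_P4) {c : ℝ} (hc : 0 < c)
    {u : ℕ → Cn 2 → ℝ} {ν : ℕ → Measure (Cn 2)} (H : Setting u ν (ENNReal.ofReal c • mu0))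
    (K : ℝ) (hK : 1 ≤ K) (s : ℕ) (hs : 1 ≤ s) (hk8 : 8 ≤ K * Real.sqrt s) (j : ℕ)
    (K1 : Set (Cn 2)) (hK1 : IsCompact K1) (hK1Ω : K1 ⊆ Om) :
    ∃ C0 : Set (Cn 2), IsCompact C0 ∧ C0 ⊆ Om ∧ ∀ (U : Set (Cn 2)) (v : ℕ → Cn 2 → ℝ),
      Appr (u j) (ν j) U v → C0 ⊆ U → ∃ i0 : ℕ, ∀ i ≥ i0,
      ∫ z in {z : Cn 2 | z ∈ K1 ∧ Real.exp (-(s : ℝ)) ≤ ‖z 1‖ ∧ v i z ≤ -(K * Real.sqrt s) + 1},
        maDensity (trc (K * Real.sqrt s) (v i)) z ≤
        16 * c * ((Real.pi / 2 + 4 * Real.pi / 3 * (c * Real.pi + 1) + 4 * Real.pi + 1) / K) := by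
  have hpi := Real.pi_pos
  have hKp : 0 < K := by linarith
  have hs1 : (1 : ℝ) ≤ s := by exact_mod_cast hs
  have hsp : (0 : ℝ) < s := by linarith
  set k : ℝ := K * Real.sqrt s with hk
  have hkp : 0 < k := by linarith
  have hk2 : k ^ 2 = K ^ 2 * s := by rw [hk, mul_pow, Real.sq_sqrt hsp.le]
  set q : ℝ := 8 / Real.pi ^ 2 with hq
  have hqp : 0 < q := by positivity
  set τ : ℝ := 1 / K ^ 2 with hτ
  have hτp : 0 < τ := by positivity
  have hτ1 : τ ≤ 1 := by
    rw [hτ, div_le_one (by positivity)]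
    nlinarith
  obtain ⟨Cb, hCb, hCbΩ, hCbθ⟩ := bdry_compact isOpen_Om Om_bounded (H.e0 j).2.2.2.1 τ hτp
  set C : Set (Cn 2) := K1 ∪ Cb with hC
  have hCc : IsCompact C := hK1.union hCb
  have hCΩ : C ⊆ Om := union_subset hK1Ω hCbΩ
  obtain ⟨K', hK', hK'Ω, hCK', hB⟩ := hBI u ν _ H j C hCc hCΩ 1 one_pos
  refine ⟨K', hK', hK'Ω, fun U v hA hK'U => ?_⟩
  have hCU : C ⊆ U := hCK'.trans hK'U
  obtain ⟨i0, hi0⟩ := hB U v hA hK'U
  obtain ⟨χ0, hχs, hχc, hχU, hχ1, hχ01⟩ := cutoff hCc hA.isOpen hCU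
  have hconv := hA.conv χ0 hχs.continuous hχc hχU
  have hm0 := mass_le H j χ0 hχs.continuous hχc (hχU.trans hA.sub) hχ01
  rw [mass_mu hc] at hm0
  obtain ⟨i1, hi1⟩ := eventually_atTop.1 (hconv.eventually (gt_mem_nhds (by linarith :
    ∫ z, χ0 z ∂(ν j) < c * Real.pi + 1)))
  refine ⟨max i0 i1, fun i hi => ?_⟩
  have hii0 : i0 ≤ i := le_trans (le_max_left _ _) hi
  have hii1 : i1 ≤ i := le_trans (le_max_right _ _) hi
  set V : Cn 2 → ℝ := v i with hV
  have hVs : ContDiff ℝ ∞ V := hA.smooth i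
  have hVp : ∀ z ∈ C, (hess V z).PosSemidef := fun z hz => hA.psd i z (hCU hz)
  have hVoff : ∀ z, z ∉ C → -τ ≤ V z := by
    intro z hz
    by_cases hzΩ : z ∈ Om
    · have h1 := hCbθ z hzΩ (fun h => hz (Or.inr h))
      have h2 := hA.ge i z hzΩ
      change u j z ≤ V z at h2
      linarith
    · have : V z = 0 := hA.out i z hzΩ
      rw [this]; linarith
  have hVeq : ∀ z, z ∉ C → trc k V z = V z := fun z hz => by
    have := hVoff z hz
    exact trc_of_ge (by linarith)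
  have htk : ContDiff ℝ ∞ (trc k V) := trc_smooth k hVs
  have htkp : ∀ z ∈ C, (hess (trc k V) z).PosSemidef := fun z hz => trc_psd k hVs (hVp z hz)
  -- mass
  have hmass : q * ∫ z in C, dt V z ≤ c * Real.pi + 1 := by
    have h1 := setInt_le_cut hVs hχs.continuous hχc hCc hχU (hA.psd i) (fun z => (hχ01 z).1)
      (fun _ => 1) (fun z hz => (hχ1 z hz).ge) continuous_const hCU
    simp only [one_mul] at h1
    rw [int_ma1] at h1
    exact h1.trans (hi1 i hii1).le
  have hstokes : ∫ z in C, dt (trc k V) z = ∫ z in C, dt V z := stokes_on V (trc k V) hVs htk C hCc hVeq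
  -- the function `Ψ`
  set Ψ : Cn 2 → ℝ := fun z => k⁻¹ * trc k V z with hΨ
  have hΨs : ContDiff ℝ ∞ Ψ := contDiff_const.mul htk
  obtain ⟨VB, hVB⟩ := (hA.cs i).exists_bound_of_continuous hVs.continuous
  have hΨb : ∀ z, |Ψ z| ≤ k⁻¹ * (k + |VB| + 1) := by
    intro z
    simp only [hΨ]
    rw [abs_mul, abs_of_pos (inv_pos.2 hkp)]
    apply mul_le_mul_of_nonneg_left _ (inv_pos.2 hkp).le
    have h1 := neg_le_chi k (V z)
    have h2 := chi_le_max k (V z)
    have h3 := hVB z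
    rw [Real.norm_eq_abs] at h3
    have h4 := le_abs_self VB
    have h5 := le_abs_self (V z)
    have h6 := abs_nonneg VB
    have h7 : max (V z) (-k + 1) ≤ |VB| + 1 := max_le (by change v i z ≤ _; linarith) (by linarith)
    change |chi k (V z)| ≤ _
    rw [abs_le]
    constructor <;> linarith
  have hΨp : ∀ z ∈ C, (hess Ψ z).PosSemidef := by
    intro z hz
    rw [hΨ, hess_const_mul _ htk]
    exact (htkp z hz).smul (by exact_mod_cast (inv_pos.2 hkp).le)
  have hΨt : ∀ z ∈ C, -1 ≤ Ψ z := by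
    intro z _
    have h1 := neg_le_chi k (V z)
    have h2 := mul_le_mul_of_nonneg_left h1 (inv_pos.2 hkp).le
    have h3 : k⁻¹ * -k = -1 := by field_simp
    rw [h3] at h2
    exact h2
  have hΨτ : ∀ z ∈ Om, z ∉ C → -τ ≤ Ψ z := by
    intro z _ hzC
    have h1 := hVoff z hzC
    simp only [hΨ]
    rw [hVeq z hzC]
    have h2 := mul_le_mul_of_nonneg_left h1 (inv_pos.2 hkp).le
    have h3 : k⁻¹ ≤ 1 := inv_le_one_of_one_le₀ (by linarith)
    nlinarith
  -- the set `E`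
  set E : Set (Cn 2) := {z : Cn 2 | z ∈ K1 ∧ Real.exp (-(s : ℝ)) ≤ ‖z 1‖ ∧ V z ≤ -k + 1} with hE
  have hn1 : Continuous fun z : Cn 2 => ‖z 1‖ := by fun_prop
  have hEc : IsCompact E := by
    have h1 : IsClosed {z : Cn 2 | Real.exp (-(s : ℝ)) ≤ ‖z 1‖ ∧ V z ≤ -k + 1} :=
      (isClosed_le continuous_const hn1).inter (isClosed_le hVs.continuous continuous_const)
    exact hK1.inter_right h1
  have hEC : E ⊆ C := fun z hz => Or.inl hz.1
  have hO : IsOpen {y : Cn 2 | y ∈ Om ∧ Real.exp (-2 * s) < ‖y 1‖ ∧ V y < -k + 2} := by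
    apply isOpen_Om.inter
    exact (isOpen_lt continuous_const hn1).inter (isOpen_lt hVs.continuous continuous_const)
  obtain ⟨ρ, hρ, hρsub⟩ := hEc.exists_cthickening_subset_open hO (by
    intro z hz
    refine ⟨hK1Ω hz.1, lt_of_lt_of_le (Real.exp_lt_exp.2 ?_) hz.2.1, by linarith [hz.2.2]⟩
    linarith)
  have hEρ : ∀ x ∈ E, closedBall x ρ ⊆ Om ∧
      ∀ y ∈ closedBall x ρ, Real.exp (-2 * s) < ‖y 1‖ ∧ Ψ y ≤ -(3 / 4) := by
    intro x hx
    have hsub : closedBall x ρ ⊆ _ := (closedBall_subset_cthickening hx ρ).trans hρsub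
    refine ⟨fun y hy => (hsub hy).1, fun y hy => ⟨(hsub hy).2.1, ?_⟩⟩
    have h1 := (hsub hy).2.2
    have h2 : trc k V y ≤ -k + 2 := (chi_le_max k (V y)).trans (max_le h1.le (by linarith))
    have h3 := mul_le_mul_of_nonneg_left h2 (inv_pos.2 hkp).le
    refine h3.trans ?_
    rw [inv_mul_le_iff₀ hkp]
    linarith
  obtain ⟨w, hws, hwp, hw0, hwE, hwint⟩ := hP4 s hs (1 / K) (by positivity)
    (by rw [div_le_one hKp]; exact hK) Ψ hΨs _ hΨb C hCc hCΩ hΨp 1 τ zero_le_one hτp.le hΨt hΨτ E ρ hρ hEρ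
    (1 / K) (by positivity)
  -- the bound of the axis integral
  have hJ : (2 / Real.pi) ^ 2 * ∫ z in C, dt Ψ z ≤ 1 / 2 * (c * Real.pi + 1) / k ^ 2 := by
    have h1 : ∫ z in C, dt Ψ z = (k⁻¹) ^ 2 * ∫ z in C, dt V z := by
      rw [← hstokes, ← integral_const_mul]
      congr 1
      funext z
      exact dt_smul _ htk z
    rw [h1]
    calc (2 / Real.pi) ^ 2 * ((k⁻¹) ^ 2 * ∫ z in C, dt V z)
        = 1 / 2 * (q * ∫ z in C, dt V z) / k ^ 2 := by
          rw [hq]
          field_simp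
          ring
      _ ≤ _ := by gcongr
  have hax : ∫ ζ in ball (0 : ℂ) 1, -w (vec ζ 0) ≤
      (Real.pi / 2 + 4 * Real.pi / 3 * (c * Real.pi + 1) + 4 * Real.pi + 1) / K := by
    refine hwint.trans ?_
    have h1 : 2 * 1 / 3 * ((2 / Real.pi) ^ 2 * ∫ z in C, dt Ψ z) + τ / s ≤
        2 / 3 * (1 / 2 * (c * Real.pi + 1) / k ^ 2) + τ / s := by
      have := mul_le_mul_of_nonneg_left hJ (by norm_num : (0 : ℝ) ≤ 2 * 1 / 3)
      linarith
    have h2 : 4 * Real.pi * s / (1 / K) * (2 * 1 / 3 * ((2 / Real.pi) ^ 2 * ∫ z in C, dt Ψ z) + τ / s) ≤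
        4 * Real.pi * s / (1 / K) * (2 / 3 * (1 / 2 * (c * Real.pi + 1) / k ^ 2) + τ / s) :=
      mul_le_mul_of_nonneg_left h1 (by positivity)
    have h3 : Real.pi * (1 / K) / 2 + 4 * Real.pi * s / (1 / K) *
        (2 / 3 * (1 / 2 * (c * Real.pi + 1) / k ^ 2) + τ / s) + 1 / K =
        (Real.pi / 2 + 4 * Real.pi / 3 * (c * Real.pi + 1) + 4 * Real.pi + 1) / K := by
      rw [hk2, hτ]
      field_simp
      ring
    rw [← h3]
    linarith
  -- the chain
  have hch1 : ∫ z in E, maDensity (trc k V) z ≤ 4 * ∫ z in C, (-w z) * maDensity (trc k V) z := by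
    rw [int_ma1, int_ma, mul_left_comm]
    apply mul_le_mul_of_nonneg_left _ hqp.le
    rw [← integral_const_mul]
    calc ∫ z in E, dt (trc k V) z ≤ ∫ z in E, 4 * ((-w z) * dt (trc k V) z) := by
          apply setIntegral_mono_on (dt_int htk hEc) ((mul_dt_int hws.continuous.neg htk hEc).const_mul _)
            hEc.measurableSet
          intro z hz
          have h1 := hwE z hz
          have h2 := dt_nonneg (htkp z (hEC hz))
          change dt (trc k V) z ≤ 4 * ((-w z) * dt (trc k V) z)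
          nlinarith
      _ ≤ _ := by
          apply setIntegral_mono_set ((mul_dt_int hws.continuous.neg htk hCc).const_mul _)
          · refine (ae_restrict_iff' hCc.measurableSet).2 (Eventually.of_forall fun z hz => ?_)
            have h1 := hw0 z (hCΩ hz)
            have h2 := dt_nonneg (htkp z hz)
            change 0 ≤ 4 * ((-w z) * dt (trc k V) z)
            have : 0 ≤ (-w z) * dt (trc k V) z := mul_nonneg (by linarith) h2
            linarith
          · exact Eventually.of_forall hEC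
  have hch2 : ∫ z in C, (-w z) * maDensity (trc k V) z ≤ ∫ z in C, (-w z) * maDensity V z := by
    rw [int_ma, int_ma]
    apply mul_le_mul_of_nonneg_left _ hqp.le
    exact compare_on V (trc k V) w hVs htk hws C hCc hVeq (fun z => le_chi k (V z)) hVp htkp
      (fun z _ => hwp z)
  have hch3 := hi0 i hii0 w hws (fun z _ => hwp z) hw0
  have hIO : ∫ z in Om, -w z ∂(ENNReal.ofReal c • mu0) = c * ∫ ζ in ball (0 : ℂ) 1, -w (vec ζ 0) :=
    integral_Om hc hws.continuous.neg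
  rw [hIO] at hch3
  calc ∫ z in E, maDensity (trc k V) z ≤ 4 * ∫ z in C, (-w z) * maDensity (trc k V) z := hch1
    _ ≤ 4 * ∫ z in C, (-w z) * maDensity V z := by linarith
    _ ≤ 4 * ((1 + 1) ^ 2 * (c * ∫ ζ in ball (0 : ℂ) 1, -w (vec ζ 0))) := by linarith
    _ = 16 * c * ∫ ζ in ball (0 : ℂ) 1, -w (vec ζ 0) := by ring
    _ ≤ _ := mul_le_mul_of_nonneg_left hax (by positivity)

end Pool.Agent.H220.F4
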