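import Mathlib
import Pool.Agent.H220.F4.Cap

set_option autoImplicit false
set_option maxHeartbeats 1000000

open MeasureTheory Metric Set Filter Topology Matrix
open scoped ContDiff ComplexOrder

namespace Pool.Agent.H220.F4

open Pool.Agent.H805R2 Pool.Agent.H805R2.Gram

lemma int_union_le {f : Cn 2 → ℝ} {A B : Set (Cn 2)} (hA : MeasurableSet A) (hB : MeasurableSet B)
    (hfA : IntegrableOn f A) (hfB : IntegrableOn f B) (h0 : ∀ z ∈ B, 0 ≤ f z) :
    ∫ z in A ∪ B, f z ≤ (∫ z in A, f z) + ∫ z in B, f z := by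
  rw [← union_sdiff_self, setIntegral_union disjoint_sdiff_right (hB.diff hA) hfA
    (hfB.mono_set sdiff_subset)]
  have : ∫ z in B \ A, f z ≤ ∫ z in B, f z := by
    apply setIntegral_mono_set hfB
    · exact (ae_restrict_iff' hB).2 (Eventually.of_forall h0)
    · exact Eventually.of_forall sdiff_subset
  linarith

theorem core (hBI : S_BI) (hL4 : S_L4) (hJ1 : S_J1) (hps1 : S_ps1) (hps2 : S_ps2) (hBl : S_Bl)
    (hP4 : S_P4) {c : ℝ} (hc : 0 < c)
    {u : ℕ → Cn 2 → ℝ} {ν : ℕ → Measure (Cn 2)} (H : Setting u ν (ENNReal.ofReal c • mu0)) : False := by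
  have hpi := Real.pi_pos
  set m0 : ℝ := c * Real.pi with hm0
  have hm0p : 0 < m0 := by positivity
  set I : ℝ := c * ∫ ζ in ball (0 : ℂ) 1, (1 - ‖ζ‖ ^ 2) with hI
  have hIp : 0 < I := mul_pos hc int_axis_pos
  set C1 : ℝ := Real.pi / 2 + 4 * Real.pi / 3 * (c * Real.pi + 1) + 4 * Real.pi + 1 with hC1
  have hC1p : 0 < C1 := by positivity
  set K : ℝ := max 1 (16 * (16 * c * C1) / I) with hKdef
  have hK : 1 ≤ K := le_max_left _ _
  have hKp : 0 < K := by linarith
  have hKI : 16 * c * (C1 / K) ≤ I / 16 := by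
    have h1 : 16 * (16 * c * C1) / I ≤ K := le_max_right _ _
    rw [div_le_iff₀ hIp] at h1
    rw [← mul_div_assoc, div_le_iff₀ hKp]
    linarith
  set η : ℝ := min (1 / 4) (I / (32 * (m0 + 1))) with hη
  have hηp : 0 < η := lt_min (by norm_num) (by positivity)
  have hη4 : η ≤ 1 / 4 := min_le_left _ _
  have hηI : 2 * η * (m0 + 1) ≤ I / 16 := by
    have h1 : η ≤ I / (32 * (m0 + 1)) := min_le_right _ _
    rw [le_div_iff₀ (by positivity)] at h1
    linarith
  set ψ : Cn 2 → ℝ := rh η with hψ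
  have hψs : ContDiff ℝ ∞ ψ := rh_smooth η
  have hψI : ∫ z in Om, -ψ z ∂(ENNReal.ofReal c • mu0) = I := by
    have h1 : ∫ z in Om, -ψ z ∂(ENNReal.ofReal c • mu0) = c * ∫ ζ in ball (0 : ℂ) 1, -ψ (vec ζ 0) :=
      integral_Om hc hψs.continuous.neg
    rw [h1, hI]
    congr 2
    funext ζ
    rw [hψ, rh_axis hηp]
    ring
  obtain ⟨jL, R0, hL⟩ := hL4 u ν _ H ψ hψs (fun z _ => rh_psd hηp z) (fun z hz => rh_nonpos hηp hz)
    (I / 16) (by positivity)
  obtain ⟨s0, hs0⟩ := tube hBI hL4 hJ1 hps1 hps2 hBl H K hK η hηp (by linarith) (I / 16) (by positivity)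
  set s : ℕ := max s0 (⌈(max R0 8) ^ 2⌉₊ + 1) with hs
  have hs0s : s0 ≤ s := le_max_left _ _
  have hsN : ⌈(max R0 8) ^ 2⌉₊ + 1 ≤ s := le_max_right _ _
  have hs1 : 1 ≤ s := le_trans (by omega) hsN
  have hsR : (max R0 8) ^ 2 ≤ (s : ℝ) := by
    have h1 := Nat.le_ceil ((max R0 8) ^ 2)
    have h2 : ((⌈(max R0 8) ^ 2⌉₊ + 1 : ℕ) : ℝ) ≤ s := by exact_mod_cast hsN
    push_cast at h2
    linarith
  have hsq : max R0 8 ≤ Real.sqrt s := Real.le_sqrt_of_sq_le hsR
  set k : ℝ := K * Real.sqrt s with hk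
  have hksq : Real.sqrt s ≤ k := by
    rw [hk]
    nlinarith [Real.sqrt_nonneg (s : ℝ)]
  have hk8 : 8 ≤ k := ((le_max_right _ _).trans hsq).trans hksq
  have hkR : R0 ≤ k := ((le_max_left _ _).trans hsq).trans hksq
  obtain ⟨jT, hT⟩ := hs0 s hs0s
  -- the compact sets
  set K1 : Set (Cn 2) := {z : Cn 2 | ‖z 0‖ ^ 2 ≤ 1 - η ∧ ‖z 1‖ ≤ 1 - η / 2} with hK1
  obtain ⟨hK1c, hK1Ω⟩ : IsCompact K1 ∧ K1 ⊆ Om := compact_box (by linarith) (by linarith)
  have hn1 : Continuous fun z : Cn 2 => ‖z 1‖ := by fun_prop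
  have hψoff : ∀ z ∈ Om, z ∉ K1 → -ψ z ≤ 2 * η := by
    intro z hz hzK
    by_cases h0 : ‖z 0‖ ^ 2 ≤ 1 - η
    · have h1 : 1 - η / 2 < ‖z 1‖ := by
        by_contra h
        exact hzK ⟨h0, not_lt.1 h⟩
      have h2 := rh_ge1 hηp z
      have h3 : 1 - η ≤ ‖z 1‖ ^ 2 := by nlinarith
      change -rh η z ≤ _
      linarith
    · have h2 := rh_ge0 hηp z
      change -rh η z ≤ _
      linarith [not_le.1 h0]
  set KA : Set (Cn 2) := K1 ∩ {z | Real.exp (-(s : ℝ)) ≤ ‖z 1‖} with hKA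
  have hKAc : IsCompact KA := hK1c.inter_right (isClosed_le continuous_const hn1)
  have hOA : IsOpen (Om ∩ {z : Cn 2 | 0 < ‖z 1‖}) := isOpen_Om.inter (isOpen_lt continuous_const hn1)
  obtain ⟨χA, hχAs, hχAc, hχAO, hχA1, hχA01⟩ := cutoff hKAc hOA
    (fun z hz => ⟨hK1Ω hz.1, (Real.exp_pos _).trans_le hz.2⟩)
  have hχAμ : ∫ z, χA z ∂(ENNReal.ofReal c • mu0) = 0 := by
    rw [integral_all hc hχAs.continuous]
    have h1 : ∀ ζ : ℂ, χA (vec ζ 0) = 0 := by
      intro ζ
      apply image_eq_zero_of_notMem_tsupport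
      intro h
      have := (hχAO h).2
      simp at this
    simp [h1]
  have hcA := H.conv χA hχAs.continuous hχAc (hχAO.trans inter_subset_left)
  rw [hχAμ] at hcA
  obtain ⟨jA, hjA⟩ := eventually_atTop.1 (hcA.eventually (gt_mem_nhds (by positivity : 0 < I / 16)))
  set j : ℕ := max jL (max jT jA) with hj
  have hjL : jL ≤ j := le_max_left _ _
  have hjT : jT ≤ j := le_trans (le_max_left _ _) (le_max_right _ _)
  have hjA' : jA ≤ j := le_trans (le_max_right _ _) (le_max_right _ _)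
  obtain ⟨CL, hCL, hCLΩ, hL'⟩ := hL j hjL k hkR
  obtain ⟨CT, hCT, hCTΩ, hT'⟩ := hT j hjT
  obtain ⟨CC, hCC, hCCΩ, hC'⟩ := cap hBI hP4 hc H K hK s hs1 hk8 j K1 hK1c hK1Ω
  obtain ⟨Cb, hCb, hCbΩ, hCbθ⟩ := bdry_compact isOpen_Om Om_bounded (H.e0 j).2.2.2.1 1 one_pos
  set C : Set (Cn 2) := (CL ∪ K1) ∪ Cb with hCdef
  have hCc : IsCompact C := (hCL.union hK1c).union hCb
  have hCΩ : C ⊆ Om := union_subset (union_subset hCLΩ hK1Ω) hCbΩ
  obtain ⟨U, v, hA, hKU⟩ := exists_appr (H.e0 j) ((hCc.union (hCT.union hCC)).union hχAc)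
    (union_subset (union_subset hCΩ (union_subset hCTΩ hCCΩ)) (hχAO.trans inter_subset_left))
  have hCU : C ⊆ U := (subset_union_left.trans subset_union_left).trans hKU
  have hCTU : CT ⊆ U := ((subset_union_left.trans subset_union_right).trans subset_union_left).trans hKU
  have hCCU : CC ⊆ U := ((subset_union_right.trans subset_union_right).trans subset_union_left).trans hKU
  have hχAU : tsupport χA ⊆ U := subset_union_right.trans hKU
  obtain ⟨i0, hi0⟩ := hL' U v hA ((subset_union_left.trans subset_union_left).trans hCU)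
  obtain ⟨i1, hi1⟩ := hT' U v hA hCTU
  obtain ⟨i2, hi2⟩ := hC' U v hA hCCU
  obtain ⟨i3, hi3⟩ := eventually_atTop.1 ((hA.conv χA hχAs.continuous hχAc hχAU).eventually
    (gt_mem_nhds (hjA j hjA')))
  obtain ⟨χ0, hχs, hχc, hχU, hχ1, hχ01⟩ := cutoff hCc hA.isOpen hCU
  have hconv := hA.conv χ0 hχs.continuous hχc hχU
  have hmm := mass_le H j χ0 hχs.continuous hχc (hχU.trans hA.sub) hχ01
  rw [mass_mu hc] at hmm
  obtain ⟨i4, hi4⟩ := eventually_atTop.1 (hconv.eventually (gt_mem_nhds (by linarith :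
    ∫ z, χ0 z ∂(ν j) < m0 + 1)))
  set i : ℕ := max i0 (max i1 (max i2 (max i3 i4))) with hi
  have hii0 : i0 ≤ i := by omega
  have hii1 : i1 ≤ i := by omega
  have hii2 : i2 ≤ i := by omega
  have hii3 : i3 ≤ i := by omega
  have hii4 : i4 ≤ i := by omega
  have hLow := hi0 i hii0 C hCc (subset_union_left.trans subset_union_left) hCU
  have hTub := hi1 i hii1
  have hCap := hi2 i hii2
  have hAA := hi3 i hii3
  have hM := hi4 i hii4
  rw [hψI] at hLow
  set V : Cn 2 → ℝ := v i with hV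
  have hVs : ContDiff ℝ ∞ V := hA.smooth i
  have hVpU : ∀ z ∈ U, (hess V z).PosSemidef := hA.psd i
  have hVp : ∀ z ∈ C, (hess V z).PosSemidef := fun z hz => hA.psd i z (hCU hz)
  have hVoff : ∀ z, z ∉ C → -1 ≤ V z := by
    intro z hz
    by_cases hzΩ : z ∈ Om
    · have h1 := hCbθ z hzΩ (fun h => hz (Or.inr h))
      have h2 := hA.ge i z hzΩ
      change u j z ≤ V z at h2
      linarith
    · have : V z = 0 := hA.out i z hzΩ
      rw [this]; norm_num
  have hVeq : ∀ z, z ∉ C → trc k V z = V z := fun z hz => by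
    have := hVoff z hz
    exact trc_of_ge (by linarith)
  have htk : ContDiff ℝ ∞ (trc k V) := trc_smooth k hVs
  have htkp : ∀ z ∈ C, (hess (trc k V) z).PosSemidef := fun z hz => trc_psd k hVs (hVp z hz)
  set f : Cn 2 → ℝ := fun z => maDensity (trc k V) z with hf
  have hfc : Continuous f := maDensity_continuous htk
  have hf0 : ∀ z ∈ C, 0 ≤ f z := fun z hz => maDensity_nonneg (htkp z hz)
  have hfi : ∀ S : Set (Cn 2), S ⊆ C → IntegrableOn f S := fun S hS =>
    (hfc.continuousOn.integrableOn_compact hCc).mono_set hS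
  have hψfi : IntegrableOn (fun z => (-ψ z) * f z) C :=
    (hψs.continuous.neg.mul hfc).continuousOn.integrableOn_compact hCc
  -- total mass
  have hmass : ∫ z in C, f z ≤ m0 + 1 := by
    have h1 := setInt_le_cut hVs hχs.continuous hχc hCc hχU (hA.psd i) (fun z => (hχ01 z).1)
      (fun _ => 1) (fun z hz => (hχ1 z hz).ge) continuous_const hCU
    simp only [one_mul] at h1
    have h2 : ∫ z in C, f z = ∫ z in C, maDensity V z := by
      simp only [hf]
      rw [int_ma1, int_ma1]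
      congr 1
      exact stokes_on V (trc k V) hVs htk C hCc hVeq
    rw [h2]
    exact h1.trans hM.le
  have hK1C : K1 ⊆ C := subset_union_right.trans subset_union_left
  -- decomposition
  have hsplit : ∫ z in C, (-ψ z) * f z =
      (∫ z in K1, (-ψ z) * f z) + ∫ z in C \ K1, (-ψ z) * f z := by
    rw [← setIntegral_union disjoint_sdiff_right (hCc.measurableSet.diff hK1c.measurableSet)
      (hψfi.mono_set hK1C) (hψfi.mono_set sdiff_subset), union_sdiff_cancel hK1C]
  have hpart1 : ∫ z in C \ K1, (-ψ z) * f z ≤ I / 16 := by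
    calc ∫ z in C \ K1, (-ψ z) * f z ≤ ∫ z in C \ K1, 2 * η * f z := by
          apply setIntegral_mono_on (hψfi.mono_set sdiff_subset) ((hfi _ sdiff_subset).const_mul _)
            (hCc.measurableSet.diff hK1c.measurableSet)
          intro z hz
          exact mul_le_mul_of_nonneg_right (hψoff z (hCΩ hz.1) hz.2) (hf0 z hz.1)
      _ = 2 * η * ∫ z in C \ K1, f z := integral_const_mul _ _
      _ ≤ 2 * η * ∫ z in C, f z := by
          apply mul_le_mul_of_nonneg_left _ (by positivity)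
          apply setIntegral_mono_set (hfi C subset_rfl)
          · exact (ae_restrict_iff' hCc.measurableSet).2 (Eventually.of_forall hf0)
          · exact Eventually.of_forall sdiff_subset
      _ ≤ 2 * η * (m0 + 1) := by gcongr
      _ ≤ I / 16 := hηI
  have hpart2 : ∫ z in K1, (-ψ z) * f z ≤ ∫ z in K1, f z := by
    apply setIntegral_mono_on (hψfi.mono_set hK1C) (hfi _ hK1C) hK1c.measurableSet
    intro z hz
    have h1 := rh_ge hηp z
    have h2 := hf0 z (hK1C hz)
    change (-rh η z) * f z ≤ f z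
    nlinarith
  -- the three parts of `K1`
  set T : Set (Cn 2) := {z : Cn 2 | ‖z 0‖ ^ 2 ≤ 1 - η ∧ ‖z 1‖ ≤ Real.exp (-(s : ℝ))} with hTdef
  set E : Set (Cn 2) := {z : Cn 2 | z ∈ K1 ∧ Real.exp (-(s : ℝ)) ≤ ‖z 1‖ ∧ V z ≤ -k + 1} with hE
  set A1 : Set (Cn 2) := KA ∩ {z | -k + 1 < V z} with hA1
  have hexp : Real.exp (-(s : ℝ)) ≤ 1 - η / 2 := by
    have h1 : Real.exp (-(s : ℝ)) ≤ Real.exp (-1) := Real.exp_le_exp.2 (by
      have : (1 : ℝ) ≤ s := by exact_mod_cast hs1
      linarith)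
    have h2 : Real.exp (-1) < 0.3678794412 := Real.exp_neg_one_lt_d9
    linarith
  have hTK1 : T ⊆ K1 := fun z hz => ⟨hz.1, hz.2.trans hexp⟩
  have hEK1 : E ⊆ K1 := fun z hz => hz.1
  have hA1K1 : A1 ⊆ K1 := fun z hz => hz.1.1
  have hK1eq : K1 ⊆ (T ∪ A1) ∪ E := by
    intro z hz
    by_cases h1 : ‖z 1‖ ≤ Real.exp (-(s : ℝ))
    · exact Or.inl (Or.inl ⟨hz.1, h1⟩)
    · by_cases h2 : V z ≤ -k + 1
      · exact Or.inr ⟨hz, (not_le.1 h1).le, h2⟩
      · exact Or.inl (Or.inr ⟨⟨hz, (not_le.1 h1).le⟩, not_le.1 h2⟩)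
  have hn0 : Continuous fun z : Cn 2 => ‖z 0‖ ^ 2 := by fun_prop
  have hTm : MeasurableSet T := ((isClosed_le hn0 continuous_const).inter
    (isClosed_le hn1 continuous_const)).measurableSet
  have hA1m : MeasurableSet A1 := hKAc.measurableSet.inter
    (isOpen_lt continuous_const hVs.continuous).measurableSet
  have hEm : MeasurableSet E := by
    have h1 : IsClosed {z : Cn 2 | Real.exp (-(s : ℝ)) ≤ ‖z 1‖ ∧ V z ≤ -k + 1} :=
      (isClosed_le continuous_const hn1).inter (isClosed_le hVs.continuous continuous_const)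
    exact (hK1c.inter_right h1).measurableSet
  have hpart3 : ∫ z in K1, f z ≤ ((∫ z in T, f z) + ∫ z in A1, f z) + ∫ z in E, f z := by
    have h1 : ∫ z in K1, f z ≤ ∫ z in (T ∪ A1) ∪ E, f z := by
      apply setIntegral_mono_set (hfi _ (union_subset (union_subset (hTK1.trans hK1C) (hA1K1.trans hK1C))
        (hEK1.trans hK1C)))
      · refine (ae_restrict_iff' ((hTm.union hA1m).union hEm)).2 (Eventually.of_forall fun z hz => ?_)
        exact hf0 z ((union_subset (union_subset (hTK1.trans hK1C) (hA1K1.trans hK1C))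
          (hEK1.trans hK1C)) hz)
      · exact Eventually.of_forall hK1eq
    refine h1.trans ((int_union_le (hTm.union hA1m) hEm
      (hfi _ (union_subset (hTK1.trans hK1C) (hA1K1.trans hK1C))) (hfi _ (hEK1.trans hK1C))
      (fun z hz => hf0 z (hK1C (hEK1 hz)))).trans ?_)
    gcongr
    exact int_union_le hTm hA1m (hfi _ (hTK1.trans hK1C)) (hfi _ (hA1K1.trans hK1C))
      (fun z hz => hf0 z (hK1C (hA1K1 hz)))
  have hpartA : ∫ z in A1, f z ≤ I / 16 := by
    have h1 : ∫ z in A1, f z = ∫ z in A1, maDensity V z := by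
      apply setIntegral_congr_fun hA1m
      intro z hz
      simp only [hf]
      rw [maDensity_eq, maDensity_eq, dt_trc_of_gt hVs.continuous hz.2]
    rw [h1]
    have h2 : ∫ z in A1, maDensity V z ≤ ∫ z in KA, maDensity V z := by
      apply setIntegral_mono_set ((maDensity_continuous hVs).continuousOn.integrableOn_compact hKAc)
      · refine (ae_restrict_iff' hKAc.measurableSet).2 (Eventually.of_forall fun z hz => ?_)
        exact maDensity_nonneg (hVp z (hK1C hz.1))
      · exact Eventually.of_forall inter_subset_left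
    have h3 := setInt_le_cut hVs hχAs.continuous hχAc hKAc hχAU (hA.psd i) (fun z => (hχA01 z).1)
      (fun _ => 1) (fun z hz => (hχA1 z hz).ge) continuous_const
      ((inter_subset_left.trans hK1C).trans hCU)
    simp only [one_mul] at h3
    exact h2.trans (h3.trans hAA.le)
  have hE' : ∫ z in E, f z ≤ I / 16 := hCap.trans hKI
  have hT'' : ∫ z in T, f z ≤ I / 16 := hTub
  have hLow' : I - I / 16 ≤ ∫ z in C, (-ψ z) * f z := hLow
  rw [hsplit] at hLow'
  linarith

end Pool.Agent.H220.F4
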