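import Mathlib
import Pool.Agent.H220.F4.Main

set_option autoImplicit false
set_option maxHeartbeats 1000000

open MeasureTheory Metric Set Filter Topology Matrix
open scoped ContDiff ComplexOrder

namespace Pool.Agent.H220.F4

open Pool.Agent.H805R2 Pool.Agent.H805R2.Gram

lemma Om_convex : Convex ℝ Om := by
  have h : ∀ i : Fin 2, Convex ℝ {z : Cn 2 | ‖z i‖ < 1} := by
    intro i
    have h1 := (convex_ball (0 : ℂ) 1).linear_preimage
      ((EuclideanSpace.proj i : Cn 2 →L[ℂ] ℂ).restrictScalars ℝ).toLinearMap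
    have h2 : {z : Cn 2 | ‖z i‖ < 1} =
        ((EuclideanSpace.proj i : Cn 2 →L[ℂ] ℂ).restrictScalars ℝ).toLinearMap ⁻¹' ball 0 1 := by
      apply Set.ext
      intro z
      rw [mem_preimage, mem_ball_zero_iff]
      rfl
    rw [h2]
    exact h1
  exact (h 0).inter (h 1)

/-- the case where all the functions of the sequence vanish -/
lemma case0 (hps1 : S_ps1) (hBl : S_Bl) {c : ℝ} (hc : 0 < c)
    {u : ℕ → Cn 2 → ℝ} {ν : ℕ → Measure (Cn 2)} (hE : ∀ j, IsE0 Om (u j) (ν j))
    (hconv : ∀ χ : Cn 2 → ℝ, Continuous χ → HasCompactSupport χ → tsupport χ ⊆ Om →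
      Tendsto (fun j => ∫ z, χ z ∂(ν j)) atTop (𝓝 (∫ z, χ z ∂(ENNReal.ofReal c • mu0))))
    (h0 : ∀ j, ∀ z ∈ Om, u j z = 0) : False := by
  have hpi := Real.pi_pos
  obtain ⟨hpss, hpsp, -⟩ := hps1 1 one_pos
  set χ : Cn 2 → ℝ := fun z => bl (-ps 1 z - 1 / 4) with hχ
  have hχc : Continuous χ := by
    have := bl_continuous
    have := hpss.continuous
    fun_prop
  set C : Set (Cn 2) := {z : Cn 2 | ‖z 0‖ ^ 2 ≤ 3 / 4 ∧ ‖z 1‖ ≤ Real.exp (-(1 * (1 / 4)))} with hC
  obtain ⟨hCc, hCΩ⟩ : IsCompact C ∧ C ⊆ Om := compact_box (by norm_num)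
    (by rw [Real.exp_lt_one_iff]; norm_num)
  have hoff : ∀ z, z ∉ C → -(1 / 4) ≤ ps 1 z := by
    intro z hz
    by_cases h0 : ‖z 0‖ ^ 2 ≤ 3 / 4
    · have h1 : Real.exp (-(1 * (1 / 4))) ≤ ‖z 1‖ := by
        by_contra h
        exact hz ⟨h0, (not_le.1 h).le⟩
      exact ps_ge1 one_pos h1
    · have := ps_ge0 one_pos z
      linarith [not_le.1 h0]
  have hχ0 : ∀ z, z ∉ C → χ z = 0 := fun z hz => bl_of_nonpos (by have := hoff z hz; linarith)
  have hts : tsupport χ ⊆ C := by
    apply closure_minimal _ hCc.isClosed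
    intro z hz
    by_contra h
    exact hz (hχ0 z h)
  have hχcs : HasCompactSupport χ := hCc.of_isClosed_subset (isClosed_tsupport _) hts
  set q : ℝ := 8 / Real.pi ^ 2 with hq
  have hqp : 0 < q := by positivity
  set A : ℝ := ∫ z in C, dt (ps 1) z with hA
  have hj : ∀ j, ∫ z, χ z ∂(ν j) ≤ 0 := by
    intro j
    obtain ⟨U, v, hAp, hCU⟩ := exists_appr (hE j) hCc hCΩ
    have hlim := hAp.conv χ hχc hχcs (hts.trans hCU)
    have hη : ∀ η : ℝ, 0 < η → ∫ z, χ z ∂(ν j) ≤ q * (η * (η * A)) := by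
      intro η hη
      obtain ⟨i0, hi0⟩ := hAp.lt η hη
      apply le_of_tendsto hlim
      filter_upwards [eventually_ge_atTop i0] with i hi
      set φ : Cn 2 → ℝ := fun z => v i z + (-η) with hφ
      have hvs := hAp.smooth i
      have hφs : ContDiff ℝ ∞ φ := hvs.add contDiff_const
      have hdφ : ∀ z, dt φ z = dt (v i) z := fun z => dt_add_const _ hvs z
      have h1 := hBl (ps 1) φ hpss hφs (1 / 4) η C hCc hoff (fun z _ => hpsp z)
        (fun z hz => by
          rw [hφ, hess_add_const _ hvs]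
          exact hAp.psd i z (hCU hz))
        (fun z hz => by
          have h2 := hAp.ge i z (hCΩ hz)
          rw [h0 j z (hCΩ hz)] at h2
          change -η ≤ v i z + (-η)
          linarith)
        (fun z _ => by
          have h2 := hi0 i hi z
          change v i z + (-η) ≤ 0
          linarith)
      have h2 : ∫ z in C, (-φ z) * dt (ps 1) z ≤ η * A := by
        rw [hA, ← integral_const_mul]
        apply setIntegral_mono_on (mul_dt_int hφs.continuous.neg hpss hCc)
          ((dt_int hpss hCc).const_mul _) hCc.measurableSet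
        intro z hz
        apply mul_le_mul_of_nonneg_right _ (dt_nonneg (hpsp z))
        have h2 := hAp.ge i z (hCΩ hz)
        rw [h0 j z (hCΩ hz)] at h2
        change -(v i z + (-η)) ≤ η
        linarith
      have h3 : ∫ z, χ z * maDensity (v i) z = q * ∫ z in C, bl (-ps 1 z - 1 / 4) * dt φ z := by
        rw [int_supp (Ω := C) (f := fun z => χ z * maDensity (v i) z) fun z hz => by rw [hχ0 z hz, zero_mul],
          int_ma]
        simp_rw [hdφ]
        rfl
      rw [h3]
      apply mul_le_mul_of_nonneg_left _ hqp.le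
      exact h1.trans (mul_le_mul_of_nonneg_left h2 hη.le)
    have hlim2 : Tendsto (fun η : ℝ => q * (η * (η * A))) (𝓝[>] 0) (𝓝 (q * (0 * (0 * A)))) := by
      apply Tendsto.mono_left _ nhdsWithin_le_nhds
      apply Continuous.tendsto (by fun_prop)
    have := ge_of_tendsto hlim2 (by
      filter_upwards [self_mem_nhdsWithin] with η hη' using hη η hη')
    simpa using this
  have hlim := hconv χ hχc hχcs (hts.trans hCΩ)
  have h1 : ∫ z, χ z ∂(ENNReal.ofReal c • mu0) ≤ 0 :=
    le_of_tendsto hlim (Eventually.of_forall hj)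
  rw [integral_all hc hχc] at h1
  have hax : ∀ ζ : ℂ, χ (vec ζ 0) = bl (3 / 4 - ‖ζ‖ ^ 2) := by
    intro ζ
    simp only [hχ, ps, vec_zero, vec_one, norm_zero]
    congr 1
    rw [zero_pow two_ne_zero, zero_add, Real.log_exp]
    ring
  have h2 : 0 < ∫ ζ in ball (0 : ℂ) 1, χ (vec ζ 0) := by
    have hcont : Continuous fun ζ : ℂ => χ (vec ζ 0) := hχc.comp vec_continuous
    rw [setIntegral_pos_iff_support_of_nonneg_ae]
    · have hsub : ball (0 : ℂ) (1 / 2) ⊆ Function.support (fun ζ : ℂ => χ (vec ζ 0)) ∩ ball 0 1 := by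
        intro ζ hζ
        have h3 : ‖ζ‖ < 1 / 2 := by simpa using hζ
        refine ⟨?_, by simpa using by linarith⟩
        rw [Function.mem_support, hax]
        apply (bl_pos _).ne'
        have h4 := norm_nonneg ζ
        nlinarith
      exact (measure_ball_pos volume 0 (by norm_num)).trans_le (measure_mono hsub)
    · exact Eventually.of_forall fun ζ => bl_nonneg _
    · exact (hcont.continuousOn.integrableOn_compact (isCompact_closedBall 0 1)).mono_set ball_subset_closedBall
  have h3 := mul_pos hc h2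
  linarith

/-- the main theorem, from the interface statements -/
theorem main (hBI : S_BI) (hL4 : S_L4) (hJ1 : S_J1) (hps1 : S_ps1) (hps2 : S_ps2) (hBl : S_Bl)
    (hP4 : S_P4) {c : ℝ} (hc : 0 < c) (φ : Cn 2 → EReal) :
    ¬ IsCegrellF Om φ (ENNReal.ofReal c • mu0) := by
  rintro ⟨-, hfin, u, ν, hE, hanti, -, ⟨M, hM⟩, hconv⟩
  by_cases h : ∃ j1, ∀ z ∈ Om, u j1 z < 0
  · obtain ⟨j1, hj1⟩ := h
    have H : Setting (fun j => u (j1 + j)) (fun j => ν (j1 + j)) (ENNReal.ofReal c • mu0) := by
      refine ⟨fun j => hE _, ?_, ⟨M, fun j => hM _⟩, hfin, ?_, ?_⟩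
      · intro z hz a b hab
        exact hanti z hz (by omega)
      · intro χ h1 h2 h3
        have := (hconv χ h1 h2 h3).comp (tendsto_add_atTop_nat j1)
        simpa [Function.comp_def, add_comm] using this
      · intro j z hz
        have h1 : u (j1 + j) z ≤ u j1 z := hanti z hz (by omega)
        exact h1.trans_lt (hj1 z hz)
    exact core hBI hL4 hJ1 hps1 hps2 hBl hP4 hc H
  · push Not at h
    have h0 : ∀ j, ∀ z ∈ Om, u j z = 0 := by
      intro j
      rcases strong_max isOpen_Om Om_convex.isPreconnected (hE j).1 (hE j).2.2.1 with h1 | h1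
      · exact h1
      · obtain ⟨z, hz, hz'⟩ := h j
        exact absurd (h1 z hz) (not_lt.2 hz')
    exact case0 hps1 hBl hc hE hconv h0

end Pool.Agent.H220.F4
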