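import Mathlib
import Pool.Agent.H220.F4.Stm

/-!
Proof of `S_J1` of the project H220/F4.
-/

set_option autoImplicit false
set_option maxHeartbeats 1000000

open MeasureTheory Metric Set Filter Topology Matrix
open scoped ContDiff ComplexOrder

namespace Pool.Agent.H220.F4.PJ1

open Pool.Agent.H805R2 Pool.Agent.H805R2.Gram Pool.Agent.H220.F4

lemma hh_smooth : ContDiff ℝ ∞ hh := by
  unfold hh
  have h1 : ContDiff ℝ ∞ (fun z : Cn 2 => z 0) := by fun_prop
  exact (h1.norm_sq ℝ).sub contDiff_const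

/-- the real hessian of `hh` -/
lemma hh_hasFDeriv (z : Cn 2) : HasFDerivAt hh
    (2 • ((innerSL ℝ (z 0)).comp
      ((EuclideanSpace.proj (0 : Fin 2) : Cn 2 →L[ℂ] ℂ).restrictScalars ℝ))) z := by
  have h1 : HasFDerivAt (fun z : Cn 2 => z 0)
      ((EuclideanSpace.proj (0 : Fin 2) : Cn 2 →L[ℂ] ℂ).restrictScalars ℝ) z :=
    ((EuclideanSpace.proj (0 : Fin 2) : Cn 2 →L[ℂ] ℂ).restrictScalars ℝ).hasFDerivAt
  have h2 := h1.norm_sq
  have h3 := h2.sub_const 1
  exact h3

lemma hh_D2 (z ξ ζ : Cn 2) : fderiv ℝ (fderiv ℝ hh) z ξ ζ = 2 * (inner ℝ (ξ 0) (ζ 0) : ℝ) := by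
  have h1 : ∀ y, fderiv ℝ hh y = (2 • ((innerSL ℝ (y 0)).comp
      ((EuclideanSpace.proj (0 : Fin 2) : Cn 2 →L[ℂ] ℂ).restrictScalars ℝ))) := fun y =>
    (hh_hasFDeriv y).fderiv
  have hd2 : DifferentiableAt ℝ (fderiv ℝ hh) z :=
    ((hh_smooth.fderiv_right (m := ∞) (by simp)).differentiable (by simp)).differentiableAt
  have h2 : HasFDerivAt (fun y => fderiv ℝ hh y ζ)
      ((ContinuousLinearMap.apply ℝ ℝ ζ).comp (fderiv ℝ (fderiv ℝ hh) z)) z :=
    (ContinuousLinearMap.apply ℝ ℝ ζ).hasFDerivAt.comp z hd2.hasFDerivAt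
  have h3 : (fun y : Cn 2 => fderiv ℝ hh y ζ) = fun y => 2 * (inner ℝ (y 0) (ζ 0) : ℝ) := by
    funext y
    rw [h1]
    simp [two_smul, two_mul]
  have h4 : HasFDerivAt (fun y : Cn 2 => 2 * (inner ℝ (y 0) (ζ 0) : ℝ))
      (2 • ((innerSL ℝ (ζ 0)).comp
        ((EuclideanSpace.proj (0 : Fin 2) : Cn 2 →L[ℂ] ℂ).restrictScalars ℝ))) z := by
    have h5 := (2 • ((innerSL ℝ (ζ 0)).comp
        ((EuclideanSpace.proj (0 : Fin 2) : Cn 2 →L[ℂ] ℂ).restrictScalars ℝ))).hasFDerivAt (x := z)
    refine h5.congr_of_eventuallyEq (Eventually.of_forall fun y => ?_)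
    simp [two_smul, two_mul, real_inner_comm]
  rw [h3] at h2
  have h6 := h2.unique h4
  have h7 := congrArg (fun L : Cn 2 →L[ℝ] ℝ => L ξ) h6
  simp only [ContinuousLinearMap.comp_apply, ContinuousLinearMap.apply_apply] at h7
  rw [h7]
  simp [two_smul, two_mul, real_inner_comm]

lemma hess_hh (z : Cn 2) : hess hh z = !![1, 0; 0, 0] := by
  have hs : ContDiff ℝ 2 hh := hh_smooth.of_le ss_le
  ext j k
  rw [hess_eq_sesq hs, sesq, hh_D2, hh_D2, hh_D2, hh_D2]
  fin_cases j <;> fin_cases k <;> simp [bas] <;> norm_num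

lemma trace_adj_hh (X : Matrix (Fin 2) (Fin 2) ℂ) (z : Cn 2) :
    (X.adjugate * hess hh z).trace = X 1 1 := by
  rw [hess_hh, Matrix.adjugate_fin_two, Matrix.trace_fin_two]
  simp [Matrix.mul_apply, Fin.sum_univ_two]

/-- for real functions `∂c` is the conjugate of `∂̄c` -/
lemma wd_eq_conj (j : Fin 2) {c : Cn 2 → ℝ} (hc : ContDiff ℝ ∞ c) (z : Cn 2) :
    wd j (fun y => ((c y : ℝ) : ℂ)) z = (starRingEnd ℂ) (wdb j (fun y => ((c y : ℝ) : ℂ)) z) := by
  have hd : ∀ y, DifferentiableAt ℝ c y := fun y => (hc.differentiable (by simp)).differentiableAt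
  rw [wd, wdb, fderiv_ofReal z _ (hd z), fderiv_ofReal z _ (hd z)]
  simp only [map_div₀, map_add, map_mul, Complex.conj_ofReal, Complex.conj_I]
  have : (starRingEnd ℂ) 2 = 2 := Complex.conj_ofNat 2
  rw [this]
  ring

lemma ibp_energy {c : Cn 2 → ℝ} (hc : ContDiff ℝ ∞ c) (hcs : HasCompactSupport c) :
    ∫ z, c z * (hess c z 1 1).re = - ∫ z, ‖wdb 1 (fun y => ((c y : ℝ) : ℂ)) z‖ ^ 2 := by
  set S : SR 2 := toSm c hc with hS
  have hCS : CS S := by
    unfold CS
    have : fn (toSm c hc) = fun z => (c z : ℂ) := rfl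
    rw [this]
    apply hcs.comp_left (g := fun x : ℝ => (x : ℂ))
    simp
  have h0 : intS (Dh 1 (S * Db 1 S)) = 0 := intS_Dh _ (CS_mul_left _ _ hCS) 1
  rw [Derivation.leibniz, smul_eq_mul, smul_eq_mul,
    intS_add _ _ (CS_mul_left _ _ hCS) (CS_mul_right _ _ (CS_wd _ hCS 1))] at h0
  have e1 : intS (S * Dh 1 (Db 1 S)) = ((∫ z, c z * (hess c z 1 1).re : ℝ) : ℂ) := by
    unfold intS
    rw [← integral_complex_ofReal]
    congr 1
    funext z
    rw [fn_mul, hS, fn_toSm, Dh_apply, fn_Db]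
    have h1 : wd 1 (wdb 1 (fn (toSm c hc))) z = hess c z 1 1 := rfl
    have h2 : hess c z 1 1 = (((hess c z 1 1).re : ℝ) : ℂ) := by
      rw [hess_eq_sesq (hc.of_le ss_le)]
      have hsymm : IsSymmSndFDerivAt ℝ c z :=
        ((hc).of_le (m := 2) ENat.LEInfty.out).contDiffAt.isSymmSndFDerivAt (by simp)
      have h3 := hsymm.eq (bas (1 : Fin 2)) (Complex.I • bas (1 : Fin 2))
      apply Complex.ext
      · simp
      · simp only [sesq, Complex.ofReal_im]
        rw [h3, sub_self]
        have : ((((fderiv ℝ (fderiv ℝ c) z) (bas 1)) (bas 1) +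
            ((fderiv ℝ (fderiv ℝ c) z) (Complex.I • bas 1)) (Complex.I • bas 1) : ℝ) : ℂ) / 4 =
            ((((((fderiv ℝ (fderiv ℝ c) z) (bas 1)) (bas 1) +
            ((fderiv ℝ (fderiv ℝ c) z) (Complex.I • bas 1)) (Complex.I • bas 1)) / 4 : ℝ)) : ℂ) := by
          push_cast; ring
        rw [Complex.ofReal_zero, mul_zero, add_zero, this, Complex.ofReal_im]
    rw [h1, h2]
    push_cast
    simp
  have e2 : intS (Db 1 S * Dh 1 S) =
      ((∫ z, ‖wdb 1 (fun y => ((c y : ℝ) : ℂ)) z‖ ^ 2 : ℝ) : ℂ) := by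
    unfold intS
    rw [← integral_complex_ofReal]
    congr 1
    funext z
    rw [fn_mul, Dh_apply, Db_apply]
    have h1 : fn S = fun y => ((c y : ℝ) : ℂ) := rfl
    rw [h1, wd_eq_conj 1 hc z, Complex.mul_conj, Complex.normSq_eq_norm_sq]
  rw [e1, e2] at h0
  have h3 := congrArg Complex.re h0
  simp only [Complex.add_re, Complex.ofReal_re, Complex.zero_re] at h3
  linarith

theorem s_J1 : S_J1 := by
  intro v hv R C hC hpsd hout
  set c : Cn 2 → ℝ := fun z => trc R v z - v z with hcdef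
  have hcsm : ContDiff ℝ ∞ c := (trc_smooth R hv).sub hv
  have hc0 : ∀ z, z ∉ C → c z = 0 := by
    intro z hz
    simp only [hcdef]
    rw [trc_of_ge (hout z hz), sub_self]
  have hts : tsupport c ⊆ C := by
    apply closure_minimal _ hC.isClosed
    intro z hz
    by_contra h
    exact hz (hc0 z h)
  have hcs : HasCompactSupport c := hC.of_isClosed_subset (isClosed_tsupport _) hts
  refine ⟨hcsm, hcs, hts, ?_⟩
  have hpath := path_formula v c hh hv hcsm hh_smooth hcs
  have e1 : (fun z => v z + c z) = trc R v := by funext z; simp [hcdef]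
  rw [e1] at hpath
  have hvc := hess_continuous (hv.of_le ss_le)
  have hcc := hess_continuous (hcsm.of_le ss_le)
  have hi : ∀ f : Cn 2 → ℝ, Continuous f → Integrable fun z => c z * f z := by
    intro f hf
    apply (hcsm.continuous.mul hf).integrable_of_hasCompactSupport
    exact hcs.mul_right
  have hv11 : Continuous fun z => (hess v z 1 1).re :=
    Complex.continuous_re.comp (hvc.matrix_elem 1 1)
  have hc11 : Continuous fun z => (hess c z 1 1).re :=
    Complex.continuous_re.comp (hcc.matrix_elem 1 1)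
  have hinner : ∀ τ : ℝ, ∫ z, c z * (((hess v z + (τ : ℂ) • hess c z).adjugate * hess hh z).trace).re =
      (∫ z, c z * (hess v z 1 1).re) + τ * ∫ z, c z * (hess c z 1 1).re := by
    intro τ
    rw [← integral_const_mul, ← integral_add (hi _ hv11) ((hi _ hc11).const_mul _)]
    congr 1
    funext z
    rw [trace_adj_hh]
    simp only [Matrix.add_apply, Matrix.smul_apply, smul_eq_mul, Complex.add_re,
      Complex.re_ofReal_mul]
    ring
  simp_rw [hinner] at hpath
  have hint : ∫ τ in (0 : ℝ)..1, ((∫ z, c z * (hess v z 1 1).re) + τ * ∫ z, c z * (hess c z 1 1).re) =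
      (∫ z, c z * (hess v z 1 1).re) + 1 / 2 * ∫ z, c z * (hess c z 1 1).re := by
    rw [intervalIntegral.integral_add (by simp) (by apply Continuous.intervalIntegrable; fun_prop),
      intervalIntegral.integral_mul_const]
    simp
  rw [hint] at hpath
  -- positivity
  have hpos : 0 ≤ (∫ z, c z * (hess v z 1 1).re) + ∫ z, c z * (hess c z 1 1).re := by
    rw [← integral_add (hi _ hv11) (hi _ hc11)]
    apply integral_nonneg
    intro z
    simp only [Pi.zero_apply]
    rw [← mul_add]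
    by_cases hz : z ∈ C
    · apply mul_nonneg
      · simp only [hcdef]
        have := le_chi R (v z)
        unfold trc
        linarith
      · have h1 := hess_add_smul v c hv hcsm 1 z
        simp only [one_mul, Complex.ofReal_one, one_smul] at h1
        rw [e1] at h1
        have h2 := trc_psd R hv (hpsd z hz)
        rw [h1] at h2
        have h3 := (Complex.nonneg_iff.1 (h2.diag_nonneg (i := 1))).1
        simpa using h3
    · rw [hc0 z hz, zero_mul]
  have hen := ibp_energy hcsm hcs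
  -- the integral over `C`
  have hdtv : Continuous (dt v) := dt_continuous hv
  have hdtt : Continuous (dt (trc R v)) := dt_continuous (trc_smooth R hv)
  have h1 : ∫ z, hh z * ((hess (trc R v) z).det.re - (hess v z).det.re) =
      ∫ z in C, hh z * ((hess (trc R v) z).det.re - (hess v z).det.re) := by
    refine (setIntegral_eq_integral_of_forall_compl_eq_zero fun z hz => ?_).symm
    rw [hess_eq_off v (trc R v) (fun h => hz (hts h)), sub_self, mul_zero]
  have h2 : ∫ z in C, hh z * ((hess (trc R v) z).det.re - (hess v z).det.re) =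
      (∫ z in C, (-hh z) * dt v z) - ∫ z in C, (-hh z) * dt (trc R v) z := by
    rw [← integral_sub]
    · congr 1
      funext z
      unfold dt
      ring
    · exact (hh_smooth.continuous.neg.mul hdtv).continuousOn.integrableOn_compact hC
    · exact (hh_smooth.continuous.neg.mul hdtt).continuousOn.integrableOn_compact hC
  rw [← h2, ← h1, hpath]
  have h3 : ∫ z, ‖wdb 1 (fun y => ((trc R v y - v y : ℝ) : ℂ)) z‖ ^ 2 =
      ∫ z, ‖wdb 1 (fun y => ((c y : ℝ) : ℂ)) z‖ ^ 2 := rfl
  rw [h3]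
  linarith

end Pool.Agent.H220.F4.PJ1

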