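import Mathlib
import Pool.Agent.H220.F4.Stm

set_option autoImplicit false

open MeasureTheory Metric Set Filter Topology
open scoped ContDiff ComplexOrder ComplexConjugate

namespace Pool.Agent.H220.F4.PKern

open Pool.Agent.H805R2 Pool.Agent.H805R2.Gram Pool.Agent.H220.F4

section Psh

attribute [local instance] InnerProductSpace.complexToReal

variable {n : ℕ} {E : Type} [NormedAddCommGroup E] [InnerProductSpace ℂ E]

/-- complex second derivative in the directions `ξ`, `ζ` -/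
noncomputable def A2 (e : Cn n → E) (z ζ : Cn n) : Cn n →L[ℂ] E := fderiv ℂ (fun y => fderiv ℂ e y ζ) z

lemma A2_I (e : Cn n → E) (he : ContDiff ℂ 2 e) (z ζ : Cn n) :
    A2 e z (Complex.I • ζ) (Complex.I • ζ) = - A2 e z ζ ζ := by
  have h1 : (fun y => fderiv ℂ e y (Complex.I • ζ)) = fun y => Complex.I • fderiv ℂ e y ζ := by
    funext y
    rw [map_smul]
  have hd : Differentiable ℂ (fderiv ℂ e) :=
    (he.fderiv_right (m := 1) (by norm_num)).differentiable (by norm_num)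
  have h2 : DifferentiableAt ℂ (fun y => fderiv ℂ e y ζ) z := by
    exact (hd z).clm_apply (differentiableAt_const ζ)
  unfold A2
  rw [h1, fderiv_fun_const_smul h2]
  simp only [smul_apply, map_smul]
  rw [smul_smul, Complex.I_mul_I, neg_one_smul]

lemma fd_normSq (e : Cn n → E) (he : ContDiff ℂ 2 e) (y ζ : Cn n) :
    fderiv ℝ (fun y => ‖e y‖ ^ 2) y ζ = 2 * (inner ℂ (e y) (fderiv ℂ e y ζ) : ℂ).re := by
  have hd : DifferentiableAt ℂ e y := (he.differentiable (by norm_num)) y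
  have h1 : HasFDerivAt e ((fderiv ℂ e y).restrictScalars ℝ) y := hd.hasFDerivAt.restrictScalars ℝ
  have h2 := h1.norm_sq
  rw [h2.fderiv]
  simp [real_inner_eq_re_inner ℂ]

lemma D2_normSq (e : Cn n → E) (he : ContDiff ℂ 2 e) (z ζ : Cn n) :
    D2 (fun y => ‖e y‖ ^ 2) z ζ ζ = 2 * ((inner ℂ (e z) (A2 e z ζ ζ) : ℂ).re +
      ‖fderiv ℂ e z ζ‖ ^ 2) := by
  have heR : ContDiff ℝ 2 e := he.restrict_scalars ℝ
  have hf : ContDiff ℝ 2 (fun y => ‖e y‖ ^ 2) := heR.norm_sq ℝ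
  have hfd : Differentiable ℝ (fderiv ℝ (fun y => ‖e y‖ ^ 2)) :=
    (hf.fderiv_right (m := 1) (by norm_num)).differentiable (by norm_num)
  have h0 : D2 (fun y => ‖e y‖ ^ 2) z ζ ζ =
      fderiv ℝ (fun y => fderiv ℝ (fun y => ‖e y‖ ^ 2) y ζ) z ζ := by
    unfold D2
    have h1 : HasFDerivAt (fun y => fderiv ℝ (fun y => ‖e y‖ ^ 2) y ζ)
        ((ContinuousLinearMap.apply ℝ ℝ ζ).comp (fderiv ℝ (fderiv ℝ (fun y => ‖e y‖ ^ 2)) z)) z :=
      (ContinuousLinearMap.apply ℝ ℝ ζ).hasFDerivAt.comp z (hfd z).hasFDerivAt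
    rw [h1.fderiv]
    rfl
  rw [h0]
  have h2 : (fun y => fderiv ℝ (fun y => ‖e y‖ ^ 2) y ζ) =
      fun y => 2 * (inner ℝ (e y) (fderiv ℂ e y ζ) : ℝ) := by
    funext y
    rw [fd_normSq e he y ζ, real_inner_eq_re_inner ℂ]
    rfl
  rw [h2]
  have hd : DifferentiableAt ℂ e z := (he.differentiable (by norm_num)) z
  have h3 : HasFDerivAt e ((fderiv ℂ e z).restrictScalars ℝ) z := hd.hasFDerivAt.restrictScalars ℝ
  have hdd : Differentiable ℂ (fderiv ℂ e) :=
    (he.fderiv_right (m := 1) (by norm_num)).differentiable (by norm_num)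
  have h4 : DifferentiableAt ℂ (fun y => fderiv ℂ e y ζ) z :=
    (hdd z).clm_apply (differentiableAt_const ζ)
  have h5 : HasFDerivAt (fun y => fderiv ℂ e y ζ) ((A2 e z ζ).restrictScalars ℝ) z :=
    h4.hasFDerivAt.restrictScalars ℝ
  have h6 := (h3.inner ℝ h5).const_mul 2
  rw [h6.fderiv]
  simp only [smul_apply, ContinuousLinearMap.comp_apply, ContinuousLinearMap.prod_apply,
    fderivInnerCLM_apply, ContinuousLinearMap.coe_restrictScalars', smul_eq_mul,
    real_inner_self_eq_norm_sq]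
  rfl

lemma levi_normSq (e : Cn n → E) (he : ContDiff ℂ 2 e) (z ζ : Cn n) :
    levi (fun y => ‖e y‖ ^ 2) z ζ = ‖fderiv ℂ e z ζ‖ ^ 2 := by
  unfold levi
  rw [D2_normSq e he, D2_normSq e he, A2_I e he, inner_neg_right, map_smul, norm_smul]
  simp only [Complex.neg_re, Complex.norm_I, one_mul]
  ring

lemma D2_log {f : Cn n → ℝ} (hf : ContDiff ℝ 2 f) (hp : ∀ z, 0 < f z) (z ξ ζ : Cn n) :
    D2 (fun y => Real.log (f y)) z ξ ζ =
      (f z)⁻¹ * D2 f z ξ ζ - ((f z) ^ 2)⁻¹ * (fderiv ℝ f z ξ * fderiv ℝ f z ζ) := by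
  have hfd : ∀ y, DifferentiableAt ℝ f y := fun y => (hf.differentiable (by norm_num)).differentiableAt
  have hfd2 : DifferentiableAt ℝ (fderiv ℝ f) z :=
    ((hf.fderiv_right (m := 1) (by norm_num)).differentiable (by norm_num)).differentiableAt
  have h1 : fderiv ℝ (fun y => Real.log (f y)) = fun y => (f y)⁻¹ • fderiv ℝ f y := by
    funext y
    exact ((hfd y).hasFDerivAt.log (hp y).ne').fderiv
  have h2 : HasFDerivAt (fun y => (f y)⁻¹) (-((f z) ^ 2)⁻¹ • fderiv ℝ f z) z :=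
    (hasDerivAt_inv (hp z).ne').comp_hasFDerivAt z (hfd z).hasFDerivAt
  have h3 : HasFDerivAt (fun y => (f y)⁻¹ • fderiv ℝ f y)
      ((f z)⁻¹ • fderiv ℝ (fderiv ℝ f) z + (-((f z) ^ 2)⁻¹ • fderiv ℝ f z).smulRight (fderiv ℝ f z)) z :=
    h2.smul hfd2.hasFDerivAt
  unfold D2
  rw [h1, h3.fderiv]
  simp only [add_apply, smul_apply, ContinuousLinearMap.smulRight_apply, smul_eq_mul]
  ring

lemma levi_log_nonneg (e : Cn n → E) (he : ContDiff ℂ 2 e) (hp : ∀ z, 0 < ‖e z‖ ^ 2) (z ζ : Cn n) :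
    0 ≤ levi (fun y => Real.log (‖e y‖ ^ 2)) z ζ := by
  have hf : ContDiff ℝ 2 (fun y => ‖e y‖ ^ 2) := (he.restrict_scalars ℝ).norm_sq ℝ
  have h1 : levi (fun y => Real.log (‖e y‖ ^ 2)) z ζ = (‖e z‖ ^ 2)⁻¹ * levi (fun y => ‖e y‖ ^ 2) z ζ -
      ((‖e z‖ ^ 2) ^ 2)⁻¹ * ((fderiv ℝ (fun y => ‖e y‖ ^ 2) z ζ) ^ 2 +
        (fderiv ℝ (fun y => ‖e y‖ ^ 2) z (Complex.I • ζ)) ^ 2) / 4 := by
    unfold levi
    rw [D2_log hf hp, D2_log hf hp]
    ring
  rw [h1, levi_normSq e he, fd_normSq e he, fd_normSq e he, map_smul, inner_smul_right]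
  set d := fderiv ℂ e z ζ
  have hcs : ‖(inner ℂ (e z) d : ℂ)‖ ^ 2 ≤ ‖e z‖ ^ 2 * ‖d‖ ^ 2 := by
    rw [← mul_pow]
    exact pow_le_pow_left₀ (norm_nonneg _) (norm_inner_le_norm _ _) 2
  rw [← Complex.normSq_eq_norm_sq, Complex.normSq_apply] at hcs
  simp only [Complex.mul_re, Complex.I_re, Complex.I_im, zero_mul, one_mul, zero_sub]
  have hp1 := hp z
  set N := ‖e z‖ ^ 2
  have h2 : N⁻¹ * ‖d‖ ^ 2 - (N ^ 2)⁻¹ * ((2 * (inner ℂ (e z) d : ℂ).re) ^ 2 +
      (2 * -(inner ℂ (e z) d : ℂ).im) ^ 2) / 4 = (N ^ 2)⁻¹ * (N * ‖d‖ ^ 2 -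
        ((inner ℂ (e z) d : ℂ).re * (inner ℂ (e z) d : ℂ).re +
        (inner ℂ (e z) d : ℂ).im * (inner ℂ (e z) d : ℂ).im)) := by
    field_simp
    ring
  rw [h2]
  exact mul_nonneg (by positivity) (by linarith)

end Psh

open Matrix

/-- index set of the polynomials starting at block `l` -/
abbrev Ix (L M : ℕ) (l : Fin L) : Type := {x : Fin L × Fin M // l ≤ x.1}

/-- monomials divided by `w^l` -/
noncomputable def mo {L M : ℕ} (l : Fin L) (x : Fin L × Fin M) (z : Cn 2) : ℂ :=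
  z 0 ^ (x.2 : ℕ) * z 1 ^ ((x.1 : ℕ) - l)

lemma sum_sub {L M : ℕ} (l : Fin L) (f : Fin L × Fin M → ℂ) (hf : ∀ x, x.1 < l → f x = 0) :
    ∑ x, f x = ∑ x : Ix L M l, f x.1 := by
  classical
  rw [← Finset.sum_subtype (Finset.univ.filter fun x : Fin L × Fin M => l ≤ x.1)
    (fun x => by simp) f]
  symm
  refine Finset.sum_subset (Finset.filter_subset _ _) fun x _ hx => hf x ?_
  simpa using hx

/-- orthonormal system -/
noncomputable def ev {L M : ℕ} (l : Fin L) (C : Matrix (Ix L M l) (Ix L M l) ℂ) (z : Cn 2) :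
    EuclideanSpace ℂ (Ix L M l) :=
  WithLp.toLp 2 fun i => ∑ x : Ix L M l, C x i * mo l x.1 z

lemma ev_smooth {L M : ℕ} (l : Fin L) (C : Matrix (Ix L M l) (Ix L M l) ℂ) : ContDiff ℂ ∞ (ev l C) := by
  rw [contDiff_euclidean]
  intro i
  unfold ev mo
  simp only
  fun_prop

lemma qf_real {ι : Type} [Fintype ι] [DecidableEq ι] {G C : Matrix ι ι ℂ} (h : Cᴴ * G * C = 1)
    (y : ι → ℂ) : qf G (C *ᵥ y) = ((∑ i, ‖y i‖ ^ 2 : ℝ) : ℂ) := by
  unfold qf
  have h1 : star (C *ᵥ y) ⬝ᵥ (G *ᵥ (C *ᵥ y)) = star y ⬝ᵥ ((Cᴴ * G * C) *ᵥ y) := by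
    rw [star_mulVec, ← dotProduct_mulVec, mulVec_mulVec, mulVec_mulVec, Matrix.mul_assoc]
  rw [h1, h, one_mulVec]
  simp only [dotProduct, Pi.star_apply, Complex.star_def]
  push_cast
  refine Finset.sum_congr rfl fun i _ => ?_
  rw [Complex.conj_mul']

theorem s_kern : S_kern := by
  intro L M G hM hG l
  set G' : Matrix (Ix L M l) (Ix L M l) ℂ := G.submatrix Subtype.val Subtype.val with hG'
  have hGp : G'.PosDef := hG.submatrix Subtype.val_injective
  obtain ⟨C, x0, hC, -⟩ := simul_diag G' G' hGp hGp.1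
  have hdet : IsUnit C.det := by
    have h1 := congrArg det hC
    rw [det_mul, det_one] at h1
    exact IsUnit.of_mul_eq_one_right _ h1
  have hCC : C * C⁻¹ = 1 := mul_nonsing_inv C hdet
  set B : Cn 2 → ℝ := fun z => ‖ev l C z‖ ^ 2 with hB
  have hBs : ∀ z, B z = ∑ i, ‖ev l C z i‖ ^ 2 := fun z => EuclideanSpace.norm_sq_eq _
  -- quadratic forms
  have hqf : ∀ c : Fin L × Fin M → ℂ, (∀ x, x.1 < l → c x = 0) →
      qf G c = qf G' (fun x => c x.1) := by
    intro c hc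
    unfold qf
    simp only [dotProduct, mulVec, hG', submatrix_apply, Pi.star_apply]
    rw [sum_sub l _ (fun x hx => by rw [hc x hx, star_zero, zero_mul])]
    refine Finset.sum_congr rfl fun x _ => ?_
    rw [sum_sub l _ (fun y hy => by rw [hc y hy, mul_zero])]
  have hQ : ∀ (z : Cn 2) (c : Fin L × Fin M → ℂ), (∀ x, x.1 < l → c x = 0) →
      ∑ x, c x * (z 0 ^ (x.2 : ℕ) * z 1 ^ ((x.1 : ℕ) - l)) = ∑ x : Ix L M l, c x.1 * mo l x.1 z := by
    intro z c hc
    rw [sum_sub l _ (fun x hx => by rw [hc x hx, zero_mul])]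
    rfl
  have hQy : ∀ (z : Cn 2) (y : Ix L M l → ℂ), ∑ x : Ix L M l, (C *ᵥ y) x * mo l x.1 z =
      ∑ i, y i * ev l C z i := by
    intro z y
    simp only [mulVec, dotProduct, ev, Finset.sum_mul, Finset.mul_sum]
    rw [Finset.sum_comm]
    refine Finset.sum_congr rfl fun i _ => Finset.sum_congr rfl fun x _ => ?_
    ring
  have hmain : ∀ (z : Cn 2) (c : Fin L × Fin M → ℂ), (∀ x, x.1 < l → c x = 0) →
      ‖∑ x, c x * (z 0 ^ (x.2 : ℕ) * z 1 ^ ((x.1 : ℕ) - l))‖ ^ 2 ≤ B z * (qf G c).re := by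
    intro z c hc
    rw [hqf c hc, hQ z c hc]
    set c' : Ix L M l → ℂ := fun x => c x.1 with hc'
    have hy : c' = C *ᵥ (C⁻¹ *ᵥ c') := by
      rw [mulVec_mulVec, hCC, one_mulVec]
    set y := C⁻¹ *ᵥ c' with hyd
    have e1 : ∑ x : Ix L M l, c x.1 * mo l x.1 z = ∑ i, y i * ev l C z i := by
      rw [← hQy z y, ← hy]
    rw [e1, hy, qf_real hC, Complex.ofReal_re, hBs]
    have h1 : ‖∑ i, y i * ev l C z i‖ ≤ ∑ i, ‖ev l C z i‖ * ‖y i‖ := by
      refine (norm_sum_le _ _).trans (le_of_eq ?_)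
      refine Finset.sum_congr rfl fun i _ => ?_
      rw [norm_mul, mul_comm]
    exact (pow_le_pow_left₀ (norm_nonneg _) h1 2).trans (Finset.sum_mul_sq_le_sq_mul_sq _ _ _)
  have hpos : ∀ z, 0 < B z := by
    intro z
    have h0 : 0 ≤ B z := by positivity
    rcases h0.eq_or_lt with h | h
    · exfalso
      set c : Fin L × Fin M → ℂ := Pi.single (l, ⟨0, hM⟩) 1 with hc
      have h1 := hmain z c (by
        intro x hx
        rw [hc, Pi.single_eq_of_ne]
        rintro rfl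
        exact lt_irrefl _ hx)
      rw [← h, zero_mul, Finset.sum_eq_single (l, ⟨0, hM⟩)] at h1
      · simp [hc] at h1
        linarith
      · intro b _ hb
        rw [hc, Pi.single_eq_of_ne hb, zero_mul]
      · intro h
        exact absurd (Finset.mem_univ _) h
    · exact h
  have hsm : ContDiff ℝ ∞ B := ((ev_smooth l C).restrict_scalars ℝ).norm_sq ℝ
  have hlog : ContDiff ℝ ∞ (fun z => Real.log (B z)) := hsm.log fun z => (hpos z).ne'
  refine ⟨B, hsm, hpos, hlog, fun z => ?_, hmain, fun z => ?_⟩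
  · rw [psd_iff hlog]
    intro ζ
    exact levi_log_nonneg (ev l C) ((ev_smooth l C).of_le (by norm_cast)) hpos z ζ
  · set y : Ix L M l → ℂ := fun i => conj (ev l C z i) with hy
    set c : Fin L × Fin M → ℂ := fun x => if h : l ≤ x.1 then (C *ᵥ y) ⟨x, h⟩ else 0 with hcd
    have hc : ∀ x : Fin L × Fin M, x.1 < l → c x = 0 := by
      intro x hx
      rw [hcd]
      simp only
      rw [dif_neg (not_le.2 hx)]
    have hcv : (fun x : Ix L M l => c x.1) = C *ᵥ y := by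
      funext x
      rw [hcd]
      simp only
      rw [dif_pos x.2]
    have hv : qf G c = ((B z : ℝ) : ℂ) := by
      rw [hqf c hc, hcv, qf_real hC, hBs]
      congr 1
      refine Finset.sum_congr rfl fun i _ => ?_
      rw [hy]
      simp only [RCLike.norm_conj]
    have hQv : ∑ x, c x * (z 0 ^ (x.2 : ℕ) * z 1 ^ ((x.1 : ℕ) - l)) = ((B z : ℝ) : ℂ) := by
      rw [hQ z c hc]
      have e2 : ∑ x : Ix L M l, c x.1 * mo l x.1 z = ∑ x : Ix L M l, (C *ᵥ y) x * mo l x.1 z := by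
        refine Finset.sum_congr rfl fun x _ => ?_
        rw [← hcv]
      rw [e2, hQy, hBs]
      push_cast
      refine Finset.sum_congr rfl fun i _ => ?_
      rw [hy]
      simp only
      rw [Complex.conj_mul']
    refine ⟨c, hc, ?_, ?_⟩
    · rw [hv, Complex.ofReal_re]
      exact hpos z
    · rw [hv, hQv, Complex.ofReal_re, Complex.norm_real, Real.norm_eq_abs, sq_abs]
      ring

end Pool.Agent.H220.F4.PKern
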