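import Mathlib
import Pool.Agent.H220.F4.Stm

/-! # S_L4 (helper225 for helper220) -/

set_option autoImplicit false
set_option maxHeartbeats 1000000

open MeasureTheory Metric Set Filter Topology Matrix
open scoped ContDiff ComplexOrder

namespace Pool.Agent.H220.F4.PL4

open Pool.Agent.H805R2 Pool.Agent.H805R2.Gram Pool.Agent.H220.F4

/-- a cutoff which loses little mass -/
lemma cutoff_mass {μ : Measure (Cn 2)} (hμ : μ Om < ⊤) (g : Cn 2 → ℝ) (hg : Continuous g)
    (hg0 : ∀ z ∈ Om, 0 ≤ g z) (ε : ℝ) (hε : 0 < ε) :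
    ∃ χ : Cn 2 → ℝ, ContDiff ℝ ∞ χ ∧ HasCompactSupport χ ∧ tsupport χ ⊆ Om ∧
      (∀ z, χ z ∈ Icc (0 : ℝ) 1) ∧ ∫ z in Om, g z ∂μ - ε ≤ ∫ z, χ z * g z ∂μ := by
  have hfin : IsFiniteMeasure (μ.restrict Om) := ⟨by rw [Measure.restrict_apply_univ]; exact hμ⟩
  obtain ⟨B, hB⟩ : ∃ B : ℝ, ∀ z ∈ closure Om, |g z| ≤ B := by
    have hc : IsCompact (closure Om) :=
      isCompact_of_isClosed_isBounded isClosed_closure Om_bounded.closure
    obtain ⟨B, hB⟩ := hc.exists_bound_of_continuousOn hg.continuousOn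
    exact ⟨B, fun z hz => by simpa using hB z hz⟩
  set B' := max B 0 + 1 with hB'
  have hB'0 : 0 < B' := by positivity
  have hBg : ∀ z ∈ Om, g z ≤ B' := by
    intro z hz
    have h1 := hB z (subset_closure hz)
    have h2 := le_abs_self (g z)
    have h3 := le_max_left B 0
    rw [hB']; linarith
  obtain ⟨K, hKO, hK, hKμ⟩ := isOpen_Om.measurableSet.exists_isCompact_sdiff_lt
    (μ := μ.restrict Om) (measure_ne_top _ _) (ε := ENNReal.ofReal (ε / B'))
    (by rw [Ne, ENNReal.ofReal_eq_zero, not_le]; positivity)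
  obtain ⟨χ, hχs, hχc, hχO, hχK, hχ01⟩ := cutoff hK isOpen_Om hKO
  refine ⟨χ, hχs, hχc, hχO, hχ01, ?_⟩
  have hgi : Integrable g (μ.restrict Om) := by
    refine Integrable.mono' (integrable_const B') hg.aestronglyMeasurable ?_
    refine (ae_restrict_iff' isOpen_Om.measurableSet).2 (Eventually.of_forall fun z hz => ?_)
    rw [Real.norm_eq_abs, abs_of_nonneg (hg0 z hz)]
    exact hBg z hz
  have hχgi : Integrable (fun z => χ z * g z) (μ.restrict Om) := by
    refine Integrable.mono' hgi (hχs.continuous.mul hg).aestronglyMeasurable ?_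
    refine (ae_restrict_iff' isOpen_Om.measurableSet).2 (Eventually.of_forall fun z hz => ?_)
    rw [Real.norm_eq_abs, abs_of_nonneg (mul_nonneg (hχ01 z).1 (hg0 z hz))]
    exact mul_le_of_le_one_left (hg0 z hz) (hχ01 z).2
  have e1 : ∫ z, χ z * g z ∂μ = ∫ z in Om, χ z * g z ∂μ := by
    apply int_supp
    intro z hz
    rw [image_eq_zero_of_notMem_tsupport (fun h' => hz (hχO h')), zero_mul]
  rw [e1]
  have e2 : ∫ z in Om, g z ∂μ - ∫ z in Om, χ z * g z ∂μ =
      ∫ z in Om, (g z - χ z * g z) ∂μ := (integral_sub hgi hχgi).symm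
  have e3 : ∫ z in Om, (g z - χ z * g z) ∂μ ≤ ∫ z in Om, (Om \ K).indicator (fun _ => B') z ∂μ := by
    apply integral_mono_ae (hgi.sub hχgi)
    · exact (integrable_const B').indicator (isOpen_Om.measurableSet.diff hK.measurableSet)
    · refine (ae_restrict_iff' isOpen_Om.measurableSet).2 (Eventually.of_forall fun z hz => ?_)
      by_cases hzK : z ∈ K
      · have : z ∉ Om \ K := fun h => h.2 hzK
        rw [indicator_of_notMem this]
        simp only [Pi.sub_apply]
        rw [hχK z hzK]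
        simp
      · rw [indicator_of_mem (show z ∈ Om \ K from ⟨hz, hzK⟩)]
        simp only [Pi.sub_apply]
        have h1 := hBg z hz
        have h2 := mul_nonneg (hχ01 z).1 (hg0 z hz)
        linarith
  have e4 : ∫ z in Om, (Om \ K).indicator (fun _ => B') z ∂μ ≤ ε := by
    rw [integral_indicator (isOpen_Om.measurableSet.diff hK.measurableSet), integral_const,
      smul_eq_mul, measureReal_restrict_apply_univ]
    have h1 : ((μ.restrict Om) (Om \ K)).toReal ≤ ε / B' := by
      have := ENNReal.toReal_mono ENNReal.ofReal_ne_top hKμ.le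
      rwa [ENNReal.toReal_ofReal (by positivity)] at this
    have h2 : (μ.restrict Om).real (Om \ K) ≤ ε / B' := h1
    calc (μ.restrict Om).real (Om \ K) * B' ≤ ε / B' * B' := by gcongr
      _ = ε := by field_simp
  linarith

/-- **S_L4** -/
theorem s_L4 : S_L4 := by
  intro u ν μ H ψ hψs hψp hψ0 ε hε
  have hψneg : ∀ z ∈ Om, 0 ≤ -ψ z := fun z hz => by have := hψ0 z hz; linarith
  -- step 1
  obtain ⟨χ, hχs, hχcs, hχO, hχ01, hχμ⟩ := cutoff_mass H.fin (fun z => -ψ z) hψs.continuous.neg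
    hψneg (ε / 4) (by positivity)
  set S := tsupport χ with hS
  have hSc : IsCompact S := hχcs.isCompact
  have hgc : Continuous (fun z => χ z * (-ψ z)) := hχs.continuous.mul hψs.continuous.neg
  have hgcs : HasCompactSupport (fun z => χ z * (-ψ z)) := hχcs.mul_right
  have hgS : tsupport (fun z => χ z * (-ψ z)) ⊆ S := tsupport_mul_subset_left
  -- step 2
  obtain ⟨j0, hj0⟩ : ∃ j0, ∫ z, χ z * (-ψ z) ∂μ - ε / 4 < ∫ z, χ z * (-ψ z) ∂(ν j0) :=
    ((H.conv _ hgc hgcs (hgS.trans hχO)).eventually (lt_mem_nhds (by linarith))).exists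
  -- step 3
  obtain ⟨α, hα, huα⟩ : ∃ α > 0, ∀ z ∈ S, u j0 z < -α := by
    obtain ⟨U, v, hv, hKU⟩ := exists_appr (H.e0 j0) hSc hχO
    obtain ⟨k, hk⟩ := dini_lt v (u j0) (fun _ => 0) hSc
      (fun k => (hv.smooth k).continuous.continuousOn) (fun z hz => hv.anti z (hKU hz))
      (fun z hz => hv.lim z (hKU hz)) continuousOn_const (fun z hz => H.neg j0 z (hχO hz))
    rcases S.eq_empty_or_nonempty with he | hne
    · exact ⟨1, one_pos, fun z hz => by rw [he] at hz; exact absurd hz (notMem_empty z)⟩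
    · obtain ⟨x, hx, hmax⟩ := hSc.exists_isMaxOn hne (hv.smooth k).continuous.continuousOn
      have hx0 := hk k le_rfl x hx
      refine ⟨-v k x / 2, by linarith, fun z hz => ?_⟩
      have h1 : v k z ≤ v k x := hmax hz
      have h2 := hv.ge k z (hχO hz)
      linarith
  obtain ⟨M1, hM1⟩ := (H.e0 j0).2.1
  set X : ℝ := ∫ z in Om, -ψ z ∂μ with hX
  set ε1 : ℝ := min 1 (ε / (12 * (|X| + 1))) with hε1
  have hε10 : 0 < ε1 := by positivity
  have hε11 : ε1 ≤ 1 := min_le_left _ _
  have hε1X : 3 * ε1 * |X| ≤ ε / 4 := by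
    have h1 : ε1 ≤ ε / (12 * (|X| + 1)) := min_le_right _ _
    rw [le_div_iff₀ (by positivity)] at h1
    nlinarith [abs_nonneg X]
  set e : ℝ := min (1 / 2) (ε1 * α / (2 * (3 + ε1))) with he
  have he0 : 0 < e := by positivity
  have he1 : e ≤ 1 / 2 := min_le_left _ _
  have he2 : e * (3 + ε1) < ε1 * α := by
    have h1 : e ≤ ε1 * α / (2 * (3 + ε1)) := min_le_right _ _
    rw [le_div_iff₀ (by positivity)] at h1
    have : 0 < ε1 * α := by positivity
    linarith
  have h1ε : 0 < 1 + ε1 := by linarith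
  refine ⟨j0, |M1| + 4, fun j hj R hR => ?_⟩
  -- step 4
  obtain ⟨Cj, hCj, hCjO, hCjθ⟩ := bdry_compact isOpen_Om Om_bounded (H.e0 j).2.2.2.1
    (e / (4 * (1 + ε1))) (by positivity)
  have hC0 : IsCompact (S ∪ Cj) := hSc.union hCj
  have hC0O : S ∪ Cj ⊆ Om := union_subset hχO hCjO
  refine ⟨S ∪ Cj, hC0, hC0O, fun U v hv hCU => ?_⟩
  obtain ⟨U0, w, hw, hCU0⟩ := exists_appr (H.e0 j0) hC0 hC0O
  have hSU0 : S ⊆ U0 := subset_union_left.trans hCU0
  have hSU : S ⊆ U := subset_union_left.trans hCU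
  obtain ⟨m1, hm1⟩ := hw.lt (e / 2) (by positivity)
  obtain ⟨m2, hm2⟩ := dini_lt w (u j0) (fun _ => -α) hSc
    (fun k => (hw.smooth k).continuous.continuousOn) (fun z hz => hw.anti z (hSU0 hz))
    (fun z hz => hw.lim z (hSU0 hz)) continuousOn_const huα
  obtain ⟨m, hmm, hm3⟩ : ∃ m, max m1 m2 ≤ m ∧ ∫ z, χ z * (-ψ z) ∂(ν j0) - ε / 4 <
      ∫ z, χ z * (-ψ z) * maDensity (w m) z := by
    have h1 := (hw.conv _ hgc hgcs (hgS.trans hSU0)).eventually
      (lt_mem_nhds (show ∫ z, χ z * (-ψ z) ∂(ν j0) - ε / 4 < ∫ z, χ z * (-ψ z) ∂(ν j0) by linarith))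
    obtain ⟨m, hm⟩ := (h1.and (eventually_ge_atTop (max m1 m2))).exists
    exact ⟨m, hm.2, hm.1⟩
  have hwm1 : ∀ z, w m z < e / 2 := hm1 m ((le_max_left _ _).trans hmm)
  have hwm2 : ∀ z ∈ S, w m z < -α := hm2 m ((le_max_right _ _).trans hmm)
  -- step 5
  obtain ⟨i0, hi0⟩ := dini_lt v (u j) (fun z => w m z + e) hSc
    (fun k => (hv.smooth k).continuous.continuousOn) (fun z hz => hv.anti z (hSU hz))
    (fun z hz => hv.lim z (hSU hz)) ((hw.smooth m).continuous.add continuous_const).continuousOn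
    (fun z hz => by
      have h1 : u j z ≤ u j0 z := H.anti z (hχO hz) hj
      have h2 := hw.ge m z (hχO hz)
      linarith)
  refine ⟨i0, fun i hi C hC hC0C hCU' => ?_⟩
  have hvi := hi0 i hi
  set a : Cn 2 → ℝ := fun z => w m z + (-e) with ha
  set b : Cn 2 → ℝ := fun z => (1 + ε1) * trc R (v i) z with hb
  have hts : ContDiff ℝ ∞ (trc R (v i)) := trc_smooth R (hv.smooth i)
  have has : ContDiff ℝ ∞ a := (hw.smooth m).add contDiff_const
  have hbs : ContDiff ℝ ∞ b := contDiff_const.mul hts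
  have hpa : ∀ z ∈ S ∪ Cj, (hess a z).PosSemidef := by
    intro z hz
    rw [ha, hess_add_const _ (hw.smooth m)]
    exact hw.psd m z (hCU0 hz)
  have hpt : ∀ z ∈ U, (hess (trc R (v i)) z).PosSemidef := fun z hz =>
    trc_psd R (hv.smooth i) (hv.psd i z hz)
  have hpb : ∀ z ∈ S ∪ Cj, (hess b z).PosSemidef := by
    intro z hz
    rw [hb, hess_const_mul _ hts]
    exact (hpt z (hCU hz)).smul (by exact_mod_cast h1ε.le)
  have hout : ∀ z, z ∉ S ∪ Cj → a z ≤ b z := by
    intro z hz
    simp only [ha, hb]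
    have h0 : v i z ≤ trc R (v i) z := le_chi R (v i z)
    by_cases hzO : z ∈ Om
    · have h1 := hwm1 z
      have h2 := hCjθ z hzO (fun h' => hz (Or.inr h'))
      have h3 := hv.ge i z hzO
      have h5 : -(e / (4 * (1 + ε1))) ≤ trc R (v i) z := by linarith
      have h6 := mul_le_mul_of_nonneg_left h5 h1ε.le
      have h7 : (1 + ε1) * -(e / (4 * (1 + ε1))) = -(e / 4) := by field_simp
      linarith
    · have h1 := hw.out m z hzO
      have h2 := hv.out i z hzO
      rw [h2] at h0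
      rw [h1]
      have h3 := mul_nonneg h1ε.le h0
      linarith
  have hSab : ∀ z ∈ S, b z + e / 8 < a z := by
    intro z hz
    simp only [ha, hb]
    have h1 := hvi z hz
    have h2 := hwm2 z hz
    have h3 : trc R (v i) z ≤ max (v i z) (-R + 1) := chi_le_max R (v i z)
    have h4 : -M1 ≤ w m z := (hM1 z (hχO hz)).trans (hw.ge m z (hχO hz))
    have h5 : M1 ≤ |M1| := le_abs_self M1
    have h6 := abs_nonneg M1
    have h7 := mul_le_mul_of_nonneg_left h3 h1ε.le
    rcases le_total (v i z) (-R + 1) with h | h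
    · rw [max_eq_right h] at h7
      nlinarith
    · rw [max_eq_left h] at h7
      nlinarith
  have hcomp := compG a b ψ has hbs hψs (S ∪ Cj) hC0 hpa hpb (fun z hz => hψp z (hC0O hz))
    (fun z hz => hψ0 z (hC0O hz)) hout (e / 8) (by positivity) S hSc.measurableSet
    subset_union_left hSab
  -- step 6
  have hpi := Real.pi_pos
  set Y : ℝ := ∫ z in S ∪ Cj, (-ψ z) * maDensity (trc R (v i)) z with hY
  have e1 : ∫ z in S, (-ψ z) * dt a z = Real.pi ^ 2 / 8 * ∫ z in S, (-ψ z) * maDensity (w m) z := by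
    rw [← integral_const_mul]
    apply setIntegral_congr_fun hSc.measurableSet
    intro z _
    simp only
    rw [maDensity_eq, ha, dt_add_const _ (hw.smooth m)]
    field_simp
  have e2 : ∫ z in S ∪ Cj, (-ψ z) * dt b z = Real.pi ^ 2 / 8 * ((1 + ε1) ^ 2 * Y) := by
    rw [hY, ← integral_const_mul, ← integral_const_mul]
    apply setIntegral_congr_fun hC0.measurableSet
    intro z _
    simp only
    rw [maDensity_eq, hb, dt_smul _ hts]
    field_simp
  rw [e1, e2] at hcomp
  have hcomp' : ∫ z in S, (-ψ z) * maDensity (w m) z ≤ (1 + ε1) ^ 2 * Y :=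
    le_of_mul_le_mul_left hcomp (by positivity)
  have hlhs : ∫ z, χ z * (-ψ z) * maDensity (w m) z ≤ ∫ z in S, (-ψ z) * maDensity (w m) z := by
    have e3 : ∫ z, χ z * (-ψ z) * maDensity (w m) z =
        ∫ z in S, χ z * (-ψ z) * maDensity (w m) z := by
      apply int_supp
      intro z hz
      rw [image_eq_zero_of_notMem_tsupport hz, zero_mul, zero_mul]
    rw [e3]
    apply setIntegral_mono_on _ _ hSc.measurableSet
    · intro z hz
      have h1 : 0 ≤ (-ψ z) * maDensity (w m) z :=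
        mul_nonneg (hψneg z (hχO hz)) (maDensity_nonneg (hw.psd m z (hSU0 hz)))
      rw [mul_assoc]
      exact mul_le_of_le_one_left h1 (hχ01 z).2
    · exact (hgc.mul (maDensity_continuous (hw.smooth m))).continuousOn.integrableOn_compact hSc
    · exact (hψs.continuous.neg.mul
        (maDensity_continuous (hw.smooth m))).continuousOn.integrableOn_compact hSc
  have hYC : Y ≤ ∫ z in C, (-ψ z) * maDensity (trc R (v i)) z := by
    rw [hY]
    apply setIntegral_mono_set
    · exact (hψs.continuous.neg.mul (maDensity_continuous hts)).continuousOn.integrableOn_compact hC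
    · refine (ae_restrict_iff' hC.measurableSet).2 (Eventually.of_forall fun z hz => ?_)
      exact mul_nonneg (hψneg z (hv.sub (hCU' hz))) (maDensity_nonneg (hpt z (hCU' hz)))
    · exact Eventually.of_forall hC0C
  have hXY : X - 3 * ε / 4 ≤ (1 + ε1) ^ 2 * Y := by linarith
  refine le_trans ?_ hYC
  rcases le_total X Y with h | h
  · linarith
  · have h1 : Y ≤ |X| := h.trans (le_abs_self X)
    have h2 : (1 + ε1) ^ 2 * Y = Y + (2 * ε1 + ε1 ^ 2) * Y := by ring
    have h3 : (2 * ε1 + ε1 ^ 2) * Y ≤ (2 * ε1 + ε1 ^ 2) * |X| := by gcongr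
    have h4 : (2 * ε1 + ε1 ^ 2) * |X| ≤ 3 * ε1 * |X| := by
      gcongr
      nlinarith
    linarith

end Pool.Agent.H220.F4.PL4
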