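import Mathlib
import Pool.Agent.H220.F4.Mu

set_option autoImplicit false

open MeasureTheory Metric Set Filter Topology Matrix
open scoped ContDiff ComplexOrder

namespace Pool.Agent.H220.F4

open Pool.Agent.H805R2

lemma lebDirac_eq : Measure.map (fun p : ℂ × ℂ => (!₂[p.1, p.2] : Cn 2))
    (((volume : Measure ℂ).restrict (ball 0 1)).prod (Measure.dirac 0)) = mu0 := by
  have hc : Continuous fun p : ℂ × ℂ => (!₂[p.1, p.2] : Cn 2) := by
    apply (PiLp.continuous_toLp 2 _).comp
    apply continuous_pi
    intro i
    fin_cases i
    · exact continuous_fst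
    · exact continuous_snd
  rw [Measure.prod_dirac, Measure.map_map hc.measurable (by fun_prop)]
  rfl

end Pool.Agent.H220.F4
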