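import Mathlib
import Pool.Agent.H220.F4.Stm

/-!
`S_P4`: assembly of the capacity estimate from `S_flag`, `S_wt`, `S_axis`, `S_grow`, `S_kern`.
-/

set_option autoImplicit false
set_option maxHeartbeats 1000000

open MeasureTheory Metric Set Filter Topology Matrix
open scoped ContDiff ComplexOrder

namespace Pool.Agent.H220.F4.PP4

open Pool.Agent.H220.F4 Pool.Agent.H805R2 Pool.Agent.H805R2.Gram

/-! ### Gram matrices -/

lemma mon_cont (L M : ℕ) (x : Fin L × Fin M) : Continuous fun z : Cn 2 => mon L M z x := by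
  unfold mon
  fun_prop

lemma norm_mon_le {L M : ℕ} {z : Cn 2} (hz : z ∈ Om) (x : Fin L × Fin M) : ‖mon L M z x‖ ≤ 1 := by
  unfold mon
  rw [norm_mul, norm_pow, norm_pow]
  exact mul_le_one₀ (pow_le_one₀ (norm_nonneg _) hz.1.le) (by positivity)
    (pow_le_one₀ (norm_nonneg _) hz.2.le)

lemma qf_GS {L M : ℕ} {W : Set (Cn 2)} (hW : MeasurableSet W) (hWO : W ⊆ Om) {Ψ : Cn 2 → ℝ}
    (hΨ : Continuous Ψ) {V : ℝ} (hV : ∀ z, |Ψ z| ≤ V) (σ : ℝ) (c : Fin L × Fin M → ℂ) :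
    qf (GS L M W Ψ σ) c =
      ((∫ z in W, ‖∑ x, c x * mon L M z x‖ ^ 2 * Real.exp (-2 * σ * Ψ z) : ℝ) : ℂ) ∧
    IntegrableOn (fun z => ‖∑ x, c x * mon L M z x‖ ^ 2 * Real.exp (-2 * σ * Ψ z)) W := by
  have : IsFiniteMeasure (volume.restrict W : Measure (Cn 2)) :=
    ⟨by rw [Measure.restrict_apply_univ]; exact (Om_bounded.subset hWO).measure_lt_top⟩
  have hae : ∀ᵐ z ∂(volume.restrict W : Measure (Cn 2)), ∀ α, ‖mon L M z α‖ ≤ 1 := by
    rw [ae_restrict_iff' hW]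
    exact Eventually.of_forall fun z hz α => norm_mon_le (hWO hz) α
  have h1 := qf_gram (volume.restrict W) (mon L M) (fun z => Real.exp (-2 * σ * Ψ z))
    (fun α => (mon_cont L M α).measurable) hae (by fun_prop) _ (exp_bd Ψ V σ hV) c
  have h2 := qf_integrable (volume.restrict W) (mon L M) (fun z => Real.exp (-2 * σ * Ψ z))
    (fun α => (mon_cont L M α).measurable) hae (by fun_prop) _ (exp_bd Ψ V σ hV) c
  exact ⟨h1, h2⟩

lemma GS_psd {L M : ℕ} {W : Set (Cn 2)} (hW : MeasurableSet W) (hWO : W ⊆ Om) {Ψ : Cn 2 → ℝ}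
    (hΨ : Continuous Ψ) {V : ℝ} (hV : ∀ z, |Ψ z| ≤ V) (σ : ℝ) : (GS L M W Ψ σ).PosSemidef := by
  refine Matrix.PosSemidef.of_dotProduct_mulVec_nonneg (gram_isHermitian _ _ _) ?_
  intro c
  have h := (qf_GS hW hWO hΨ hV σ c).1
  change 0 ≤ qf (GS L M W Ψ σ) c
  rw [h]
  have : 0 ≤ ∫ z in W, ‖∑ x, c x * mon L M z x‖ ^ 2 * Real.exp (-2 * σ * Ψ z) :=
    integral_nonneg fun z => by positivity
  exact_mod_cast this

lemma GS_mono {L M : ℕ} {W : Set (Cn 2)} (hW : MeasurableSet W) (hWO : W ⊆ Om) {Ψ : Cn 2 → ℝ}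
    (hΨ : Continuous Ψ) {V : ℝ} (hV : ∀ z, |Ψ z| ≤ V) (σ : ℝ) (c : Fin L × Fin M → ℂ) :
    (qf (GS L M W Ψ σ) c).re ≤ (qf (GS L M Om Ψ σ) c).re := by
  rw [(qf_GS hW hWO hΨ hV σ c).1, (qf_GS isOpen_Om.measurableSet le_rfl hΨ hV σ c).1,
    Complex.ofReal_re, Complex.ofReal_re]
  apply setIntegral_mono_set (qf_GS isOpen_Om.measurableSet le_rfl hΨ hV σ c).2
  · exact Eventually.of_forall fun y => by positivity
  · exact Filter.Eventually.of_forall hWO

lemma qf_diag {ι : Type*} [Fintype ι] [DecidableEq ι] (d : ι → ℝ) (c : ι → ℂ) :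
    qf (diagonal fun i => ((d i : ℝ) : ℂ)) c = ((∑ i, d i * ‖c i‖ ^ 2 : ℝ) : ℂ) := by
  unfold qf
  simp only [mulVec_diagonal, dotProduct, Pi.star_apply]
  push_cast
  apply Finset.sum_congr rfl
  intro i _
  have : ((‖c i‖ : ℝ) : ℂ) ^ 2 = star (c i) * c i := by
    rw [Complex.star_def, ← Complex.normSq_eq_conj_mul_self, Complex.normSq_eq_norm_sq]
    push_cast; ring
  rw [this]
  ring

lemma qf_add {ι : Type*} [Fintype ι] (A B : Matrix ι ι ℂ) (c : ι → ℂ) :
    qf (A + B) c = qf A c + qf B c := by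
  unfold qf
  rw [add_mulVec, dotProduct_add]

lemma ND_pd (h2 : S_wt) (L M : ℕ) (β : ℝ) : (ND L M β).PosDef := by
  unfold ND
  refine Matrix.PosDef.diagonal ?_
  intro x
  have := h2.1 β x.2
  exact_mod_cast this

lemma det_ND_re (L M : ℕ) (β : ℝ) : (ND L M β).det.re = ∏ x : Fin L × Fin M, wt β x.2 := by
  unfold ND
  rw [det_diagonal, ← Complex.ofReal_prod, Complex.ofReal_re]

lemma det_nd_re (M : ℕ) (β : ℝ) : (nd M β).det.re = ∏ a : Fin M, wt β a := by
  unfold nd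
  rw [det_diagonal, ← Complex.ofReal_prod, Complex.ofReal_re]

lemma log_det_ND (L M : ℕ) (β : ℝ) :
    Real.log (ND L M β).det.re = L * Real.log (nd M β).det.re := by
  rw [det_ND_re, det_nd_re, Fintype.prod_prod_type]
  simp

/-- Cauchy-Schwarz -/
lemma sum_norm_sq_le (h2 : S_wt) {L M : ℕ} {β : ℝ} (hβ : 0 ≤ β) (c : Fin L × Fin M → ℂ) :
    (∑ x, ‖c x‖) ^ 2 ≤ 4 * L * (M : ℝ) ^ 2 * (qf (ND L M β) c).re := by
  unfold ND
  rw [qf_diag, Complex.ofReal_re]
  have hw : ∀ x : Fin L × Fin M, 0 < wt β x.2 := fun x => h2.1 β x.2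
  have hcs := Finset.sum_mul_sq_le_sq_mul_sq Finset.univ
    (fun x : Fin L × Fin M => 1 / Real.sqrt (wt β x.2)) (fun x => Real.sqrt (wt β x.2) * ‖c x‖)
  have e1 : ∑ x : Fin L × Fin M, 1 / Real.sqrt (wt β x.2) * (Real.sqrt (wt β x.2) * ‖c x‖) =
      ∑ x, ‖c x‖ := by
    apply Finset.sum_congr rfl
    intro x _
    have := Real.sqrt_pos.2 (hw x)
    field_simp
  have e2 : ∀ x : Fin L × Fin M, (Real.sqrt (wt β x.2) * ‖c x‖) ^ 2 = wt β x.2 * ‖c x‖ ^ 2 := by
    intro x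
    rw [mul_pow, Real.sq_sqrt (hw x).le]
  have e3 : ∑ x : Fin L × Fin M, (1 / Real.sqrt (wt β x.2)) ^ 2 ≤ 4 * L * (M : ℝ) ^ 2 := by
    have : ∀ x ∈ (Finset.univ : Finset (Fin L × Fin M)), (1 / Real.sqrt (wt β x.2)) ^ 2 ≤ 4 * (M : ℝ) := by
      intro x _
      rw [div_pow, one_pow, Real.sq_sqrt (hw x).le]
      have h3 := h2.2.1 β x.2 hβ
      have h4 : ((x.2 : ℕ) : ℝ) + 1 ≤ M := by exact_mod_cast x.2.2
      have h5 : 1 / (4 * (M : ℝ)) ≤ wt β x.2 := by
        refine le_trans ?_ h3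
        apply one_div_le_one_div_of_le (by positivity)
        linarith
      have hM : (0 : ℝ) < M := lt_of_lt_of_le (by positivity) h4
      rw [div_le_iff₀ (hw x)]
      rw [div_le_iff₀ (by positivity)] at h5
      linarith
    refine (Finset.sum_le_sum this).trans ?_
    simp only [Finset.sum_const, Finset.card_univ, Fintype.card_prod, Fintype.card_fin, nsmul_eq_mul]
    push_cast
    nlinarith
  rw [e1] at hcs
  simp_rw [e2] at hcs
  refine hcs.trans ?_
  apply mul_le_mul_of_nonneg_right e3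
  exact Finset.sum_nonneg fun x _ => mul_nonneg (hw x).le (by positivity)

/-- the polynomial `Q_c` -/
noncomputable def Qp (L M : ℕ) (l : Fin L) (c : Fin L × Fin M → ℂ) (z : Cn 2) : ℂ :=
  ∑ x, c x * (z 0 ^ (x.2 : ℕ) * z 1 ^ ((x.1 : ℕ) - l))

lemma Qp_cont (L M : ℕ) (l : Fin L) (c : Fin L × Fin M → ℂ) : Continuous (Qp L M l c) := by
  unfold Qp
  fun_prop

lemma Qp_line (L M : ℕ) (l : Fin L) (c : Fin L × Fin M → ℂ) (x ζ : Cn 2) :
    Differentiable ℂ fun w : ℂ => Qp L M l c (x + w • ζ) := by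
  unfold Qp
  simp only [PiLp.add_apply, PiLp.smul_apply, smul_eq_mul]
  fun_prop

lemma Qp_mul (L M : ℕ) (l : Fin L) (c : Fin L × Fin M → ℂ) (hc : ∀ x, x.1 < l → c x = 0) (z : Cn 2) :
    z 1 ^ (l : ℕ) * Qp L M l c z = ∑ x, c x * mon L M z x := by
  unfold Qp mon
  rw [Finset.mul_sum]
  apply Finset.sum_congr rfl
  intro x _
  rcases lt_or_ge x.1 l with h | h
  · rw [hc x h]; ring
  · have e : (x.1 : ℕ) = (l : ℕ) + ((x.1 : ℕ) - l) := by
      have : (l : ℕ) ≤ x.1 := h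
      omega
    have e2 : z 1 ^ (x.1 : ℕ) = z 1 ^ (l : ℕ) * z 1 ^ ((x.1 : ℕ) - l) := by
      rw [← pow_add, ← e]
    rw [e2]
    ring

lemma norm_Qp_le {L M : ℕ} (l : Fin L) (c : Fin L × Fin M → ℂ) {z : Cn 2} (hz : z ∈ Om) :
    ‖Qp L M l c z‖ ≤ ∑ x, ‖c x‖ := by
  unfold Qp
  refine (norm_sum_le _ _).trans (Finset.sum_le_sum fun x _ => ?_)
  rw [norm_mul, norm_mul, norm_pow, norm_pow]
  have h1 : ‖z 0‖ ^ (x.2 : ℕ) ≤ 1 := pow_le_one₀ (norm_nonneg _) hz.1.le
  have h2 : ‖z 1‖ ^ ((x.1 : ℕ) - l) ≤ 1 := pow_le_one₀ (norm_nonneg _) hz.2.le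
  have h3 : ‖z 0‖ ^ (x.2 : ℕ) * ‖z 1‖ ^ ((x.1 : ℕ) - l) ≤ 1 := mul_le_one₀ h1 (by positivity) h2
  have := norm_nonneg (c x)
  nlinarith

lemma Qp_vec {L M : ℕ} (l : Fin L) (P : Fin L × Fin M → ℂ) (hP : ∀ b a, b < l → P (b, a) = 0) (ζ : ℂ) :
    Qp L M l P (vec ζ 0) = ∑ a, P (l, a) * ζ ^ (a : ℕ) := by
  unfold Qp
  rw [Fintype.sum_prod_type, Finset.sum_eq_single l]
  · apply Finset.sum_congr rfl
    intro a _
    simp [H220.F4.vec]
  · intro b _ hb
    apply Finset.sum_eq_zero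
    intro a _
    rcases lt_or_ge b l with h | h
    · rw [hP b a h, zero_mul]
    · have h1 : (b : ℕ) - (l : ℕ) ≠ 0 := by
        have h2 : (l : ℕ) ≤ b := h
        have h3 : (b : ℕ) ≠ l := fun h4 => hb (Fin.ext h4)
        omega
      simp [H220.F4.vec, h1]
  · intro h
    exact absurd (Finset.mem_univ l) h

lemma psd_sum {ι : Type*} (S : Finset ι) (f : ι → Cn 2 → ℝ) (hf : ∀ i, ContDiff ℝ ∞ (f i))
    (hp : ∀ i z, (hess (f i) z).PosSemidef) :
    ContDiff ℝ ∞ (fun z => ∑ i ∈ S, f i z) ∧ ∀ z, (hess (fun z => ∑ i ∈ S, f i z) z).PosSemidef := by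
  classical
  induction S using Finset.induction_on with
  | empty =>
    refine ⟨by simpa using contDiff_const, fun z => ?_⟩
    simp only [Finset.sum_empty]
    rw [hess_const_zero]
    exact Matrix.PosSemidef.zero
  | insert a S ha ih =>
    have e : (fun z => ∑ i ∈ insert a S, f i z) = fun z => f a z + ∑ i ∈ S, f i z := by
      funext z
      rw [Finset.sum_insert ha]
    rw [e]
    refine ⟨(hf a).add ih.1, fun z => ?_⟩
    rw [psd_iff ((hf a).add ih.1)]
    intro ζ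
    rw [levi_add ((hf a).of_le ss_le) (ih.1.of_le ss_le)]
    exact add_nonneg ((psd_iff (hf a) z).1 (hp a z) ζ) ((psd_iff ih.1 z).1 (ih.2 z) ζ)


lemma continuous_vec : Continuous fun ζ : ℂ => H220.F4.vec ζ 0 := by
  unfold H220.F4.vec
  fun_prop

/-- the estimates for fixed parameters -/
theorem core (h1 : S_flag) (h2 : S_wt) (h3 : S_axis) (h5 : S_kern) (s : ℕ) (hs : 1 ≤ s)
    (Ψ : Cn 2 → ℝ) (hΨ : ContDiff ℝ ∞ Ψ) (V : ℝ) (hV : ∀ z, |Ψ z| ≤ V)
    (E : Set (Cn 2)) (ρ : ℝ) (hρ : 0 < ρ) (hE : ∀ x ∈ E, closedBall x ρ ⊆ Om ∧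
      ∀ y ∈ closedBall x ρ, Real.exp (-2 * s) < ‖y 1‖ ∧ Ψ y ≤ -(3 / 4))
    (L N M : ℕ) (hL : 1 ≤ L) (hN : N = 8 * s * L) (hM : M = 4 * N) (β : ℝ)
    (hβ1 : 2 * Real.pi ≤ β) (hβ2 : β ≤ 2 * N)
    (hvol : -Real.log ((volume : Measure (Cn 2)).real (closedBall 0 ρ)) ≤ N / 2)
    (T : ℝ) (hT : Real.log (ND L M β + GS L M Om Ψ N).det.re - Real.log (ND L M β).det.re ≤ T) :
    ∃ v : Cn 2 → ℝ, ContDiff ℝ ∞ v ∧ (∀ z, (hess v z).PosSemidef) ∧
      (∀ z ∈ Om, v z ≤ 0) ∧ (∀ z ∈ E, v z ≤ -(1 / 4)) ∧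
      ∫ ζ in ball (0 : ℂ) 1, -v (H220.F4.vec ζ 0) ≤ Real.pi * β / (4 * N) + Real.pi / (β * N * L) * T +
        Real.pi * (1 / (2 * N) * Real.log (4 * L * (M : ℝ) ^ 2)) := by
  have hpi := Real.pi_pos
  have hN1 : 1 ≤ N := by
    rw [hN]
    exact Nat.one_le_iff_ne_zero.2 (by positivity)
  have hM1 : 1 ≤ M := by omega
  have hN0 : (0 : ℝ) < N := by exact_mod_cast hN1
  have hL0 : (0 : ℝ) < L := by exact_mod_cast hL
  have hM0 : (0 : ℝ) < M := by exact_mod_cast hM1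
  have hβ0 : 0 < β := by linarith
  have hΨc : Continuous Ψ := hΨ.continuous
  set A : Set (Cn 2) := {z | z ∈ Om ∧ Real.exp (-2 * s) < ‖z 1‖} with hA
  have hAm : MeasurableSet A := by
    have : IsOpen {z : Cn 2 | Real.exp (-2 * s) < ‖z 1‖} := isOpen_lt continuous_const (by fun_prop)
    exact (isOpen_Om.inter this).measurableSet
  have hAO : A ⊆ Om := fun z hz => hz.1
  set G := ND L M β + GS L M A Ψ N with hG
  have hGpd : G.PosDef := (ND_pd h2 L M β).add_posSemidef (GS_psd hAm hAO hΨc hV N)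
  have hGO : (ND L M β + GS L M Om Ψ N).PosDef :=
    (ND_pd h2 L M β).add_posSemidef (GS_psd isOpen_Om.measurableSet le_rfl hΨc hV N)
  have hGSnn : ∀ c, 0 ≤ (qf (GS L M A Ψ N) c).re := fun c =>
    (Complex.nonneg_iff.1 ((GS_psd hAm hAO hΨc hV N).dotProduct_mulVec_nonneg c)).1
  have hNDnn : ∀ c, 0 ≤ (qf (ND L M β) c).re := fun c =>
    (Complex.nonneg_iff.1 ((ND_pd h2 L M β).posSemidef.dotProduct_mulVec_nonneg c)).1
  have hGq : ∀ c, (qf G c).re = (qf (ND L M β) c).re + (qf (GS L M A Ψ N) c).re := by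
    intro c
    rw [hG, qf_add, Complex.add_re]
  have hdetG : Real.log G.det.re - Real.log (ND L M β).det.re ≤ T := by
    refine le_trans ?_ hT
    have hGp := hGpd.det_pos
    obtain ⟨hGre, -⟩ := Complex.pos_iff.1 hGp
    have := Real.log_le_log hGre (det_mono _ G hGO hGpd.posSemidef fun c => by
      rw [hGq, qf_add, Complex.add_re]
      have := GS_mono (M := M) (L := L) hAm hAO hΨc hV N c
      linarith)
    linarith
  obtain ⟨nn, hnn, hdet, hP⟩ := h1 L M G hGpd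
  choose B hBs hBp hBl hBh hBle hBex using fun l => h5 L M G hM1 hGpd l
  set εN := 1 / (2 * (N : ℝ)) * Real.log (4 * L * (M : ℝ) ^ 2) with hεN
  have h4LM : 1 ≤ 4 * L * (M : ℝ) ^ 2 := by
    have e1 : (1 : ℝ) ≤ L := by exact_mod_cast hL
    have e2 : (1 : ℝ) ≤ M := by exact_mod_cast hM1
    nlinarith
  have hεN0 : 0 ≤ εN := mul_nonneg (by positivity) (Real.log_nonneg h4LM)
  -- upper bound on `Om`
  have hb : ∀ l, ∀ z ∈ Om, B l z ≤ 4 * L * (M : ℝ) ^ 2 := by
    intro l z hz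
    obtain ⟨c, hc1, hc2, hc3⟩ := hBex l z
    have e1 : ‖Qp L M l c z‖ ^ 2 = B l z * (qf G c).re := hc3
    have e2 := norm_Qp_le l c hz
    have e3 := sum_norm_sq_le h2 hβ0.le c
    have e4 : ‖Qp L M l c z‖ ^ 2 ≤ (∑ x, ‖c x‖) ^ 2 := pow_le_pow_left₀ (norm_nonneg _) e2 2
    have e5 : (qf (ND L M β) c).re ≤ (qf G c).re := by
      rw [hGq]
      linarith [hGSnn c]
    have e6 : B l z * (qf G c).re ≤ 4 * L * (M : ℝ) ^ 2 * (qf G c).re := by
      rw [← e1]
      refine e4.trans (e3.trans ?_)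
      exact mul_le_mul_of_nonneg_left e5 (by linarith)
    exact le_of_mul_le_mul_right e6 hc2
  -- upper bound on `E`
  set vρ := (volume : Measure (Cn 2)).real (closedBall 0 ρ) with hvρ
  have hvρ0 : 0 < vρ := by
    rw [hvρ, Measure.real]
    apply ENNReal.toReal_pos
    · exact (measure_closedBall_pos _ _ hρ).ne'
    · exact measure_closedBall_lt_top.ne
  have hc : ∀ l, ∀ z ∈ E, vρ * B l z ≤ Real.exp (-N) := by
    intro l x hx
    obtain ⟨hx1, hx2⟩ := hE x hx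
    obtain ⟨c, hc1, hc2, hc3⟩ := hBex l x
    have e1 : ‖Qp L M l c x‖ ^ 2 = B l x * (qf G c).re := hc3
    have e2 := mean_ball (Qp L M l c) (Qp_cont L M l c) x (Qp_line L M l c x) ρ
    obtain ⟨e3, e4⟩ := qf_GS (M := M) (L := L) hAm hAO hΨc hV N c
    have hballA : closedBall x ρ ⊆ A := fun y hy => ⟨hx1 hy, (hx2 y hy).1⟩
    have hpc := Qp_cont L M l c
    have e5 : ∫ y in closedBall x ρ, ‖Qp L M l c y‖ ^ 2 ≤
        ∫ y in closedBall x ρ, Real.exp (-N) * (‖∑ x, c x * mon L M y x‖ ^ 2 * Real.exp (-2 * N * Ψ y)) := by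
      apply setIntegral_mono_on _ ((e4.mono_set hballA).const_mul _) measurableSet_closedBall
      · intro y hy
        obtain ⟨hy1, hy2⟩ := hx2 y hy
        rw [← Qp_mul L M l c hc1 y, norm_mul, norm_pow]
        have f1 : Real.exp (-N / 2) ≤ (‖y 1‖ ^ (l : ℕ)) ^ 2 := by
          have g1 : Real.exp (-2 * s) ^ (l : ℕ) ≤ ‖y 1‖ ^ (l : ℕ) :=
            pow_le_pow_left₀ (Real.exp_pos _).le hy1.le _
          have g2 : (Real.exp (-2 * s) ^ (l : ℕ)) ^ 2 ≤ (‖y 1‖ ^ (l : ℕ)) ^ 2 :=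
            pow_le_pow_left₀ (by positivity) g1 2
          refine le_trans ?_ g2
          rw [← Real.exp_nat_mul, ← Real.exp_nat_mul, Real.exp_le_exp, hN]
          push_cast
          have g3 : ((l : ℕ) : ℝ) ≤ L := by exact_mod_cast l.2.le
          have g4 : (0 : ℝ) ≤ s := by positivity
          nlinarith
        have f2 : Real.exp (3 * N / 2) ≤ Real.exp (-2 * N * Ψ y) := by
          apply Real.exp_le_exp.2
          nlinarith
        have f3 : 1 ≤ Real.exp (-N) * ((‖y 1‖ ^ (l : ℕ)) ^ 2 * Real.exp (-2 * N * Ψ y)) := by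
          calc (1 : ℝ) = Real.exp (-N) * (Real.exp (-N / 2) * Real.exp (3 * N / 2)) := by
                rw [← Real.exp_add, ← Real.exp_add]
                symm
                rw [Real.exp_eq_one_iff]
                ring
            _ ≤ _ := by gcongr
        have f4 : 0 ≤ ‖Qp L M l c y‖ ^ 2 := by positivity
        calc ‖Qp L M l c y‖ ^ 2 = ‖Qp L M l c y‖ ^ 2 * 1 := (mul_one _).symm
          _ ≤ ‖Qp L M l c y‖ ^ 2 *
              (Real.exp (-N) * ((‖y 1‖ ^ (l : ℕ)) ^ 2 * Real.exp (-2 * N * Ψ y))) :=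
              mul_le_mul_of_nonneg_left f3 f4
          _ = _ := by ring
      · have : Continuous fun y => ‖Qp L M l c y‖ ^ 2 := by fun_prop
        exact this.continuousOn.integrableOn_compact (isCompact_closedBall _ _)
    rw [integral_const_mul] at e5
    have e6 : ∫ y in closedBall x ρ, (‖∑ x, c x * mon L M y x‖ ^ 2 * Real.exp (-2 * N * Ψ y)) ≤
        (qf G c).re := by
      rw [hGq, e3, Complex.ofReal_re]
      have : ∫ y in closedBall x ρ, (‖∑ x, c x * mon L M y x‖ ^ 2 * Real.exp (-2 * N * Ψ y)) ≤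
          ∫ y in A, (‖∑ x, c x * mon L M y x‖ ^ 2 * Real.exp (-2 * N * Ψ y)) := by
        apply setIntegral_mono_set e4
        · exact Eventually.of_forall fun y => by positivity
        · exact Filter.Eventually.of_forall hballA
      linarith [hNDnn c]
    have e7 : vρ * B l x * (qf G c).re ≤ Real.exp (-N) * (qf G c).re := by
      calc vρ * B l x * (qf G c).re = vρ * ‖Qp L M l c x‖ ^ 2 := by rw [e1]; ring
        _ ≤ _ := e2.trans (e5.trans (mul_le_mul_of_nonneg_left e6 (Real.exp_pos _).le))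
    exact le_of_mul_le_mul_right e7 hc2
  -- the axis
  have hd : ∀ l, -(β * Real.pi / 2) - 2 * Real.pi / β * (Real.log (nn l).det.re - Real.log (nd M β).det.re) ≤
      ∫ ζ in ball (0 : ℂ) 1, Real.log (B l (H220.F4.vec ζ 0)) := by
    intro l
    apply h3 N M β hN1 (by omega) hβ1 hβ2 (nn l) (hnn l)
    · intro p
      obtain ⟨P, hP1, hP2, hP3⟩ := hP l p
      rw [← hP3, hGq]
      have e1 : (qf (nd M β) p).re ≤ (qf (ND L M β) P).re := by
        unfold nd ND
        rw [qf_diag, qf_diag, Complex.ofReal_re, Complex.ofReal_re, Fintype.sum_prod_type]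
        have := Finset.single_le_sum (f := fun b : Fin L => ∑ a : Fin M, wt β a * ‖P (b, a)‖ ^ 2)
          (fun b _ => Finset.sum_nonneg fun a _ => mul_nonneg (h2.1 β a).le (by positivity))
          (Finset.mem_univ l)
        refine le_trans (le_of_eq ?_) this
        apply Finset.sum_congr rfl
        intro a _
        rw [hP2 a]
      linarith [hGSnn P]
    · exact (hBs l).continuous.comp continuous_vec
    · intro ζ
      exact hBp l _
    · intro ζ p
      obtain ⟨P, hP1, hP2, hP3⟩ := hP l p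
      rw [← hP3]
      have e1 := hBle l (H220.F4.vec ζ 0) P (fun x hx => hP1 x.1 x.2 hx)
      have e2 : ‖Qp L M l P (H220.F4.vec ζ 0)‖ ^ 2 ≤ B l (H220.F4.vec ζ 0) * (qf G P).re := e1
      rw [Qp_vec l P hP1] at e2
      refine le_trans (le_of_eq ?_) e2
      congr 2
      apply Finset.sum_congr rfl
      intro a _
      rw [hP2 a]
  -- determinants
  have hdetsum : Real.log G.det.re = ∑ l, Real.log (nn l).det.re := by
    have e1 : ∀ l, (nn l).det = (((nn l).det.re : ℝ) : ℂ) := by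
      intro l
      obtain ⟨-, h⟩ := Complex.pos_iff.1 (hnn l).det_pos
      apply Complex.ext
      · simp
      · simp only [Complex.ofReal_im]
        exact h.symm
    have e2 : G.det.re = ∏ l, (nn l).det.re := by
      rw [hdet, Finset.prod_congr rfl fun l _ => e1 l, ← Complex.ofReal_prod, Complex.ofReal_re]
    rw [e2, Real.log_prod]
    intro l _
    exact (Complex.pos_iff.1 (hnn l).det_pos).1.ne'
  have hsum : -(L * (β * Real.pi / 2)) - 2 * Real.pi / β * T ≤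
      ∑ l, ∫ ζ in ball (0 : ℂ) 1, Real.log (B l (H220.F4.vec ζ 0)) := by
    have e1 := Finset.sum_le_sum fun l (_ : l ∈ Finset.univ) => hd l
    refine le_trans ?_ e1
    rw [Finset.sum_sub_distrib, ← Finset.mul_sum, Finset.sum_sub_distrib, ← hdetsum]
    simp only [Finset.sum_const, Finset.card_univ, Fintype.card_fin, nsmul_eq_mul]
    rw [← log_det_ND]
    have e2 : 2 * Real.pi / β * (Real.log G.det.re - Real.log (ND L M β).det.re) ≤ 2 * Real.pi / β * T :=
      mul_le_mul_of_nonneg_left hdetG (by positivity)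
    linarith
  -- the function
  obtain ⟨hSs, hSp⟩ := psd_sum (Finset.univ : Finset (Fin L)) (fun l z => Real.log (B l z)) hBl hBh
  refine ⟨fun z => 1 / (L * (2 * (N : ℝ))) * ∑ l, Real.log (B l z) + (-εN),
    (contDiff_const.mul hSs).add contDiff_const, ?_, ?_, ?_, ?_⟩
  · intro z
    rw [hess_add_const _ (contDiff_const.mul hSs), hess_const_mul _ hSs]
    apply (hSp z).smul
    have : (0 : ℝ) ≤ 1 / (L * (2 * (N : ℝ))) := by positivity
    exact_mod_cast this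
  · intro z hz
    have e1 : ∑ l, Real.log (B l z) ≤ L * Real.log (4 * L * (M : ℝ) ^ 2) := by
      have := Finset.sum_le_sum fun l (_ : l ∈ (Finset.univ : Finset (Fin L))) =>
        Real.log_le_log (hBp l z) (hb l z hz)
      refine this.trans (le_of_eq ?_)
      simp
    have e2 : 1 / (L * (2 * (N : ℝ))) * ∑ l, Real.log (B l z) ≤
        1 / (L * (2 * (N : ℝ))) * (L * Real.log (4 * L * (M : ℝ) ^ 2)) :=
      mul_le_mul_of_nonneg_left e1 (by positivity)
    have e3 : 1 / (L * (2 * (N : ℝ))) * (L * Real.log (4 * L * (M : ℝ) ^ 2)) = εN := by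
      rw [hεN]
      field_simp
    linarith
  · intro z hz
    have e0 : ∀ l, Real.log (B l z) ≤ -(N / 2 : ℝ) := by
      intro l
      have := Real.log_le_log (mul_pos hvρ0 (hBp l z)) (hc l z hz)
      rw [Real.log_exp, Real.log_mul hvρ0.ne' (hBp l z).ne'] at this
      linarith
    have e1 : ∑ l, Real.log (B l z) ≤ L * -(N / 2 : ℝ) := by
      have := Finset.sum_le_sum fun l (_ : l ∈ (Finset.univ : Finset (Fin L))) => e0 l
      refine this.trans (le_of_eq ?_)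
      simp
    have e2 : 1 / (L * (2 * (N : ℝ))) * ∑ l, Real.log (B l z) ≤
        1 / (L * (2 * (N : ℝ))) * (L * -(N / 2 : ℝ)) :=
      mul_le_mul_of_nonneg_left e1 (by positivity)
    have e3 : 1 / (L * (2 * (N : ℝ))) * (L * -(N / 2 : ℝ)) = -(1 / 4) := by
      field_simp
      norm_num
    linarith
  · have hint : ∀ l, IntegrableOn (fun ζ : ℂ => Real.log (B l (H220.F4.vec ζ 0))) (ball 0 1) := by
      intro l
      have : Continuous fun ζ : ℂ => Real.log (B l (H220.F4.vec ζ 0)) :=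
        (hBl l).continuous.comp continuous_vec
      exact (this.continuousOn.integrableOn_compact (isCompact_closedBall _ _)).mono_set
        ball_subset_closedBall
    have hvb : (volume : Measure ℂ).real (ball 0 1) = Real.pi := by
      rw [Measure.real, Complex.volume_ball]
      simp
    have e1 : ∫ ζ in ball (0 : ℂ) 1, -(1 / (L * (2 * (N : ℝ))) * ∑ l, Real.log (B l (H220.F4.vec ζ 0)) + (-εN)) =
        -(1 / (L * (2 * (N : ℝ))) * ∑ l, ∫ ζ in ball (0 : ℂ) 1, Real.log (B l (H220.F4.vec ζ 0))) +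
          Real.pi * εN := by
      rw [integral_neg, integral_add, integral_const_mul, integral_finsetSum _ fun l _ => hint l,
        setIntegral_const, hvb, smul_eq_mul]
      · ring
      · exact (integrable_finsetSum _ fun l _ => hint l).const_mul _
      · exact integrableOn_const (by rw [Complex.volume_ball]; simp) 
    rw [e1]
    have e2 : 1 / (L * (2 * (N : ℝ))) * (-(L * (β * Real.pi / 2)) - 2 * Real.pi / β * T) ≤
        1 / (L * (2 * (N : ℝ))) * ∑ l, ∫ ζ in ball (0 : ℂ) 1, Real.log (B l (H220.F4.vec ζ 0)) :=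
      mul_le_mul_of_nonneg_left hsum (by positivity)
    have e3 : 1 / (L * (2 * (N : ℝ))) * (-(L * (β * Real.pi / 2)) - 2 * Real.pi / β * T) =
        -(Real.pi * β / (4 * N) + Real.pi / (β * N * L) * T) := by
      field_simp
      ring
    linarith

/-! ### asymptotics -/

lemma tlog (a : ℝ) (ha : 0 < a) :
    Tendsto (fun L : ℕ => Real.log (a * (L : ℝ) ^ 3) / L) atTop (𝓝 0) := by
  have h1 : Tendsto (fun L : ℕ => Real.log (L : ℝ) / L) atTop (𝓝 0) :=
    (Real.isLittleO_log_id_atTop.tendsto_div_nhds_zero).comp tendsto_natCast_atTop_atTop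
  have h2 : Tendsto (fun L : ℕ => Real.log a / (L : ℝ)) atTop (𝓝 0) :=
    tendsto_const_div_atTop_nhds_zero_nat _
  have h3 : Tendsto (fun L : ℕ => Real.log a / (L : ℝ) + 3 * (Real.log (L : ℝ) / L)) atTop (𝓝 0) := by
    have := h2.add (h1.const_mul 3)
    simpa using this
  refine h3.congr' ?_
  filter_upwards [eventually_ge_atTop 1] with L hL
  have hL0 : (0 : ℝ) < L := by exact_mod_cast hL
  rw [Real.log_mul ha.ne' (by positivity), Real.log_pow]
  push_cast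
  ring

lemma tlog2 (b : ℝ) (hb : 0 ≤ b) :
    Tendsto (fun L : ℕ => Real.log (1 + b * (L : ℝ) ^ 3) / L) atTop (𝓝 0) := by
  refine tendsto_of_tendsto_of_tendsto_of_le_of_le' tendsto_const_nhds (tlog (1 + b) (by positivity)) ?_ ?_
  · refine Eventually.of_forall fun L => ?_
    apply div_nonneg _ (by positivity)
    apply Real.log_nonneg
    have : 0 ≤ b * (L : ℝ) ^ 3 := by positivity
    linarith
  · filter_upwards [eventually_ge_atTop 1] with L hL
    have hL0 : (1 : ℝ) ≤ L := by exact_mod_cast hL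
    have hL1 : (1 : ℝ) ≤ (L : ℝ) ^ 3 := one_le_pow₀ hL0
    apply div_le_div_of_nonneg_right _ (by positivity)
    apply Real.log_le_log (by positivity)
    nlinarith

/-- the error term tends to zero -/
lemma tF (s : ℕ) (hs : 1 ≤ s) (δ : ℝ) (a S0 : ℝ) :
    Tendsto (fun L : ℕ => 4 * Real.pi * s / δ *
      (a * ((1 + 1 / (8 * s * L : ℝ)) ^ 3 - 1) +
        1 / (2 * s * (8 * s * L)) * (S0 + Real.log (1 + 102400 * (s : ℝ) ^ 2 * (L : ℝ) ^ 3))) +
      Real.pi * (1 / (2 * (8 * s * L)) * Real.log (4096 * (s : ℝ) ^ 2 * (L : ℝ) ^ 3))) atTop (𝓝 0) := by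
  have hs0 : (0 : ℝ) < s := by exact_mod_cast hs
  have h0 : Tendsto (fun L : ℕ => 1 / (8 * (s : ℝ)) * (1 / (L : ℝ))) atTop (𝓝 0) := by
    have := (tendsto_const_div_atTop_nhds_zero_nat (1 : ℝ)).const_mul (1 / (8 * (s : ℝ)))
    simpa using this
  have h1 : Tendsto (fun L : ℕ => (1 + 1 / (8 * (s : ℝ)) * (1 / (L : ℝ))) ^ 3 - 1) atTop (𝓝 0) := by
    have := (((tendsto_const_nhds (x := (1 : ℝ))).add h0).pow 3).sub_const 1
    simpa using this
  have h2 := tlog2 (102400 * (s : ℝ) ^ 2) (by positivity)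
  have h3 := tlog (4096 * (s : ℝ) ^ 2) (by positivity)
  have h4 : Tendsto (fun L : ℕ => S0 / (L : ℝ)) atTop (𝓝 0) := tendsto_const_div_atTop_nhds_zero_nat _
  have h5 := (((h1.const_mul a).add ((h4.add h2).const_mul (1 / (16 * (s : ℝ) ^ 2)))).const_mul
    (4 * Real.pi * s / δ)).add (h3.const_mul (Real.pi * (1 / (16 * s))))
  simp only [mul_zero, add_zero] at h5
  refine h5.congr' ?_
  filter_upwards [eventually_ge_atTop 1] with L hL
  have hL0 : (0 : ℝ) < L := by exact_mod_cast hL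
  have e1 : 1 / (8 * (s : ℝ)) * (1 / (L : ℝ)) = 1 / (8 * s * L) := by field_simp
  have e2 : 1 / (16 * (s : ℝ) ^ 2) * (S0 / L + Real.log (1 + 102400 * (s : ℝ) ^ 2 * (L : ℝ) ^ 3) / L) =
      1 / (2 * s * (8 * s * L)) * (S0 + Real.log (1 + 102400 * (s : ℝ) ^ 2 * (L : ℝ) ^ 3)) := by
    field_simp
    ring
  have e3 : Real.pi * (1 / (16 * (s : ℝ))) * (Real.log (4096 * (s : ℝ) ^ 2 * (L : ℝ) ^ 3) / L) =
      Real.pi * (1 / (2 * (8 * s * L)) * Real.log (4096 * (s : ℝ) ^ 2 * (L : ℝ) ^ 3)) := by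
    field_simp
    ring
  rw [e1, e2, e3]

theorem s_P4 (h1 : S_flag) (h2 : S_wt) (h3 : S_axis) (h4 : S_grow) (h5 : S_kern) : S_P4 := by
  intro s hs δ hδ hδ1 Ψ hΨ V hV C hC hCO hpsd t τ ht hτ hCt hCτ E ρ hρ hE ε hε
  have hpi := Real.pi_pos
  have hs0 : (0 : ℝ) < s := by exact_mod_cast hs
  set J := (2 / Real.pi) ^ 2 * ∫ z in C, dt Ψ z with hJ
  set κ : ℝ := 3 * ε * δ / (16 * Real.pi * s * (t + 1)) with hκ
  have hκ0 : 0 < κ := by positivity
  obtain ⟨S0, hS0⟩ := h4 Ψ hΨ V hV C hC hCO hpsd t τ ht hτ hCt hCτ κ hκ0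
  have hκ1 : 4 * Real.pi * s / δ * (2 * t / 3 * κ) ≤ ε / 2 := by
    have : 4 * Real.pi * s / δ * (2 * t / 3 * κ) = ε / 2 * (t / (t + 1)) := by
      rw [hκ]
      field_simp
      ring
    rw [this]
    have h6 : t / (t + 1) ≤ 1 := by
      rw [div_le_one (by linarith)]
      linarith
    nlinarith
  set vρ := (volume : Measure (Cn 2)).real (closedBall 0 ρ) with hvρ
  -- choice of L
  have hev : ∀ᶠ L : ℕ in atTop, 1 ≤ L ∧ Real.pi ≤ 8 * s * L * δ ∧ -Real.log vρ ≤ (8 * s * L : ℝ) / 2 ∧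
      4 * Real.pi * s / δ *
      ((2 * t / 3 * (J + κ)) * ((1 + 1 / (8 * s * L : ℝ)) ^ 3 - 1) +
        1 / (2 * s * (8 * s * L)) * (S0 + Real.log (1 + 102400 * (s : ℝ) ^ 2 * (L : ℝ) ^ 3))) +
      Real.pi * (1 / (2 * (8 * s * L)) * Real.log (4096 * (s : ℝ) ^ 2 * (L : ℝ) ^ 3)) < ε / 2 := by
    have hL : Tendsto (fun L : ℕ => (L : ℝ)) atTop atTop := tendsto_natCast_atTop_atTop
    refine (eventually_ge_atTop 1).and (((hL.eventually_ge_atTop (Real.pi / (8 * s * δ))).mono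
      fun L h => ?_).and (((hL.eventually_ge_atTop (-Real.log vρ / (4 * s))).mono fun L h => ?_).and
      ((tF s hs δ (2 * t / 3 * (J + κ)) S0).eventually (gt_mem_nhds (by linarith)))))
    · rw [div_le_iff₀ (by positivity)] at h
      linarith
    · rw [div_le_iff₀ (by positivity)] at h
      linarith
  obtain ⟨L, hL1, hL2, hL3, hL4⟩ := hev.exists
  have hL0 : (0 : ℝ) < L := by exact_mod_cast hL1
  set N : ℕ := 8 * s * L with hN
  set M : ℕ := 4 * N with hM
  have hNr : (N : ℝ) = 8 * s * L := by rw [hN]; push_cast; ring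
  have hMr : (M : ℝ) = 32 * s * L := by rw [hM]; push_cast; rw [hNr]; ring
  have hN0 : (0 : ℝ) < N := by rw [hNr]; positivity
  set β : ℝ := 2 * N * δ with hβ
  have hβ0 : 0 < β := by positivity
  have hM1 : 1 ≤ M := by
    have : 1 ≤ N := by exact_mod_cast (show (0:ℝ) < N from hN0)
    omega
  have hT := hS0 L M N β hL1 hM1 hβ0.le
  obtain ⟨v, hv1, hv2, hv3, hv4, hv5⟩ := core h1 h2 h3 h5 s hs Ψ hΨ V hV E ρ hρ hE L N M hL1 hN hM β
    (by rw [hβ, hNr]; linarith) (by rw [hβ]; nlinarith) (by rw [hNr]; exact hL3) _ hT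
  refine ⟨v, hv1, hv2, hv3, hv4, hv5.trans ?_⟩
  have e1 : 1 + 100 * (L * (M : ℝ) ^ 2) = 1 + 102400 * (s : ℝ) ^ 2 * (L : ℝ) ^ 3 := by
    rw [hMr]; ring
  have e2 : 4 * L * (M : ℝ) ^ 2 = 4096 * (s : ℝ) ^ 2 * (L : ℝ) ^ 3 := by
    rw [hMr]; ring
  rw [e1, e2, hβ, hMr, hNr]
  rw [show (2 / Real.pi) ^ 2 * (∫ z in C, dt Ψ z) = J from rfl]
  set X := Real.log (1 + 102400 * (s : ℝ) ^ 2 * (L : ℝ) ^ 3)
  set Y := Real.log (4096 * (s : ℝ) ^ 2 * (L : ℝ) ^ 3)
  have e3 : Real.pi * (2 * (8 * s * L) * δ) / (4 * (8 * s * L)) +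
      Real.pi / (2 * (8 * s * L) * δ * (8 * s * L) * L) *
        (2 * t * (J + κ) * (((8 * s * L : ℝ) + 1) ^ 3 / 3) + 2 * τ * (8 * s * L) * (L * (32 * s * L)) +
          (L * (32 * s * L)) * (S0 + X)) + Real.pi * (1 / (2 * (8 * s * L)) * Y) =
      Real.pi * δ / 2 + 4 * Real.pi * s / δ * (2 * t / 3 * J + τ / s) +
        4 * Real.pi * s / δ * (2 * t / 3 * κ) +
        (4 * Real.pi * s / δ *
          ((2 * t / 3 * (J + κ)) * ((1 + 1 / (8 * s * L : ℝ)) ^ 3 - 1) +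
            1 / (2 * s * (8 * s * L)) * (S0 + X)) +
          Real.pi * (1 / (2 * (8 * s * L)) * Y)) := by
    field_simp
    ring
  rw [e3]
  linarith

end Pool.Agent.H220.F4.PP4
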