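import Mathlib
import Pool.Agent.H220.F4.Case0
import Pool.Agent.H220.F4.LebDirac
import Pool.Agent.H220.F4.Flag
import Pool.Agent.H220.F4.Wt
import Pool.Agent.H220.F4.Kern
import Pool.Agent.H220.F4.Axis
import Pool.Agent.H220.F4.Grow
import Pool.Agent.H220.F4.P4
import Pool.Agent.H220.F4.BI
import Pool.Agent.H220.F4.L4
import Pool.Agent.H220.F4.J1
import Pool.Agent.H220.F4.Ps1
import Pool.Agent.H220.F4.Ps2
import Pool.Agent.H220.F4.Bl

set_option autoImplicit false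

open MeasureTheory Metric Set Filter Topology Matrix
open scoped ContDiff ComplexOrder

namespace Pool.Agent.H220.F4

open Pool.Agent.H805R2

/-- the capacity estimate -/
theorem s_P4 : S_P4 :=
  Pool.Agent.H220.F4.PP4.s_P4 Pool.Agent.H220.F4.PFlag.s_flag Pool.Agent.H220.F4.PWt.s_wt
    (Pool.Agent.H220.F4.PAxis.s_axis Pool.Agent.H220.F4.PWt.s_wt) (Pool.Agent.H220.F4.PGrow.s_grow Pool.Agent.H220.F4.PWt.s_wt)
    Pool.Agent.H220.F4.PKern.s_kern

/-- **the main theorem** -/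
theorem main_final {c : ℝ} (hc : 0 < c) (φ : Cn 2 → EReal) :
    ¬ IsCegrellF Om φ (ENNReal.ofReal c • mu0) :=
  main Pool.Agent.H220.F4.PBI.s_BI Pool.Agent.H220.F4.PL4.s_L4 Pool.Agent.H220.F4.PJ1.s_J1 Pool.Agent.H220.F4.PPs1.s_ps1
    (Pool.Agent.H220.F4.PPs2.s_ps2 Pool.Agent.H220.F4.PPs1.s_ps1) Pool.Agent.H220.F4.PBl.s_Bl s_P4 hc φ

end Pool.Agent.H220.F4
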