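import Mathlib
import Pool.Agent.H220.F4.Case0
import Pool.Graph.R_seed8.H805R2.Sanity

set_option autoImplicit false

open MeasureTheory Metric Set Filter Topology Matrix
open scoped ContDiff ComplexOrder

namespace Pool.Agent.H220.F4

open Pool.Agent.H805R2

lemma coord_mean (i : Fin 2) (a b : Cn 2) (φ : ℂ → ℝ) (hφ : Continuous φ)
    (h : ∀ ζ : ℂ, ‖ζ‖ = 1 → ‖(a + ζ • b) i‖ ^ 2 - 1 ≤ φ ζ) : ‖a i‖ ^ 2 - 1 ≤ Real.circleAverage φ 0 1 := by
  have h1 := (nsq_psh (n := 1) univ).2.2 (EuclideanSpace.single 0 (a i)) (EuclideanSpace.single 0 (b i))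
    (fun _ _ => mem_univ _) φ hφ (by
      intro ζ hζ
      have h2 := h ζ hζ
      have h3 : (EuclideanSpace.single (0 : Fin 1) (a i) + ζ • EuclideanSpace.single (0 : Fin 1) (b i) : Cn 1) =
          EuclideanSpace.single 0 (a i + ζ * b i) := by
        ext j
        have hj : j = 0 := Subsingleton.elim _ _
        subst hj
        simp
      rw [h3]
      beta_reduce
      rw [PiLp.norm_single]
      have h4 : (a + ζ • b) i = a i + ζ * b i := by simp
      rw [h4] at h2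
      exact_mod_cast h2)
  beta_reduce at h1
  rw [PiLp.norm_single] at h1
  exact_mod_cast h1

lemma maxfun_psh : PSH Om (fun z => ((max (‖z 0‖ ^ 2 - 1) (‖z 1‖ ^ 2 - 1) : ℝ) : EReal)) := by
  refine ⟨?_, fun z _ => EReal.coe_lt_top _, ?_⟩
  · apply Continuous.upperSemicontinuous _ |>.upperSemicontinuousOn
    have h : Continuous fun z : Cn 2 => max (‖z 0‖ ^ 2 - 1) (‖z 1‖ ^ 2 - 1) := by fun_prop
    exact continuous_coe_real_ereal.comp h
  · intro a b _ φ hφ hle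
    have h1 : ∀ ζ : ℂ, ‖ζ‖ = 1 → max (‖(a + ζ • b) 0‖ ^ 2 - 1) (‖(a + ζ • b) 1‖ ^ 2 - 1) ≤ φ ζ :=
      fun ζ hζ => EReal.coe_le_coe_iff.1 (hle ζ hζ)
    have h2 := coord_mean 0 a b φ hφ fun ζ hζ => (le_max_left _ _).trans (h1 ζ hζ)
    have h3 := coord_mean 1 a b φ hφ fun ζ hζ => (le_max_right _ _).trans (h1 ζ hζ)
    exact EReal.coe_le_coe_iff.2 (max_le h2 h3)

lemma Om_hyperconvex : Hyperconvex Om := by
  refine ⟨_, maxfun_psh, ?_, ?_⟩
  · intro z hz
    have h0 := norm_nonneg (z 0)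
    have h1 := norm_nonneg (z 1)
    have : max (‖z 0‖ ^ 2 - 1) (‖z 1‖ ^ 2 - 1) < 0 := max_lt (by nlinarith [hz.1]) (by nlinarith [hz.2])
    exact_mod_cast this
  · intro c hc
    have hm : max c (-1) < 0 := max_lt hc (by norm_num)
    refine ⟨{z : Cn 2 | ‖z 0‖ ^ 2 ≤ 1 + max c (-1) ∧ ‖z 1‖ ≤ Real.sqrt (1 + max c (-1))}, ?_, ?_, ?_⟩
    · exact (compact_box (by linarith) (by rw [Real.sqrt_lt' one_pos]; linarith)).1
    · exact (compact_box (by linarith) (by rw [Real.sqrt_lt' one_pos]; linarith)).2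
    · intro z _ hz
      have h1 : max (‖z 0‖ ^ 2 - 1) (‖z 1‖ ^ 2 - 1) < c := EReal.coe_lt_coe_iff.1 hz
      have h2 := le_max_left c (-1)
      have h3 := (le_max_left _ _).trans_lt h1
      have h4 := (le_max_right _ _).trans_lt h1
      exact ⟨by linarith, Real.le_sqrt_of_sq_le (by linarith)⟩

/-- the bidisc is a bounded hyperconvex domain; `λ ⊗ δ₀` has mass `π` on it -/
theorem bidisc_check : IsOpen Om ∧ IsConnected Om ∧ Bornology.IsBounded Om ∧ Hyperconvex Om ∧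
    mu0 Om = ENNReal.ofReal Real.pi ∧ mu0 Omᶜ = 0 :=
  ⟨isOpen_Om, Om_convex.isConnected ⟨0, by simp [Om]⟩, Om_bounded, Om_hyperconvex, mu0_Om, mu0_compl_Om⟩

end Pool.Agent.H220.F4
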